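import Pool.Agent.H34.PM.Def

set_option autoImplicit false

/-!
# [H34 PM Lem] Linear algebra for `NonQ`
-/

namespace Pool.Agent.H34.PM

open Finset

theorem exists_rel {F α W : Type} [Field F] [Fintype α] [AddCommGroup W] [Module F W] (v : α → W)
    (S : Set α) : ¬ LinearIndepOn F v S ↔
      ∃ c : α → F, c ≠ 0 ∧ (∀ i, i ∉ S → c i = 0) ∧ ∑ i, c i • v i = 0 := by
  rw [linearIndepOn_iff]
  constructor
  · intro h
    push Not at h
    obtain ⟨l, hl, h1, h2⟩ := h
    refine ⟨l, fun h3 => h2 (Finsupp.ext fun i => congrFun h3 i), ?_, ?_⟩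
    · intro i hi
      by_contra h3
      exact hi (hl (Finsupp.mem_support_iff.mpr h3))
    · rw [Finsupp.linearCombination_apply, Finsupp.sum_fintype _ _ (fun i => by simp)] at h1
      exact h1
  · rintro ⟨c, hc, h1, h2⟩ h
    have := h (Finsupp.equivFunOnFinite.symm c) ?_ ?_
    · apply hc
      funext i
      have h3 := DFunLike.congr_fun this i
      simpa using h3
    · intro i hi
      by_contra h3
      have h4 : c i ≠ 0 := by simpa using hi
      exact h4 (h1 i h3)
    · rw [Finsupp.linearCombination_apply, Finsupp.sum_fintype _ _ (fun i => by simp)]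
      simpa using h2

section transfer

variable {F F' α W W' : Type} [Field F] [Field F'] [Finite α] [AddCommGroup W] [Module F W]
  [AddCommGroup W'] [Module F' W'] {v : α → W} {u : α → W'}

omit [Finite α] in
theorem mem_span_transfer (h : ∀ I : Set α, LinearIndepOn F v I ↔ LinearIndepOn F' u I)
    {X : Set α} {x : α} (hx : u x ∉ Submodule.span F' (u '' X)) :
    v x ∉ Submodule.span F (v '' X) := by
  obtain ⟨b, hb1, -, hb2, hb3⟩ := exists_linearIndepOn_extension (linearIndepOn_empty F v)
    (Set.empty_subset X)
  have h1 := (h b).mp hb3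
  have h2 : u x ∉ Submodule.span F' (u '' b) := fun h3 =>
    hx (Submodule.span_mono (Set.image_mono hb1) h3)
  have hxb : x ∉ b := fun h3 => h2 (Submodule.subset_span ⟨x, h3, rfl⟩)
  have h4 := (h _).mpr ((linearIndepOn_insert hxb).mpr ⟨h1, h2⟩)
  have h5 := ((linearIndepOn_insert hxb).mp h4).2
  intro h6
  apply h5
  have h7 : Submodule.span F (v '' X) ≤ Submodule.span F (v '' b) := Submodule.span_le.mpr hb2
  exact h7 h6

theorem finrank_transfer (h : ∀ I : Set α, LinearIndepOn F v I ↔ LinearIndepOn F' u I)
    (X : Set α) : Module.finrank F (Submodule.span F (v '' X)) ≤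
      Module.finrank F' (Submodule.span F' (u '' X)) := by
  obtain ⟨b, hb1, -, hb2, hb3⟩ := exists_linearIndepOn_extension (linearIndepOn_empty F v)
    (Set.empty_subset X)
  have h1 := (h b).mp hb3
  have := Fintype.ofFinite b
  have e1 := finrank_span_eq_card (R := F) (b := fun i : b => v i) hb3
  have e2 := finrank_span_eq_card (R := F') (b := fun i : b => u i) h1
  have r1 : Set.range (fun i : b => v i) = v '' b := by ext x; simp
  have r2 : Set.range (fun i : b => u i) = u '' b := by ext x; simp
  rw [r1] at e1
  rw [r2] at e2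
  have f1 : FiniteDimensional F (Submodule.span F (v '' b)) :=
    FiniteDimensional.span_of_finite F (Set.toFinite _)
  have f2 : FiniteDimensional F' (Submodule.span F' (u '' X)) :=
    FiniteDimensional.span_of_finite F' (Set.toFinite _)
  have h2 : Submodule.span F (v '' X) ≤ Submodule.span F (v '' b) := Submodule.span_le.mpr hb2
  have h3 : Submodule.span F' (u '' b) ≤ Submodule.span F' (u '' X) :=
    Submodule.span_mono (Set.image_mono hb1)
  calc _ ≤ Module.finrank F (Submodule.span F (v '' b)) := Submodule.finrank_mono h2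
    _ = Module.finrank F' (Submodule.span F' (u '' b)) := by rw [e1, e2]
    _ ≤ _ := Submodule.finrank_mono h3

end transfer

/-- Connectivity and a dependency: scalars with signs changing along every edge. -/
theorem scale {A B : Type} [Fintype A] {e : B → Finset A} (hc : Conn e) {k : A → B → ℚ}
    (hk : ∀ a p, k a p ≠ 0 ↔ a ∈ e p) (two : ∀ p, (e p).card = 2)
    (hdep : ∃ l : A → ℚ, l ≠ 0 ∧ ∀ p, ∑ a, l a * k a p = 0) :
    ∃ l : A → ℚ, (∀ a, l a ≠ 0) ∧
      ∀ p a a', a ∈ e p → a' ∈ e p → a ≠ a' → l a * k a p = -(l a' * k a' p) := by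
  classical
  obtain ⟨l, hl, h⟩ := hdep
  have key : ∀ p a a', a ∈ e p → a' ∈ e p → a ≠ a' → l a * k a p = -(l a' * k a' p) := by
    intro p a a' h1 h2 h3
    have h4 : e p = {a, a'} := by
      symm
      apply Finset.eq_of_subset_of_card_le
      · intro x hx
        simp only [Finset.mem_insert, Finset.mem_singleton] at hx
        rcases hx with rfl | rfl <;> assumption
      · rw [two p, Finset.card_pair h3]
    have h5 := h p
    rw [← Finset.sum_subset (Finset.subset_univ {a, a'}), Finset.sum_pair h3] at h5
    · linarith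
    · intro x _ hx
      rw [← h4] at hx
      have : k x p = 0 := by
        by_contra h6
        exact hx ((hk x p).mp h6)
      rw [this, mul_zero]
  refine ⟨l, ?_, key⟩
  intro a0 ha0
  have hS := hc {a | l a = 0} ⟨a0, ha0⟩ ?_
  · apply hl
    funext a
    have : a ∈ ({a | l a = 0} : Set A) := by rw [hS]; trivial
    exact this
  · intro p x hx hx0 y hy
    by_cases hxy : x = y
    · rw [← hxy]; exact hx0
    · have h1 := key p x y hx hy hxy
      have h2 : l x = 0 := hx0
      rw [h2, zero_mul] at h1
      have h3 : l y * k y p = 0 := by linarith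
      rcases mul_eq_zero.mp h3 with h4 | h4
      · exact h4
      · exact absurd h4 ((hk y p).mpr hy)

end Pool.Agent.H34.PM
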