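import Pool.Agent.H34.PM.Pair
import Pool.Agent.H34.PM.Lem

set_option autoImplicit false

/-! # [H34 PM CU] binary matroids have one relation space -/

namespace Pool.Agent.H34.PM

open Finset

private theorem lio_iff (F : Type) {α W : Type} [Field F] [Fintype α] [AddCommGroup W] [Module F W]
    (v : α → W) (I : Set α) :
    LinearIndepOn F v I ↔
      ∀ g : α → F, (∀ x, x ∉ I → g x = 0) → ∑ x, g x • v x = 0 → ∀ x, g x = 0 := by
  classical
  rw [linearIndepOn_iff]
  constructor
  · intro h g hg hs x
    have h1 := h (Finsupp.equivFunOnFinite.symm g) (by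
      rw [Finsupp.mem_supported']
      intro y hy
      simpa using hg y hy) (by
      rw [Finsupp.linearCombination_apply, Finsupp.sum_fintype]
      · exact hs
      · intro i
        exact zero_smul F (v i))
    have h2 := DFunLike.congr_fun h1 x
    simpa using h2
  · intro h l hl hs
    ext x
    refine h l (fun y hy => ?_) ?_ x
    · rw [Finsupp.mem_supported'] at hl
      exact hl y hy
    · rw [← hs, Finsupp.linearCombination_apply, Finsupp.sum_fintype]
      simp

/-- Induction on the number of `i` with `c i ≠ 0`: if `c ≠ 0` is a relation of `v`, its support is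
dependent for `u`; take a relation `d ≠ 0` of `u` with smallest support inside the support of `c`;
the support of `d` is dependent for `v`, and a relation of `v` inside it must be `d` itself (its
support is dependent for `u`, so it is not smaller); so `d` is a relation of both, and `c + d` has
smaller support. -/
theorem rel_unique {α W W' : Type} [Fintype α] [AddCommGroup W] [Module (ZMod 2) W]
    [AddCommGroup W'] [Module (ZMod 2) W'] (v : α → W) (u : α → W')
    (h : ∀ I : Set α, LinearIndepOn (ZMod 2) v I ↔ LinearIndepOn (ZMod 2) u I) (c : α → ZMod 2)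
    (hc : ∑ i, c i • v i = 0) : ∑ i, c i • u i = 0 := by
  classical
  suffices key : ∀ (n : ℕ) (c : α → ZMod 2), (univ.filter (fun i => c i ≠ 0)).card = n →
      ∑ i, c i • v i = 0 → ∑ i, c i • u i = 0 from key _ c rfl hc
  intro n
  induction n using Nat.strong_induction_on with
  | _ n ih =>
    intro c hn hc
    by_cases h0 : ∀ i, c i = 0
    · simp [h0]
    push Not at h0
    obtain ⟨i0, hi0⟩ := h0
    have hP : ({d : α → ZMod 2 | (∀ i, c i = 0 → d i = 0) ∧ ∑ i, d i • u i = 0 ∧
        ∃ i, d i ≠ 0}).Nonempty := by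
      have h1 : ¬ LinearIndepOn (ZMod 2) v {i | c i ≠ 0} := by
        rw [lio_iff]
        intro hh
        exact hi0 (hh c (by intro x hx; simpa using hx) hc i0)
      rw [h, lio_iff] at h1
      push Not at h1
      obtain ⟨d, hd1, hd2, i, hd3⟩ := h1
      exact ⟨d, fun i hi => hd1 i (by simpa using hi), hd2, i, hd3⟩
    obtain ⟨d, ⟨hd1, hd2, i1, hi1⟩, hmin⟩ := Set.exists_min_image _
      (fun d : α → ZMod 2 => (univ.filter (fun i => d i ≠ 0)).card) (Set.toFinite _) hP
    have h2 : ¬ LinearIndepOn (ZMod 2) u {i | d i ≠ 0} := by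
      rw [lio_iff]
      intro hh
      exact hi1 (hh d (by intro x hx; simpa using hx) hd2 i1)
    rw [← h, lio_iff] at h2
    push Not at h2
    obtain ⟨d', a1, a2, j, hj⟩ := h2
    have h3 : ¬ LinearIndepOn (ZMod 2) v {i | d' i ≠ 0} := by
      rw [lio_iff]
      intro hh
      exact hj (hh d' (by intro x hx; simpa using hx) a2 j)
    rw [h, lio_iff] at h3
    push Not at h3
    obtain ⟨d'', e1, e2, k, hk⟩ := h3
    have a1' : ∀ i, d i = 0 → d' i = 0 := fun i hi => a1 i (by simpa using hi)
    have e1' : ∀ i, d' i = 0 → d'' i = 0 := fun i hi => e1 i (by simpa using hi)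
    have h4 := hmin d'' ⟨fun i hi => e1' i (a1' i (hd1 i hi)), e2, k, hk⟩
    have h5 : univ.filter (fun i => d'' i ≠ 0) ⊆ univ.filter (fun i => d' i ≠ 0) := by
      intro i hi
      rw [mem_filter] at hi ⊢
      exact ⟨mem_univ _, fun h' => hi.2 (e1' i h')⟩
    have h6 : univ.filter (fun i => d' i ≠ 0) ⊆ univ.filter (fun i => d i ≠ 0) := by
      intro i hi
      rw [mem_filter] at hi ⊢
      exact ⟨mem_univ _, fun h' => hi.2 (a1' i h')⟩
    have h7 : univ.filter (fun i => d' i ≠ 0) = univ.filter (fun i => d i ≠ 0) :=
      Finset.eq_of_subset_of_card_le h6 (h4.trans (card_le_card h5))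
    have two : ∀ x y : ZMod 2, x ≠ 0 → y ≠ 0 → x = y := by decide
    have two' : ∀ x y : ZMod 2, x ≠ 0 → y ≠ 0 → x + y = 0 := by decide
    have h8 : d' = d := by
      funext i
      by_cases hi : d i = 0
      · rw [hi, a1' i hi]
      · have : i ∈ univ.filter (fun i => d' i ≠ 0) := by
          rw [h7, mem_filter]
          exact ⟨mem_univ _, hi⟩
        rw [mem_filter] at this
        exact two _ _ this.2 hi
    rw [h8] at a2
    have h9 := ih (univ.filter (fun i => (c + d) i ≠ 0)).card (by
      rw [← hn]
      apply Finset.card_lt_card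
      rw [Finset.ssubset_iff_of_subset]
      · refine ⟨i1, ?_, ?_⟩
        · rw [mem_filter]
          exact ⟨mem_univ _, fun h' => hi1 (hd1 i1 h')⟩
        · rw [mem_filter]
          rintro ⟨-, h'⟩
          exact h' (two' _ _ (fun h'' => hi1 (hd1 i1 h'')) hi1)
      · intro i hi
        rw [mem_filter] at hi ⊢
        refine ⟨mem_univ _, fun h' => hi.2 ?_⟩
        rw [Pi.add_apply, h', hd1 i h', add_zero]) (c + d) rfl (by
      simp only [Pi.add_apply, add_smul, Finset.sum_add_distrib, hc, a2, add_zero])
    simp only [Pi.add_apply, add_smul, Finset.sum_add_distrib, hd2, add_zero] at h9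
    exact h9

end Pool.Agent.H34.PM
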