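import Pool.Agent.H34.PM.Def

set_option autoImplicit false

/-!
# [H34 PM Tri] Piece C (helper44): 3-connectedness
-/

namespace Pool.Agent.H34.PM

open Finset Matroid

variable {V E Φ : Type}

/-- the three inequalities for the ranks in a contraction -/
private theorem contract_rank {α : Type} {M : Matroid α} {e : α} (hnl : M.IsNonloop e) :
    (∀ X : Set α, (M ／ {e}).eRk X + 1 ≤ M.eRk (insert e X)) ∧
    (∀ Y : Set α, (M ／ {e}).eRk Y ≤ M.eRk Y) ∧ M.eRank ≤ (M ／ {e}).eRank + 1 := by
  refine ⟨fun X => ?_, fun Y => ?_, ?_⟩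
  · obtain ⟨I, hI⟩ := (M ／ {e}).exists_isBasis' X
    obtain ⟨h1, h2⟩ := hnl.contractElem_indep_iff.1 hI.indep
    rw [hI.eRk_eq_encard, ← Set.encard_insert_of_notMem h1]
    exact h2.encard_le_eRk_of_subset (Set.insert_subset_insert hI.subset)
  · obtain ⟨I, hI⟩ := (M ／ {e}).exists_isBasis' Y
    obtain ⟨h1, h2⟩ := hnl.contractElem_indep_iff.1 hI.indep
    rw [hI.eRk_eq_encard]
    exact (h2.subset (Set.subset_insert _ _)).encard_le_eRk_of_subset hI.subset
  · obtain ⟨B, hB, heB⟩ := hnl.indep.exists_isBase_superset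
    rw [Set.singleton_subset_iff] at heB
    rw [← hB.encard_eq_eRank, ← Set.encard_sdiff_singleton_add_one heB]
    gcongr
    apply Indep.encard_le_eRank
    rw [hnl.contractElem_indep_iff]
    refine ⟨fun h => h.2 rfl, ?_⟩
    rw [Set.insert_sdiff_singleton, Set.insert_eq_of_mem heB]
    exact hB.indep

/-- General lemma: `e` an element of a finite matroid `M`, not a loop, in the closure of
`E(M) - {e, p}` for every `p`, and every `p ≠ e` in the closure of `E(M) - {e, p}` too; no `p`
parallel to `e`. If `M / e` is 3-connected, so is `M`. -/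
theorem three_of_contract {α : Type} [Finite α] {M : Matroid α} {e : α} (he : e ∈ M.E)
    (hspan : ∀ p, M.closure (M.E \ {e, p}) = M.E)
    (hpar : ∀ p ∈ M.E, p ≠ e → M.Indep {e, p})
    (h : ThreeConnected (M ／ {e})) : ThreeConnected M := by
  have hfin : ∀ X : Set α, X.encard ≠ ⊤ := fun X => Set.encard_ne_top_iff.2 (Set.toFinite X)
  have hrk : ∀ (N : Matroid α) (X : Set α), ∃ a : ℕ, N.eRk X = a := fun N X => by
    obtain ⟨a, ha⟩ := ENat.ne_top_iff_exists.1 (ne_top_of_le_ne_top (hfin X) (N.eRk_le_encard X))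
    exact ⟨a, ha.symm⟩
  have key : ∀ k : ℕ, (k = 1 ∨ k = 2) → ∀ X Y : Set α, X ∪ Y = M.E → Disjoint X Y → e ∈ X →
      (k : ℕ∞) ≤ X.encard → (k : ℕ∞) ≤ Y.encard → ¬ (M.eRk X + M.eRk Y + 1 ≤ M.eRank + k) := by
    intro k hk X Y hXY hdis heX hX hY hle
    have hY1 : Y.Nonempty := by
      rw [← Set.one_le_encard_iff_nonempty]
      refine le_trans ?_ hY
      rcases hk with rfl | rfl <;> norm_num
    obtain ⟨p, hp⟩ := hY1
    have hpE : p ∈ M.E := hXY ▸ Or.inr hp
    have hpe : p ≠ e := fun h1 => Set.disjoint_left.1 hdis heX (h1 ▸ hp)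
    have hnl : M.IsNonloop e := by
      have h1 := (hpar p hpE hpe).subset (Set.singleton_subset_iff.2 (Set.mem_insert e {p}))
      exact indep_singleton.1 h1
    obtain ⟨c1, c2, c3⟩ := contract_rank hnl
    have hXins : insert e (X \ {e}) = X := by
      rw [Set.insert_sdiff_singleton, Set.insert_eq_of_mem heX]
    have r1 := c1 (X \ {e})
    rw [hXins] at r1
    have r2 := c2 Y
    obtain ⟨a, ha⟩ := hrk M X
    obtain ⟨b, hb⟩ := hrk M Y
    obtain ⟨m, hm⟩ := hrk M M.E
    rw [eRk_ground] at hm
    by_cases hc : (k : ℕ∞) ≤ (X \ {e}).encard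
    · refine h k hk (X \ {e}) Y ?_ (hdis.mono_left Set.sdiff_subset) hc hY ?_
      · rw [contract_ground, ← hXY, Set.union_sdiff_distrib]
        congr 1
        rw [Set.sdiff_singleton_eq_self]
        exact Set.disjoint_left.1 hdis heX
      · obtain ⟨a', ha'⟩ := hrk (M ／ {e}) (X \ {e})
        obtain ⟨b', hb'⟩ := hrk (M ／ {e}) Y
        obtain ⟨m', hm'⟩ := hrk (M ／ {e}) (M ／ {e}).E
        rw [eRk_ground] at hm'
        rw [ha', hb', hm']
        rw [ha', ha] at r1
        rw [hb', hb] at r2
        rw [hm, hm'] at c3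
        rw [ha, hb, hm] at hle
        norm_cast at r1 r2 c3 hle ⊢
        omega
    · have hXe : (X \ {e}).encard + 1 = X.encard := Set.encard_sdiff_singleton_add_one heX
      have hex : ∃ q, X = {e, q} ∧ M.eRk X = k := by
        rcases hk with rfl | rfl
        · have h0 : X \ {e} = ∅ := by
            rw [← Set.encard_eq_zero]
            obtain ⟨n, hn⟩ := ENat.ne_top_iff_exists.1 (hfin (X \ {e}))
            rw [← hn] at hc ⊢
            norm_cast at hc ⊢
            omega
          rw [h0] at hXins
          refine ⟨e, ?_, ?_⟩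
          · rw [← hXins]
            simp
          · rw [← hXins]
            simp [hnl.eRk_eq]
        · have h0 : (X \ {e}).encard = 1 := by
            obtain ⟨n, hn⟩ := ENat.ne_top_iff_exists.1 (hfin (X \ {e}))
            rw [← hXe] at hX
            rw [← hn] at hc hX ⊢
            norm_cast at hc hX ⊢
            omega
          obtain ⟨q, hq⟩ := Set.encard_eq_one.1 h0
          have hqX : q ∈ X \ {e} := by rw [hq]; rfl
          rw [hq] at hXins
          refine ⟨q, hXins.symm, ?_⟩
          have hqE : q ∈ M.E := hXY ▸ Or.inl hqX.1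
          rw [← hXins, (hpar q hqE hqX.2).eRk_eq_encard, Set.encard_pair (Ne.symm hqX.2)]
          rfl
      obtain ⟨q, hq, hqk⟩ := hex
      have hYeq : Y = M.E \ {e, q} := by
        rw [← hq, ← hXY, Set.union_sdiff_left, sdiff_eq_left.2 hdis.symm]
      have hYr : M.eRk Y = M.eRank := by
        rw [← eRk_closure_eq, hYeq, hspan q, eRk_ground]
      rw [hqk, hYr, hm] at hle
      norm_cast at hle
      omega
  intro k hk X Y hXY hdis hX hY hle
  have he' : e ∈ X ∪ Y := hXY ▸ he
  rcases he' with h1 | h1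
  · exact key k hk X Y hXY hdis h1 hX hY hle
  · exact key k hk Y X (by rw [Set.union_comm]; exact hXY) hdis.symm h1 hY hX
      (by rwa [add_comm (M.eRk Y)])

/-- Representation and closure in `lin`. -/
theorem lin_closure (F : Type) {α W : Type} [Field F] [Finite α] [AddCommGroup W] [Module F W]
    (v : α → W) (X : Set α) (x : α) :
    x ∈ (lin F v).closure X ↔ v x ∈ Submodule.span F (v '' X) := by
  obtain ⟨I, hI⟩ := (lin F v).exists_isBasis' X
  have hcl : ∀ y, y ∈ (lin F v).closure X ↔ v y ∈ Submodule.span F (v '' I) := by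
    intro y
    rw [← hI.closure_eq_closure, hI.indep.mem_closure_iff', lin_indep, lin_ground]
    have hIi := (lin_indep F v I).1 hI.indep
    by_cases hy : y ∈ I
    · exact ⟨fun _ => Submodule.subset_span ⟨y, hy, rfl⟩, fun _ => ⟨trivial, fun _ => hy⟩⟩
    · rw [linearIndepOn_insert hy]
      constructor
      · rintro ⟨-, h1⟩
        by_contra h2
        exact hy (h1 ⟨hIi, h2⟩)
      · intro h1
        exact ⟨trivial, fun h2 => absurd h1 h2.2⟩
  rw [hcl x]
  constructor
  · exact fun h1 => Submodule.span_mono (Set.image_mono hI.subset) h1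
  · intro h1
    refine (Submodule.span_le.2 ?_) h1
    rintro _ ⟨y, hy, rfl⟩
    refine (hcl y).1 ?_
    exact (lin F v).subset_closure X (Set.subset_univ X) hy

/-- `big` satisfies the hypotheses of the general lemma. -/
theorem big_three [Fintype V] [Fintype E] {vtx : E → Finset V} {fac : E → Finset Φ}
    (h : IsMap vtx fac) {w : E → ZMod 2} (hw : Sig vtx fac w)
    (h3 : ThreeConnected ((big vtx w) ／ {none})) : ThreeConnected (big vtx w) := by
  classical
  have hsum : ∀ c : E → ZMod 2, IsCyc vtx c →
      ∑ p, c p • ext vtx w (some p) = ((0, ∑ p, c p * w p) : (V → ZMod 2) × ZMod 2) := by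
    intro c hc
    refine Prod.ext ?_ ?_
    · rw [Prod.fst_sum]
      funext v
      rw [Finset.sum_apply]
      exact hc v
    · rw [Prod.snd_sum]
      rfl
  obtain ⟨c, hc, hc1⟩ := hw.cycle
  have hc2 := hsum c hc
  rw [hc1] at hc2
  -- one edge in the span of the others
  have hedge : ∀ q : E, ext vtx w (some q) ∈
      Submodule.span (ZMod 2) (ext vtx w '' (Set.univ \ {none, some q})) := by
    intro q
    have hq2 := h.two_faces q
    obtain ⟨f, hf⟩ : (fac q).Nonempty := Finset.card_pos.1 (by omega)
    have h1 := hsum _ (h.face_isCyc f)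
    rw [hw.face f, ← Finset.add_sum_erase _ _ (Finset.mem_univ q)] at h1
    have h2 : inc fac q f = 1 := by simp [inc, hf]
    rw [h2, one_smul] at h1
    have h4 : ext vtx w (some q) =
        -∑ x ∈ Finset.univ.erase q, inc fac x f • ext vtx w (some x) :=
      eq_neg_of_add_eq_zero_left h1
    rw [h4]
    refine Submodule.neg_mem _ (Submodule.sum_mem _ fun x hx => Submodule.smul_mem _ _ ?_)
    refine Submodule.subset_span ⟨some x, ⟨Set.mem_univ _, ?_⟩, rfl⟩
    simpa using (Finset.mem_erase.1 hx).1
  have hall : ∀ p : Option E, ∀ x : Option E,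
      ext vtx w x ∈ Submodule.span (ZMod 2) (ext vtx w '' (Set.univ \ {none, p})) := by
    intro p
    have h1 : ∀ x : E, ext vtx w (some x) ∈
        Submodule.span (ZMod 2) (ext vtx w '' (Set.univ \ {none, p})) := by
      intro x
      by_cases hx : p = some x
      · rw [hx]
        exact hedge x
      · refine Submodule.subset_span ⟨some x, ⟨Set.mem_univ _, ?_⟩, rfl⟩
        simpa using fun h5 => hx h5.symm
    rintro (_ | x)
    · have h5 : ext vtx w none = ∑ p, c p • ext vtx w (some p) := hc2.symm
      rw [h5]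
      exact Submodule.sum_mem _ fun x _ => Submodule.smul_mem _ _ (h1 x)
    · exact h1 x
  refine three_of_contract (e := none) (Set.mem_univ _) (fun p => ?_) (fun p _ hp => ?_) h3
  · refine Set.eq_univ_of_forall fun x => ?_
    exact (lin_closure (ZMod 2) (ext vtx w) _ x).2 (hall p x)
  · obtain ⟨q, rfl⟩ := Option.ne_none_iff_exists'.1 hp
    refine (lin_indep (ZMod 2) (ext vtx w) _).2 ?_
    rw [Set.pair_comm, linearIndepOn_insert (by simp)]
    constructor
    · rw [linearIndepOn_singleton_iff]
      intro h6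
      have h7 := congrArg Prod.snd h6
      exact one_ne_zero h7
    · rw [Set.image_singleton, Submodule.mem_span_singleton]
      rintro ⟨a, ha⟩
      have hq2 := h.two_ends q
      obtain ⟨v, hv⟩ : (vtx q).Nonempty := Finset.card_pos.1 (by omega)
      have h7 := congrFun (congrArg Prod.fst ha) v
      have h8 : inc vtx q v = 1 := by simp [inc, hv]
      have h9 : a • (0 : ZMod 2) = inc vtx q v := h7
      rw [h8, smul_zero] at h9
      exact zero_ne_one h9

end Pool.Agent.H34.PM
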