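import Pool.Agent.H34.PM.Def

set_option autoImplicit false

/-!
# [H34 PM Sig3] dimension counts: `exists_sig`, `cycle_eq_faces` (helper3)
-/

namespace Pool.Agent.H34.PM

open Finset Matroid

variable {V E Φ U : Type}

/-- the incidence matrix -/
noncomputable def incM (e : E → Finset U) : Matrix E U (ZMod 2) := Matrix.of fun p u => inc e p u

theorem incM_mulVec [Fintype U] (e : E → Finset U) (x : U → ZMod 2) (p : E) :
    (incM e).mulVec x p = ∑ u ∈ e p, x u := by
  classical
  simp only [incM, Matrix.mulVec, dotProduct, Matrix.of_apply, inc]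
  rw [← Finset.sum_filter_add_sum_filter_not Finset.univ (fun u => u ∈ e p)]
  rw [Finset.sum_eq_zero (s := Finset.univ.filter fun u => ¬ u ∈ e p) (by
    intro u hu
    rw [Finset.mem_filter] at hu
    simp [hu.2]), add_zero]
  rw [show (Finset.univ.filter fun u => u ∈ e p) = e p by ext u; simp]
  exact Finset.sum_congr rfl fun u hu => by simp [hu]

theorem two_add (x : ZMod 2) : x + x = 0 := by
  revert x
  decide

theorem eq_of_add {x y : ZMod 2} (h : x + y = 0) : x = y := by
  revert x y
  decide

theorem rank_incM [Fintype E] [Fintype U] [Nonempty U] {e : E → Finset U}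
    (h2 : ∀ p, (e p).card = 2) (hc : Conn e) : (incM e).rank + 1 = Fintype.card U := by
  classical
  have hker : LinearMap.ker (incM e).mulVecLin = Submodule.span (ZMod 2) {(1 : U → ZMod 2)} := by
    apply le_antisymm
    · intro x hx
      have hx1 : ∀ p, ∑ u ∈ e p, x u = 0 := by
        intro p
        rw [← incM_mulVec]
        have := congrFun (LinearMap.mem_ker.mp hx) p
        simpa using this
      obtain ⟨u0⟩ := (inferInstance : Nonempty U)
      have hS : {u | x u = x u0} = Set.univ := by
        refine hc {u | x u = x u0} ⟨u0, rfl⟩ ?_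
        intro p u hu hux v hv
        obtain ⟨a, b, hab, hp⟩ := Finset.card_eq_two.mp (h2 p)
        have h3 := hx1 p
        rw [hp, Finset.sum_pair hab] at h3
        have h4 := eq_of_add h3
        rw [hp, Finset.mem_insert, Finset.mem_singleton] at hu hv
        change x u = x u0 at hux
        change x v = x u0
        rcases hu with rfl | rfl <;> rcases hv with rfl | rfl
        · exact hux
        · rw [← h4]; exact hux
        · rw [h4]; exact hux
        · exact hux
      rw [Submodule.mem_span_singleton]
      refine ⟨x u0, ?_⟩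
      ext u
      have : u ∈ {u | x u = x u0} := by rw [hS]; trivial
      change x u = x u0 at this
      simp [this]
    · rw [Submodule.span_singleton_le_iff_mem, LinearMap.mem_ker]
      ext p
      rw [Matrix.mulVecLin_apply, incM_mulVec]
      obtain ⟨a, b, hab, hp⟩ := Finset.card_eq_two.mp (h2 p)
      rw [hp, Finset.sum_pair hab]
      exact two_add _
  have h1 := LinearMap.finrank_range_add_finrank_ker (incM e).mulVecLin
  rw [hker, finrank_span_singleton (by
    obtain ⟨u0⟩ := (inferInstance : Nonempty U)
    intro h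
    have := congrFun h u0
    simp at this), Module.finrank_fintype_fun_eq_card] at h1
  exact h1

/-- the boundary map -/
theorem isCyc_iff [Fintype E] (vtx : E → Finset V) (c : E → ZMod 2) :
    IsCyc vtx c ↔ c ∈ LinearMap.ker ((incM vtx).transpose).mulVecLin := by
  rw [LinearMap.mem_ker]
  constructor
  · intro h
    ext v
    have := h v
    simp only [Matrix.mulVecLin_apply, Matrix.mulVec, dotProduct, Matrix.transpose_apply, incM,
      Matrix.of_apply, Pi.zero_apply]
    rw [← this]
    exact Finset.sum_congr rfl fun p _ => mul_comm _ _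
  · intro h v
    have := congrFun h v
    simp only [Matrix.mulVecLin_apply, Matrix.mulVec, dotProduct, Matrix.transpose_apply, incM,
      Matrix.of_apply, Pi.zero_apply] at this
    rw [← this]
    exact Finset.sum_congr rfl fun p _ => mul_comm _ _

theorem dims [Fintype V] [Fintype E] [Fintype Φ] [Nonempty V] [Nonempty Φ]
    {vtx : E → Finset V} {fac : E → Finset Φ} (h : IsMap vtx fac)
    (hE : Fintype.card V + Fintype.card Φ = Fintype.card E + 1) :
    Module.finrank (ZMod 2) (LinearMap.ker ((incM vtx).transpose).mulVecLin) = Fintype.card Φ ∧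
    Module.finrank (ZMod 2) (LinearMap.range (incM fac).mulVecLin) + 1 = Fintype.card Φ := by
  constructor
  · have h1 := LinearMap.finrank_range_add_finrank_ker ((incM vtx).transpose).mulVecLin
    have h2 := rank_incM h.two_ends h.conn
    rw [← Matrix.rank_transpose] at h2
    have h3 : Module.finrank (ZMod 2) (LinearMap.range ((incM vtx).transpose).mulVecLin) =
        ((incM vtx).transpose).rank := rfl
    rw [h3, Module.finrank_fintype_fun_eq_card] at h1
    omega
  · exact rank_incM h.two_faces h.dual_conn

theorem exists_sig3 [Fintype V] [Fintype E] [Fintype Φ] [Nonempty V] [Nonempty Φ]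
    {vtx : E → Finset V} {fac : E → Finset Φ} (h : IsMap vtx fac)
    (hE : Fintype.card V + Fintype.card Φ = Fintype.card E + 1) :
    ∃ w, Sig vtx fac w := by
  classical
  obtain ⟨d1, d2⟩ := dims h hE
  have h1 : ¬ LinearMap.ker ((incM vtx).transpose).mulVecLin ≤
      LinearMap.range (incM fac).mulVecLin := by
    intro hle
    have := Submodule.finrank_mono hle
    omega
  obtain ⟨c, hc1, hc2⟩ := SetLike.not_le_iff_exists.mp h1
  obtain ⟨g, hg1, hg2⟩ := Submodule.exists_le_ker_of_notMem hc2
  have hg : ∀ y : E → ZMod 2, g y = ∑ p, y p * g (Pi.single p 1) := by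
    intro y
    conv_lhs => rw [pi_eq_sum_univ' y]
    rw [map_sum]
    refine Finset.sum_congr rfl fun p _ => ?_
    rw [map_smul, smul_eq_mul]
  refine ⟨fun p => g (Pi.single p 1), fun f => ?_, c, (isCyc_iff vtx c).mpr hc1, ?_⟩
  · have h2 : (fun p => inc fac p f) ∈ LinearMap.range (incM fac).mulVecLin := by
      refine ⟨Pi.single f 1, ?_⟩
      ext p
      simp [incM]
    have h3 := hg2 h2
    rw [LinearMap.mem_ker, hg] at h3
    exact h3
  · rw [← hg]
    have : ∀ x : ZMod 2, x ≠ 0 → x = 1 := by decide
    exact this _ hg1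

theorem cycle_eq_faces3 [Fintype V] [Fintype E] [Fintype Φ] [Nonempty V] [Nonempty Φ]
    {vtx : E → Finset V} {fac : E → Finset Φ} (h : IsMap vtx fac)
    (hE : Fintype.card V + Fintype.card Φ = Fintype.card E + 1) {w : E → ZMod 2}
    (hw : Sig vtx fac w) (c : E → ZMod 2) (hc : IsCyc vtx c) (hcw : ∑ p, c p * w p = 0) :
    ∃ x : Φ → ZMod 2, ∀ p, c p = ∑ f, x f * inc fac p f := by
  classical
  obtain ⟨d1, d2⟩ := dims h hE
  let g : (E → ZMod 2) →ₗ[ZMod 2] ZMod 2 :=
    { toFun := fun y => ∑ p, y p * w p
      map_add' := fun y z => by simp [add_mul, Finset.sum_add_distrib]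
      map_smul' := fun a y => by simp [Finset.mul_sum, mul_assoc] }
  have hle : LinearMap.range (incM fac).mulVecLin ≤
      LinearMap.ker ((incM vtx).transpose).mulVecLin ⊓ LinearMap.ker g := by
    rintro _ ⟨x, rfl⟩
    have hx : (incM fac).mulVecLin x = ∑ f, x f • (fun p => inc fac p f) := by
      ext p
      simp [incM, Matrix.mulVec, dotProduct, mul_comm]
    rw [hx]
    refine Submodule.sum_mem _ fun f _ => Submodule.smul_mem _ _ ⟨?_, ?_⟩
    · exact (isCyc_iff vtx _).mp (h.face_isCyc f)
    · exact hw.face f
  have hlt : LinearMap.ker ((incM vtx).transpose).mulVecLin ⊓ LinearMap.ker g <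
      LinearMap.ker ((incM vtx).transpose).mulVecLin := by
    refine lt_of_le_of_ne inf_le_left fun heq => ?_
    obtain ⟨c1, hc1, hc2⟩ := hw.cycle
    have h1 := (isCyc_iff vtx c1).mp hc1
    rw [← heq] at h1
    have h2 : g c1 = 0 := h1.2
    have h3 : g c1 = 1 := hc2
    rw [h2] at h3
    exact zero_ne_one h3
  have h1 := Submodule.finrank_lt_finrank_of_lt hlt
  have heq : LinearMap.range (incM fac).mulVecLin =
      LinearMap.ker ((incM vtx).transpose).mulVecLin ⊓ LinearMap.ker g := by
    apply Submodule.eq_of_le_of_finrank_le hle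
    omega
  have h2 : c ∈ LinearMap.range (incM fac).mulVecLin := by
    rw [heq]
    exact ⟨(isCyc_iff vtx c).mp hc, hcw⟩
  obtain ⟨x, hx⟩ := h2
  refine ⟨x, fun p => ?_⟩
  rw [← hx]
  simp [incM, Matrix.mulVec, dotProduct, mul_comm]

end Pool.Agent.H34.PM
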