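import Pool.Agent.H34.PM.Lem

set_option autoImplicit false

/-!
# [H34 PM NonQ] Piece D (helper34): not representable over `ℚ`
-/

namespace Pool.Agent.H34.PM

open Finset

variable {V E Φ : Type}

theorem sum_ext [Fintype E] {vtx : E → Finset V} {w : E → ZMod 2} (d : E → ZMod 2) :
    ∑ p, d p • ext vtx w (some p) = 0 ↔ IsCyc vtx d ∧ ∑ p, d p * w p = 0 := by
  rw [Prod.ext_iff]
  constructor
  · rintro ⟨h1, h2⟩
    refine ⟨fun v => ?_, ?_⟩
    · have := congrFun h1 v
      simpa [ext, Prod.fst_sum] using this
    · simpa [ext, Prod.snd_sum] using h2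
  · rintro ⟨h1, h2⟩
    refine ⟨?_, ?_⟩
    · funext v
      have := h1 v
      simpa [ext, Prod.fst_sum] using this
    · simpa [ext, Prod.snd_sum] using h2

section

variable [Fintype E] {vtx : E → Finset V} {fac : E → Finset Φ} {w : E → ZMod 2}
  {W : Type} [AddCommGroup W] [Module ℚ W] {u : Option E → W}

theorem face_rel (h : IsMap vtx fac) (hw : Sig vtx fac w)
    (hu : ∀ I, LinearIndepOn (ZMod 2) (ext vtx w) I ↔ LinearIndepOn ℚ u I) (f : Φ) :
    ∃ c : E → ℚ, (∀ p, c p ≠ 0 ↔ f ∈ fac p) ∧ ∑ p, c p • u (some p) = 0 := by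
  classical
  by_cases hE : ∃ p, f ∈ fac p
  · obtain ⟨p0, hp0⟩ := hE
    set S : Set (Option E) := some '' {p | f ∈ fac p} with hS
    have h1 : ¬ LinearIndepOn (ZMod 2) (ext vtx w) S := by
      rw [exists_rel]
      refine ⟨fun i => i.elim 0 (fun p => inc fac p f), ?_, ?_, ?_⟩
      · intro h2
        have := congrFun h2 (some p0)
        simp [inc, hp0] at this
      · intro i hi
        rcases i with _ | p
        · rfl
        · by_cases hf : f ∈ fac p
          · exact absurd ⟨p, hf, rfl⟩ hi
          · simp [inc, hf]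
      · rw [Fintype.sum_option]
        simp only [Option.elim, zero_smul, zero_add]
        exact (sum_ext _).mpr ⟨h.face_isCyc f, hw.face f⟩
    have h2 : ¬ LinearIndepOn ℚ u S := fun h3 => h1 ((hu S).mpr h3)
    obtain ⟨c, hc, hc1, hc2⟩ := (exists_rel u S).mp h2
    have hnone : c none = 0 := hc1 none (by rintro ⟨p, _, hp⟩; cases hp)
    set T : Set E := {p | c (some p) ≠ 0} with hTdef
    have hT : ∀ p ∈ T, f ∈ fac p := by
      intro p hp
      by_contra hf
      exact hp (hc1 (some p) (by rintro ⟨q, hq, hqp⟩; cases hqp; exact hf hq))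
    have h3 : ¬ LinearIndepOn ℚ u (some '' T) := by
      rw [exists_rel]
      refine ⟨c, hc, ?_, hc2⟩
      intro i hi
      rcases i with _ | p
      · exact hnone
      · by_contra h4
        exact hi ⟨p, h4, rfl⟩
    have h4 : ¬ LinearIndepOn (ZMod 2) (ext vtx w) (some '' T) := fun h5 => h3 ((hu _).mp h5)
    obtain ⟨d, hd, hd1, hd2⟩ := (exists_rel _ _).mp h4
    have hdn : d none = 0 := hd1 none (by rintro ⟨p, _, hp⟩; cases hp)
    rw [Fintype.sum_option, hdn, zero_smul, zero_add] at hd2
    obtain ⟨hcyc, -⟩ := (sum_ext (fun p => d (some p))).mp hd2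
    set U : Set E := {p | d (some p) ≠ 0} with hUdef
    have hUT : U ⊆ T := fun p hp => by
      by_contra h5
      exact hp (hd1 _ (by rintro ⟨q, hq, hqp⟩; cases hqp; exact h5 hq))
    have hU : ∀ q, f ∈ fac q → q ∈ U := by
      apply h.face_cycle f U (fun p hp => hT p (hUT hp))
      · by_contra h5
        rw [Set.not_nonempty_iff_eq_empty] at h5
        apply hd
        funext i
        rcases i with _ | p
        · exact hdn
        · by_contra h6
          have : p ∈ U := h6
          rw [h5] at this
          exact this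
      · rintro p hp q hq ⟨v, hv1, hv2⟩
        by_cases hpq : q = p
        · rw [hpq]; exact hp
        have hc' := hcyc v
        obtain ⟨q', ⟨a1, a2, a3⟩, huniq⟩ := h.corner v f p hv1 (hT p (hUT hp))
        have hq' : q = q' := huniq q ⟨hpq, hv2, hq⟩
        subst hq'
        rw [← Finset.sum_subset (Finset.subset_univ {p, q}), Finset.sum_pair (Ne.symm hpq)] at hc'
        · simp only [inc, hv1, hv2, if_true, mul_one] at hc'
          intro h6
          rw [h6, add_zero] at hc'
          exact hp hc'
        · intro r _ hr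
          simp only [Finset.mem_insert, Finset.mem_singleton, not_or] at hr
          by_cases hr1 : v ∈ vtx r
          · by_cases hr2 : d (some r) = 0
            · simp [hr2]
            · have : f ∈ fac r := hT r (hUT hr2)
              exact absurd (huniq r ⟨hr.1, hr1, this⟩) hr.2
          · simp [inc, hr1]
    refine ⟨fun p => c (some p), fun p => ⟨fun hp => hT p hp, fun hp => hUT (hU p hp)⟩, ?_⟩
    rw [Fintype.sum_option, hnone, zero_smul, zero_add] at hc2
    exact hc2
  · push Not at hE
    exact ⟨0, by simp [hE], by simp⟩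

theorem star_fun (hu : ∀ I, LinearIndepOn (ZMod 2) (ext vtx w) I ↔ LinearIndepOn ℚ u I) (v : V) :
    ∃ g : W →ₗ[ℚ] ℚ, g (u none) = 0 ∧ ∀ p, g (u (some p)) ≠ 0 ↔ v ∈ vtx p := by
  classical
  set X : Set (Option E) := {i | ∀ p, i = some p → v ∉ vtx p} with hX
  have h1 : ∀ p, v ∈ vtx p → u (some p) ∉ Submodule.span ℚ (u '' X) := by
    intro p hp
    apply mem_span_transfer (v := u) (u := ext vtx w) (fun I => (hu I).symm)
    intro h2
    set φ : ((V → ZMod 2) × ZMod 2) →ₗ[ZMod 2] ZMod 2 :=
      (LinearMap.proj v).comp (LinearMap.fst (ZMod 2) (V → ZMod 2) (ZMod 2)) with hφ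
    have h3 : Submodule.span (ZMod 2) (ext vtx w '' X) ≤ LinearMap.ker φ := by
      rw [Submodule.span_le]
      rintro _ ⟨i, hi, rfl⟩
      rcases i with _ | q
      · simp [hφ, ext]
      · have := hi q rfl
        simp [hφ, ext, inc, this]
    have h4 := h3 h2
    simp [hφ, ext, inc, hp] at h4
  set S := Submodule.span ℚ (u '' X) with hS
  obtain ⟨g, hg⟩ := Module.exists_dual_forall_apply_ne_zero (K := ℚ) (M := W ⧸ S)
    (v := fun p : {p : E // v ∈ vtx p} => S.mkQ (u (some p))) (by
      rintro ⟨p, hp⟩ h2
      exact h1 p hp ((Submodule.Quotient.mk_eq_zero S).mp h2))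
  refine ⟨g.comp S.mkQ, ?_, ?_⟩
  · have : u none ∈ S := Submodule.subset_span ⟨none, by simp [hX], rfl⟩
    rw [LinearMap.comp_apply, Submodule.mkQ_apply, (Submodule.Quotient.mk_eq_zero S).mpr this,
      map_zero]
  · intro p
    constructor
    · intro h2
      by_contra h3
      apply h2
      have : u (some p) ∈ S := Submodule.subset_span ⟨some p, by
        intro q hq
        cases hq
        exact h3, rfl⟩
      rw [LinearMap.comp_apply, Submodule.mkQ_apply, (Submodule.Quotient.mk_eq_zero S).mpr this,
        map_zero]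
    · intro h2
      exact hg ⟨p, h2⟩

end

section rank

variable [Fintype V] [Fintype E] [Nonempty V] {vtx : E → Finset V} {fac : E → Finset Φ}
  {w : E → ZMod 2}

omit [Nonempty V] in
theorem fun_eq (f : ((V → ZMod 2) × ZMod 2) →ₗ[ZMod 2] ZMod 2) (y : V → ZMod 2) (t : ZMod 2)
    [DecidableEq V] : f (y, t) = ∑ v, y v * f (Pi.single v 1, 0) + t * f (0, 1) := by
  have h1 : (y, t) = ∑ v, y v • ((Pi.single v (1 : ZMod 2), 0) : (V → ZMod 2) × ZMod 2) +
      t • ((0, 1) : (V → ZMod 2) × ZMod 2) := by
    rw [Prod.ext_iff]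
    constructor
    · funext x
      simp [Prod.fst_sum, Pi.single_apply]
    · simp [Prod.snd_sum]
  rw [h1, map_add, map_sum]
  simp only [map_smul, smul_eq_mul]

theorem rank_ge (h : IsMap vtx fac) (hw : Sig vtx fac w) :
    Fintype.card V ≤ Module.finrank (ZMod 2)
      (Submodule.span (ZMod 2) (ext vtx w '' Set.range some)) := by
  classical
  obtain ⟨v0⟩ := ‹Nonempty V›
  set U2 := Submodule.span (ZMod 2) (ext vtx w '' Set.range some) with hU2
  set x0 : (V → ZMod 2) × ZMod 2 := (Pi.single v0 1, 0) with hx0
  have htop : U2 ⊔ Submodule.span (ZMod 2) {x0} = ⊤ := by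
    by_contra hne
    obtain ⟨f, hf0, hf⟩ := Submodule.exists_le_ker_of_lt_top _ (lt_top_iff_ne_top.mpr hne)
    have e1 : ∀ p, ∑ v, inc vtx p v * f (Pi.single v 1, 0) + w p * f (0, 1) = 0 := by
      intro p
      rw [← fun_eq]
      exact hf (Submodule.mem_sup_left (Submodule.subset_span ⟨some p, ⟨p, rfl⟩, rfl⟩))
    have e2 : f (Pi.single v0 1, 0) = 0 :=
      hf (Submodule.mem_sup_right (Submodule.mem_span_singleton_self _))
    have e3 : f (0, 1) = 0 := by
      obtain ⟨c, hc1, hc2⟩ := hw.cycle
      have h1 : ∑ p, c p * (∑ v, inc vtx p v * f (Pi.single v 1, 0) + w p * f (0, 1)) = 0 :=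
        Finset.sum_eq_zero fun p _ => by rw [e1 p, mul_zero]
      simp only [mul_add, Finset.sum_add_distrib, Finset.mul_sum] at h1
      rw [Finset.sum_comm] at h1
      have h2 : ∑ v, ∑ p, c p * (inc vtx p v * f (Pi.single v 1, 0)) = 0 := by
        apply Finset.sum_eq_zero
        intro v _
        have := hc1 v
        simp only [← mul_assoc]
        rw [← Finset.sum_mul, this, zero_mul]
      rw [h2, zero_add] at h1
      simp only [← mul_assoc] at h1
      rw [← Finset.sum_mul, hc2, one_mul] at h1
      exact h1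
    have e4 : ({v | f (Pi.single v 1, 0) = 0} : Set V) = Set.univ := by
      apply h.conn _ ⟨v0, e2⟩
      intro p x hx hx0 y hy
      by_cases hxy : x = y
      · rw [← hxy]; exact hx0
      have h4 : vtx p = {x, y} := by
        symm
        apply Finset.eq_of_subset_of_card_le
        · intro z hz
          simp only [Finset.mem_insert, Finset.mem_singleton] at hz
          rcases hz with rfl | rfl <;> assumption
        · rw [h.two_ends p, Finset.card_pair hxy]
      have h5 := e1 p
      rw [e3, mul_zero, add_zero, ← Finset.sum_subset (Finset.subset_univ {x, y}),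
        Finset.sum_pair hxy] at h5
      · have h6 : f (Pi.single x 1, 0) = 0 := hx0
        simpa [inc, hx, hy, h6] using h5
      · intro z _ hz
        rw [← h4] at hz
        simp [inc, hz]
    apply hf0
    ext1
    · ext v
      have : v ∈ ({v | f (Pi.single v 1, 0) = 0} : Set V) := by rw [e4]; trivial
      simpa using this
    · ext
      simpa using e3
  have h1 := Submodule.finrank_add_le_finrank_add_finrank U2 (Submodule.span (ZMod 2) {x0})
  rw [htop, finrank_top, Module.finrank_prod, Module.finrank_pi, Module.finrank_self] at h1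
  have h2 := finrank_span_le_card (R := ZMod 2) ({x0} : Set ((V → ZMod 2) × ZMod 2))
  simp only [Set.toFinset_singleton, Finset.card_singleton] at h2
  omega

omit [Fintype E] in
theorem rank_le (h : IsMap vtx fac) :
    Module.finrank (ZMod 2) (Submodule.span (ZMod 2) (ext vtx w '' Set.univ)) ≤
      Fintype.card V := by
  classical
  obtain ⟨v0⟩ := ‹Nonempty V›
  have hne : Submodule.span (ZMod 2) (ext vtx w '' Set.univ) ≠ ⊤ := by
    intro htop
    set φ : ((V → ZMod 2) × ZMod 2) →ₗ[ZMod 2] ZMod 2 :=
      (∑ v, LinearMap.proj v).comp (LinearMap.fst (ZMod 2) (V → ZMod 2) (ZMod 2)) with hφ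
    have h3 : Submodule.span (ZMod 2) (ext vtx w '' Set.univ) ≤ LinearMap.ker φ := by
      rw [Submodule.span_le]
      rintro _ ⟨i, -, rfl⟩
      rcases i with _ | p
      · simp [hφ, ext]
      · obtain ⟨x, y, hxy, hp⟩ := Finset.card_eq_two.mp (h.two_ends p)
        have : ∑ v, inc vtx p v = 0 := by
          rw [← Finset.sum_subset (Finset.subset_univ {x, y}), Finset.sum_pair hxy]
          · simp only [inc, hp, Finset.mem_insert, Finset.mem_singleton, true_or, or_true, if_true]
            decide
          · intro z _ hz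
            rw [← hp] at hz
            simp [inc, hz]
        simpa [hφ, ext] using this
    have h4 : ((Pi.single v0 1, 0) : (V → ZMod 2) × ZMod 2) ∈ LinearMap.ker φ :=
      h3 (by rw [htop]; trivial)
    simp [hφ, Pi.single_apply] at h4
  have h1 := Submodule.finrank_lt hne
  rw [Module.finrank_prod, Module.finrank_pi, Module.finrank_self] at h1
  omega

end rank

theorem big_not_rep [Fintype V] [Fintype E] [Fintype Φ] [Nonempty V] [Nonempty Φ]
    {vtx : E → Finset V} {fac : E → Finset Φ} (h : IsMap vtx fac)
    (hE : Fintype.card V + Fintype.card Φ = Fintype.card E + 1) {w : E → ZMod 2}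
    (hw : Sig vtx fac w) (ho : ¬ Orientable vtx fac) : ¬ Rep ℚ (big vtx w) := by
  classical
  rintro ⟨W, iW, jW, u, hrep⟩
  have hu : ∀ I, LinearIndepOn (ZMod 2) (ext vtx w) I ↔ LinearIndepOn ℚ u I := by
    intro I
    rw [← hrep I (Set.subset_univ _)]
    exact (lin_indep (ZMod 2) (ext vtx w) I).symm
  choose c hc1 hc2 using fun f => face_rel h hw hu f
  choose g hg1 hg2 using fun v => star_fun hu v
  -- the faces
  set T : (E → ℚ) →ₗ[ℚ] W := Fintype.linearCombination ℚ (fun p => u (some p)) with hT
  have hker : Module.finrank ℚ (LinearMap.ker T) < Fintype.card Φ := by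
    have h1 := LinearMap.finrank_range_add_finrank_ker T
    rw [Module.finrank_pi] at h1
    have h2 : LinearMap.range T = Submodule.span ℚ (u '' Set.range some) := by
      rw [hT, Fintype.range_linearCombination, ← Set.range_comp]
      rfl
    have h3 := (rank_ge h hw).trans (finrank_transfer hu (Set.range some))
    rw [← h2] at h3
    have : 0 < Fintype.card Φ := Fintype.card_pos
    omega
  obtain ⟨l, hl0, hl⟩ := scale h.dual_conn (k := c) hc1 h.two_faces (by
    have h1 : ¬ LinearIndependent ℚ (fun f => (⟨c f, by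
        rw [LinearMap.mem_ker, hT, Fintype.linearCombination_apply]
        exact hc2 f⟩ : LinearMap.ker T)) := fun h2 =>
      absurd h2.fintype_card_le_finrank (by omega)
    obtain ⟨l, hl1, i, hi⟩ := Fintype.not_linearIndependent_iff.mp h1
    refine ⟨l, fun h3 => hi (congrFun h3 i), fun p => ?_⟩
    have h4 := congrArg (fun x : LinearMap.ker T => (x : E → ℚ) p) hl1
    simpa using h4)
  -- the vertices
  set U := Submodule.span ℚ (u '' Set.univ) with hU
  have hfin : FiniteDimensional ℚ U := FiniteDimensional.span_of_finite ℚ (Set.toFinite _)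
  set u0 : U := ⟨u none, Submodule.subset_span ⟨none, trivial, rfl⟩⟩ with hu0
  have hu0' : u0 ≠ 0 := by
    intro h1
    have h2 : u none = 0 := congrArg Subtype.val h1
    have h3 : LinearIndepOn (ZMod 2) (ext vtx w) {none} := by
      apply LinearIndepOn.singleton
      simp [ext]
    exact ((hu _).mp h3).ne_zero (Set.mem_singleton none) h2
  have hUrank : Module.finrank ℚ U ≤ Fintype.card V :=
    (finrank_transfer (fun I => (hu I).symm) Set.univ).trans (rank_le h)
  have hann : Module.finrank ℚ (Submodule.span ℚ {u0}).dualAnnihilator < Fintype.card V := by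
    have h1 := Subspace.finrank_add_finrank_dualAnnihilator_eq (Submodule.span ℚ {u0})
    rw [finrank_span_singleton hu0'] at h1
    omega
  obtain ⟨m, hm0, hm⟩ := scale h.conn (k := fun v p => g v (u (some p))) hg2 h.two_ends (by
    have h1 : ¬ LinearIndependent ℚ (fun v => (⟨(g v).domRestrict U, by
        rw [Submodule.mem_dualAnnihilator]
        intro x hx
        obtain ⟨t, rfl⟩ := Submodule.mem_span_singleton.mp hx
        rw [map_smul]
        have : (g v).domRestrict U u0 = 0 := hg1 v
        rw [this, smul_zero]⟩ : (Submodule.span ℚ {u0}).dualAnnihilator)) := fun h2 =>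
      absurd h2.fintype_card_le_finrank (by omega)
    obtain ⟨l, hl1, i, hi⟩ := Fintype.not_linearIndependent_iff.mp h1
    refine ⟨l, fun h3 => hi (congrFun h3 i), fun p => ?_⟩
    have h4 := congrArg (fun x : (Submodule.span ℚ {u0}).dualAnnihilator =>
      (x : Module.Dual ℚ U) ⟨u (some p), Submodule.subset_span ⟨some p, trivial, rfl⟩⟩) hl1
    simpa using h4)
  -- the corners
  have hcor : ∀ p q v f, v ∈ vtx p → v ∈ vtx q → f ∈ fac p → f ∈ fac q → p ≠ q →
      c f p * g v (u (some p)) = -(c f q * g v (u (some q))) := by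
    intro p q v f a1 a2 a3 a4 a5
    have h1 := congrArg (g v) (hc2 f)
    rw [map_sum, map_zero] at h1
    simp only [map_smul, smul_eq_mul] at h1
    rw [← Finset.sum_subset (Finset.subset_univ {p, q}), Finset.sum_pair a5] at h1
    · linarith
    · intro r _ hr
      simp only [Finset.mem_insert, Finset.mem_singleton, not_or] at hr
      obtain ⟨q', -, huniq⟩ := h.corner v f p a1 a3
      by_cases b1 : v ∈ vtx r
      · by_cases b2 : f ∈ fac r
        · exact absurd ((huniq r ⟨hr.1, b1, b2⟩).trans (huniq q ⟨a5.symm, a2, a4⟩).symm) hr.2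
        · have : c f r = 0 := by
            by_contra b3
            exact b2 ((hc1 f r).mp b3)
          rw [this, zero_mul]
      · have : g v (u (some r)) = 0 := by
          by_contra b3
          exact b1 ((hg2 v r).mp b3)
        rw [this, mul_zero]
  apply ho
  have flip : ∀ a b : ℚ, a ≠ 0 → a = -b → decide (0 < a) ≠ decide (0 < b) := by
    intro a b ha hab
    rcases lt_or_gt_of_ne ha with h1 | h1
    · have h2 : 0 < b := by linarith
      simp [h2, not_lt.mpr h1.le]
    · have h2 : ¬ 0 < b := by
        intro h3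
        linarith
      simp [h1, h2]
  refine ⟨fun v p f => decide (0 < l f * c f p * (m v * g v (u (some p)))), ?_, ?_, ?_⟩
  · intro p v v' f a1 a2 a3 a4
    apply flip
    · exact mul_ne_zero (mul_ne_zero (hl0 f) ((hc1 f p).mpr a4))
        (mul_ne_zero (hm0 v) ((hg2 v p).mpr a1))
    · rw [hm p v v' a1 a2 a3]
      ring
  · intro p v f f' a1 a2 a3 a4
    apply flip
    · exact mul_ne_zero (mul_ne_zero (hl0 f) ((hc1 f p).mpr a2))
        (mul_ne_zero (hm0 v) ((hg2 v p).mpr a1))
    · rw [hl p f f' a2 a3 a4]
      ring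
  · intro p q v f a1 a2 a3 a4 a5
    apply flip
    · exact mul_ne_zero (mul_ne_zero (hl0 f) ((hc1 f p).mpr a3))
        (mul_ne_zero (hm0 v) ((hg2 v p).mpr a1))
    · have := hcor p q v f a1 a2 a3 a4 a5
      linear_combination (l f * m v) * this

end Pool.Agent.H34.PM
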