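import Pool.Agent.H34.PM.CG
import Pool.Agent.H34.PM.NonQ

set_option autoImplicit false

/-! # [H34 PM CF] face boundaries: if `M` is not regular, they are minimal cycles -/

namespace Pool.Agent.H34.PM

open Finset

variable {V E Φ : Type}

private lemma cf_sum_inc {X : Type} [Fintype X] (e : E → Finset X) (p : E) (y : X → ZMod 2) :
    ∑ x, y x * inc e p x = ∑ x ∈ e p, y x := by
  classical
  simp only [inc, mul_ite, mul_one, mul_zero]
  rw [Finset.sum_ite_mem, Finset.univ_inter]

private lemma cf_zmod_eq : ∀ s t : ZMod 2, s + t = 0 → t = s := by decide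

private lemma cf_zmod_cases : ∀ s : ZMod 2, s = 0 ∨ s = 1 := by decide

private lemma cf_pair {X : Type} {s : Finset X} (h2 : s.card = 2) {a b : X} (ha : a ∈ s)
    (hb : b ∈ s) (hab : a ≠ b) [DecidableEq X] : s = {a, b} := by
  symm
  apply Finset.eq_of_subset_of_card_le
  · intro t ht
    rw [Finset.mem_insert, Finset.mem_singleton] at ht
    rcases ht with rfl | rfl
    · exact ha
    · exact hb
  · rw [h2, Finset.card_pair hab]

/-- A cut inside the star of `f` is 0 or the star. Edges avoiding `f` have `x a = x b`, so `x` is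
constant outside `f` (`Conn2`). -/
theorem bond [Fintype Φ] {fac : E → Finset Φ} (two : ∀ p, (fac p).card = 2) (h : Conn2 fac)
    (f : Φ) (c : E → ZMod 2) (hc : IsCut fac c) (hf : ∀ p, c p ≠ 0 → f ∈ fac p) :
    c = 0 ∨ c = fun p => inc fac p f := by
  classical
  obtain ⟨x, hx⟩ := hc
  by_cases hg : ∃ g0, g0 ≠ f
  · obtain ⟨g0, hg0⟩ := hg
    have hconst : ∀ b, b ≠ f → x b = x g0 := by
      intro b hb
      have hS := h f {g | g ≠ f ∧ x g = x g0} (fun hh => hh.1 rfl) ⟨g0, hg0, rfl⟩ ?_ b hb
      · exact hS.2
      · intro p hp a ha haS b' hb'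
        refine ⟨fun h1 => hp (h1 ▸ hb'), ?_⟩
        by_cases hab : a = b'
        · rw [← hab]; exact haS.2
        · have h1 : c p = 0 := by
            by_contra h2
            exact hp (hf p h2)
          rw [hx p, cf_sum_inc, cf_pair (two p) ha hb' hab, Finset.sum_pair hab] at h1
          rw [cf_zmod_eq _ _ h1]
          exact haS.2
    have hcp : ∀ p, c p = (x f + x g0) * inc fac p f := by
      intro p
      by_cases hfp : f ∈ fac p
      · have hi : inc fac p f = 1 := by simp [inc, hfp]
        obtain ⟨b, hb, hbf⟩ : ∃ b ∈ fac p, b ≠ f := by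
          have h3 : ((fac p).erase f).card = 1 := by
            rw [Finset.card_erase_of_mem hfp, two p]
          obtain ⟨b, hb⟩ := Finset.card_eq_one.mp h3
          have h4 : b ∈ (fac p).erase f := by rw [hb]; simp
          exact ⟨b, Finset.mem_of_mem_erase h4, Finset.ne_of_mem_erase h4⟩
        rw [hi, mul_one, hx p, cf_sum_inc, cf_pair (two p) hfp hb (Ne.symm hbf),
          Finset.sum_pair (Ne.symm hbf), hconst b hbf]
      · have hi : inc fac p f = 0 := by simp [inc, hfp]
        rw [hi, mul_zero]
        by_contra h2
        exact hfp (hf p h2)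
    rcases cf_zmod_cases (x f + x g0) with h0 | h1
    · left
      funext p
      rw [hcp p, h0, zero_mul, Pi.zero_apply]
    · right
      funext p
      rw [hcp p, h1, one_mul]
  · left
    funext p
    exfalso
    apply hg
    obtain ⟨a, b, hab, hs⟩ := Finset.card_eq_two.mp (two p)
    by_cases haf : a = f
    · exact ⟨b, fun h1 => hab (haf.trans h1.symm)⟩
    · exact ⟨a, haf⟩

open Classical in
/-- the graph in which `f` is split -/
private noncomputable def spl (fac : E → Finset Φ) (f : Φ) (d : E → ZMod 2) :
    Option E → Finset (Option Φ)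
  | none => {some f, none}
  | some p => if d p = 0 then (fac p).map Function.Embedding.some
      else insert none (((fac p).erase f).map Function.Embedding.some)

private lemma spl_two {fac : E → Finset Φ} (two : ∀ p, (fac p).card = 2) {f : Φ} {d : E → ZMod 2}
    (hf : ∀ p, d p ≠ 0 → f ∈ fac p) (o : Option E) : (spl fac f d o).card = 2 := by
  classical
  rcases o with _ | p
  · exact Finset.card_pair (by simp)
  · change (if d p = 0 then (fac p).map Function.Embedding.some
      else insert none (((fac p).erase f).map Function.Embedding.some)).card = 2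
    by_cases h : d p = 0
    · rw [if_pos h, Finset.card_map, two p]
    · rw [if_neg h, Finset.card_insert_of_notMem (by simp), Finset.card_map,
        Finset.card_erase_of_mem (hf p h), two p]

private lemma spl_sum {fac : E → Finset Φ} {f : Φ} {d : E → ZMod 2}
    (hf : ∀ p, d p ≠ 0 → f ∈ fac p) (y : Option Φ → ZMod 2) (p : E) :
    ∑ g ∈ spl fac f d (some p), y g =
      ∑ g ∈ fac p, y (some g) + d p * (y (some f) + y none) := by
  classical
  change ∑ g ∈ (if d p = 0 then (fac p).map Function.Embedding.some
      else insert none (((fac p).erase f).map Function.Embedding.some)), y g = _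
  by_cases h : d p = 0
  · rw [if_pos h, Finset.sum_map, h, zero_mul, add_zero]
    rfl
  · rw [if_neg h, Finset.sum_insert (by simp), Finset.sum_map,
      ← Finset.add_sum_erase _ _ (hf p h)]
    have h1 : d p = 1 := (cf_zmod_cases (d p)).resolve_left h
    rw [h1, one_mul]
    have key : ∀ a b c : ZMod 2, a + b = c + b + (c + a) := by decide
    exact key _ _ _

private lemma rel_ext [Fintype E] (vtx : E → Finset V) (w : E → ZMod 2) (c : Option E → ZMod 2) :
    ∑ o, c o • ext vtx w o = 0 ↔
      IsCyc vtx (fun p => c (some p)) ∧ c none + ∑ p, c (some p) * w p = 0 := by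
  rw [Fintype.sum_option, Prod.ext_iff]
  have h1 : (c none • ext vtx w none + ∑ p, c (some p) • ext vtx w (some p)).1 =
      fun v => ∑ p, c (some p) * inc vtx p v := by
    funext v
    simp [ext, Prod.fst_sum, Finset.sum_apply]
  have h2 : (c none • ext vtx w none + ∑ p, c (some p) • ext vtx w (some p)).2 =
      c none + ∑ p, c (some p) * w p := by
    simp [ext, Prod.snd_sum]
  rw [h1, h2]
  constructor
  · rintro ⟨h3, h4⟩
    exact ⟨fun v => congrFun h3 v, h4⟩
  · rintro ⟨h3, h4⟩
    exact ⟨funext fun v => h3 v, h4⟩

/-- If `d` is a cycle inside the boundary of `f`, not 0 and not everything, then `∑ d w = 1`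
(`bond`), and the relations of `ext vtx w` are the cuts of the graph with vertices `Option Φ` in
which `f` is split: edges with `d p = 1` get the end `none` in place of `some f`, and `e` joins
`some f` and `none`. So `big vtx w` is regular (`regular_of_cuts`). -/
theorem face_min [Fintype V] [Fintype E] [Fintype Φ] {vtx : E → Finset V} {fac : E → Finset Φ}
    {w : E → ZMod 2} (h : Pair vtx fac w) (hr : ¬ Regular (big vtx w)) (f : Φ) (d : E → ZMod 2)
    (hd : IsCyc vtx d) (hf : ∀ p, d p ≠ 0 → f ∈ fac p) : d = 0 ∨ d = fun p => inc fac p f := by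
  classical
  by_contra hcon
  have hdw : ∑ p, d p * w p = 1 := by
    rcases cf_zmod_cases (∑ p, d p * w p) with h0 | h1
    · exact absurd (bond h.two_f h.conn2_f f d ((h.rel d).mp ⟨hd, h0⟩) hf) hcon
    · exact h1
  apply hr
  apply regular_of_cuts (fac := spl fac f d) (spl_two h.two_f hf)
  intro c
  rw [rel_ext]
  have hcyc : ∀ (a b : E → ZMod 2) (t : ZMod 2), IsCyc vtx a → IsCyc vtx b →
      IsCyc vtx (fun p => a p + t * b p) := by
    intro a b t ha hb v
    have h1 : ∀ p, (a p + t * b p) * inc vtx p v = a p * inc vtx p v + t * (b p * inc vtx p v) :=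
      fun p => by ring
    simp only [h1]
    rw [Finset.sum_add_distrib, ← Finset.mul_sum, ha v, hb v, mul_zero, add_zero]
  have hsum : ∀ (a b : E → ZMod 2) (t : ZMod 2), ∑ p, (a p + t * b p) * w p =
      ∑ p, a p * w p + t * ∑ p, b p * w p := by
    intro a b t
    have h1 : ∀ p, (a p + t * b p) * w p = a p * w p + t * (b p * w p) := fun p => by ring
    simp only [h1]
    rw [Finset.sum_add_distrib, ← Finset.mul_sum]
  have hself : ∀ t : ZMod 2, t + t = 0 := by decide
  constructor
  · rintro ⟨h1, h2⟩
    have h3 : IsCut fac (fun p => c (some p) + c none * d p) := by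
      rw [← h.rel]
      refine ⟨hcyc _ _ _ h1 hd, ?_⟩
      rw [hsum, hdw, mul_one, add_comm]
      exact h2
    obtain ⟨x, hx⟩ := h3
    refine ⟨fun o => Option.elim o (x f + c none) x, ?_⟩
    intro o
    rw [cf_sum_inc]
    rcases o with _ | p
    · change _ = ∑ g ∈ ({some f, none} : Finset (Option Φ)), _
      rw [Finset.sum_pair (by simp)]
      change c none = x f + (x f + c none)
      rw [← add_assoc, hself, zero_add]
    · rw [spl_sum hf]
      change c (some p) = ∑ g ∈ fac p, x g + d p * (x f + (x f + c none))
      have h4 := hx p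
      rw [cf_sum_inc] at h4
      rw [← h4, ← add_assoc (x f), hself, zero_add, add_assoc, mul_comm (c none), hself, add_zero]
  · rintro ⟨x, hx⟩
    have hnone : c none = x (some f) + x none := by
      rw [hx none, cf_sum_inc]
      change ∑ g ∈ ({some f, none} : Finset (Option Φ)), _ = _
      rw [Finset.sum_pair (by simp)]
    have hsome : (fun p => c (some p)) = fun p =>
        (∑ g, x (some g) * inc fac p g) + c none * d p := by
      funext p
      rw [hx (some p), cf_sum_inc, cf_sum_inc, spl_sum hf, hnone, mul_comm (d p)]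
    have hcut : IsCut fac (fun p => ∑ g, x (some g) * inc fac p g) := ⟨fun g => x (some g), fun _ => rfl⟩
    rw [← h.rel] at hcut
    constructor
    · rw [hsome]
      exact hcyc _ _ _ hcut.1 hd
    · have h5 : ∑ p, c (some p) * w p = ∑ p, ((∑ g, x (some g) * inc fac p g) + c none * d p) * w p :=
        Finset.sum_congr rfl (fun p _ => by rw [← congrFun hsome p])
      rw [h5, hsum, hcut.2, hdw, mul_one, zero_add, hself]

end Pool.Agent.H34.PM
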