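import Pool.Agent.H34.PM.Def

set_option autoImplicit false

/-!
# [H34 PM Pair] Converse: pairs of graphs with the same edges (definitions and small lemmas)
-/

namespace Pool.Agent.H34.PM

open Finset

variable {V E Φ : Type}

/-- Removing any vertex leaves the graph connected. -/
def Conn2 (e : E → Finset V) : Prop :=
  ∀ (a : V) (S : Set V), a ∉ S → S.Nonempty →
    (∀ p, a ∉ e p → ∀ x ∈ e p, x ∈ S → ∀ y ∈ e p, y ∈ S) → ∀ b, b ≠ a → b ∈ S

/-- `c` is a cut (mod 2) of the graph: the edges between the vertices with `x = 0` and `x = 1`. -/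
def IsCut [Fintype Φ] (fac : E → Finset Φ) (c : E → ZMod 2) : Prop :=
  ∃ x : Φ → ZMod 2, ∀ p, c p = ∑ f, x f * inc fac p f

/-- Two 2-connected graphs with the same edges, and a signature `w` of the first one for which the
even cycles are the cuts of the second one. -/
structure Pair [Fintype V] [Fintype E] [Fintype Φ] (vtx : E → Finset V) (fac : E → Finset Φ)
    (w : E → ZMod 2) : Prop where
  two_v : ∀ p, (vtx p).card = 2
  two_f : ∀ p, (fac p).card = 2
  conn_v : Conn vtx
  conn_f : Conn fac
  conn2_v : Conn2 vtx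
  conn2_f : Conn2 fac
  rel : ∀ c : E → ZMod 2, (IsCyc vtx c ∧ ∑ p, c p * w p = 0) ↔ IsCut fac c
  odd : ∃ c, IsCyc vtx c ∧ ∑ p, c p * w p = 1

end Pool.Agent.H34.PM
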