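import Pool.Agent.H34.PM.CN
import Pool.Agent.H34.PM.Tri

set_option autoImplicit false

/-! # [H34 PM CN1] a graph without isolated vertices and connected cycle matroid is 2-connected -/

namespace Pool.Agent.H34.PM

variable {V E : Type}

private theorem three_ends {S : Finset V} (two : S.card = 2) {a b c : V} (ha : a ∈ S) (hb : b ∈ S)
    (hc : c ∈ S) : a = b ∨ a = c ∨ b = c := by
  classical
  by_contra hcon
  push Not at hcon
  have h1 : ({a, b, c} : Finset V).card ≤ S.card := by
    apply Finset.card_le_card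
    intro x hx
    simp only [Finset.mem_insert, Finset.mem_singleton] at hx
    rcases hx with rfl | rfl | rfl <;> assumption
  rw [Finset.card_eq_three.mpr ⟨a, b, c, hcon.1, hcon.2.1, hcon.2.2, rfl⟩] at h1
  omega

/-- two sets of edges living on sets of vertices with at most one common element -/
theorem rank_add_of_sep [Finite V] [Finite E] {vtx : E → Finset V} (two : ∀ p, (vtx p).card = 2)
    {T1 T2 : Set V} {a : V} (hT : ∀ x, x ∈ T1 → x ∈ T2 → x = a) {X Y : Set E} (hXY : Disjoint X Y)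
    (hX : ∀ p ∈ X, ∀ x ∈ vtx p, x ∈ T1) (hY : ∀ p ∈ Y, ∀ x ∈ vtx p, x ∈ T2) :
    (cyc vtx).eRk X + (cyc vtx).eRk Y ≤ (cyc vtx).eRank := by
  classical
  have := Fintype.ofFinite V
  have hspan : ∀ (Z : Set E) (T : Set V), (∀ p ∈ Z, ∀ x ∈ vtx p, x ∈ T) →
      ∀ z ∈ Submodule.span (ZMod 2) (inc vtx '' Z), (∀ x, x ∉ T → z x = 0) ∧ ∑ x, z x = 0 := by
    intro Z T hZ z hz
    induction hz using Submodule.span_induction with
    | mem z hz =>
      obtain ⟨p, hp, rfl⟩ := hz
      refine ⟨fun x hx => ?_, ?_⟩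
      · simp only [inc]
        rw [if_neg (fun h => hx (hZ p hp x h))]
      · simp only [inc]
        rw [Finset.sum_ite_mem, Finset.univ_inter, Finset.sum_const, two p]
        decide
    | zero => simp
    | add y z _ _ hy hz =>
      refine ⟨fun x hx => ?_, ?_⟩
      · rw [Pi.add_apply, hy.1 x hx, hz.1 x hx, add_zero]
      · simp only [Pi.add_apply, Finset.sum_add_distrib, hy.2, hz.2, add_zero]
    | smul c y _ hy =>
      refine ⟨fun x hx => ?_, ?_⟩
      · rw [Pi.smul_apply, hy.1 x hx, smul_zero]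
      · simp only [Pi.smul_apply, ← Finset.smul_sum, hy.2, smul_zero]
  obtain ⟨I, hI⟩ := (cyc vtx).exists_isBasis' X
  obtain ⟨J, hJ⟩ := (cyc vtx).exists_isBasis' Y
  rw [hI.eRk_eq_encard, hJ.eRk_eq_encard,
    ← Set.encard_union_eq (hXY.mono hI.subset hJ.subset)]
  apply Matroid.Indep.encard_le_eRank
  refine (lin_indep _ _ _).2 ?_
  refine ((lin_indep _ _ _).1 hI.indep).union ((lin_indep _ _ _).1 hJ.indep) ?_
  rw [Submodule.disjoint_def]
  intro z hz1 hz2
  obtain ⟨h1, h2⟩ := hspan X T1 hX z (Submodule.span_mono (Set.image_mono hI.subset) hz1)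
  obtain ⟨h3, -⟩ := hspan Y T2 hY z (Submodule.span_mono (Set.image_mono hJ.subset) hz2)
  have h4 : ∀ x, x ≠ a → z x = 0 := by
    intro x hx
    by_cases h5 : x ∈ T1
    · by_cases h6 : x ∈ T2
      · exact absurd (hT x h5 h6) hx
      · exact h3 x h6
    · exact h1 x h5
  funext x
  by_cases hx : x = a
  · rw [Finset.sum_eq_single a (fun y _ hy => h4 y hy) (fun h => absurd (Finset.mem_univ a) h)] at h2
    rw [hx]
    exact h2
  · exact h4 x hx

/-- `Conn2`: let `S` be closed in the graph without `a`, `X` = the edges meeting `S`, `Y` = the other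
ones (not empty: an edge at a vertex `b ∉ S`, `b ≠ a`). The vectors of `X` are supported in
`S ∪ {a}`, those of `Y` outside `S`, all have sum 0, so the spans meet in 0 and
`r(X) + r(Y) = r(X ∪ Y)`. `Conn`: the same without `a`. (`lin_closure`, `lin_indep`; union of
independent sets `I ⊆ X`, `J ⊆ Y` is independent.) -/
theorem conn_of_conn1 [Finite V] [Finite E] {vtx : E → Finset V} (two : ∀ p, (vtx p).card = 2)
    (hiso : NoIso vtx) (h : Conn1 (cyc vtx)) : Conn vtx ∧ Conn2 vtx := by
  constructor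
  · intro S hne hcl
    by_contra hS
    obtain ⟨s, hs⟩ := hne
    obtain ⟨b, hb⟩ := (Set.ne_univ_iff_exists_notMem S).mp hS
    obtain ⟨p, hp⟩ := hiso s
    obtain ⟨q, hq⟩ := hiso b
    refine h {p | ∃ x ∈ vtx p, x ∈ S} {p | ¬ ∃ x ∈ vtx p, x ∈ S} ?_ ?_ ⟨p, s, hp, hs⟩
      ⟨q, fun ⟨x, hx, hxS⟩ => hb (hcl q x hx hxS b hq)⟩ ?_
    · ext r
      simp only [Set.mem_union, Set.mem_ofPred_eq, cyc, lin_ground, Set.mem_univ, iff_true]
      exact em _
    · rw [Set.disjoint_left]
      intro r hr hr'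
      exact hr' hr
    · refine rank_add_of_sep two (T1 := S) (T2 := Sᶜ) (a := s) ?_ ?_ ?_ ?_
      · intro x hx hx'
        exact absurd hx hx'
      · rw [Set.disjoint_left]
        intro r hr hr'
        exact hr' hr
      · rintro r ⟨x, hx, hxS⟩ y hy
        exact hcl r x hx hxS y hy
      · intro r hr y hy hyS
        exact hr ⟨y, hy, hyS⟩
  · intro a S ha hne hcl b hba
    by_contra hb
    obtain ⟨s, hs⟩ := hne
    obtain ⟨p, hp⟩ := hiso s
    obtain ⟨q, hq⟩ := hiso b
    refine h {p | ∃ x ∈ vtx p, x ∈ S} {p | ¬ ∃ x ∈ vtx p, x ∈ S} ?_ ?_ ⟨p, s, hp, hs⟩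
      ⟨q, fun ⟨x, hx, hxS⟩ => ?_⟩ ?_
    · ext r
      simp only [Set.mem_union, Set.mem_ofPred_eq, cyc, lin_ground, Set.mem_univ, iff_true]
      exact em _
    · rw [Set.disjoint_left]
      intro r hr hr'
      exact hr' hr
    · by_cases haq : a ∈ vtx q
      · rcases three_ends (two q) haq hq hx with h3 | h3 | h3
        · exact hba h3.symm
        · exact ha (h3 ▸ hxS)
        · exact hb (h3 ▸ hxS)
      · exact hb (hcl q haq x hx hxS b hq)
    · refine rank_add_of_sep two (T1 := S ∪ {a}) (T2 := Sᶜ) (a := a) ?_ ?_ ?_ ?_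
      · rintro x (hx | hx) hx'
        · exact absurd hx hx'
        · exact hx
      · rw [Set.disjoint_left]
        intro r hr hr'
        exact hr' hr
      · rintro r ⟨x, hx, hxS⟩ y hy
        by_cases har : a ∈ vtx r
        · rcases three_ends (two r) har hx hy with h3 | h3 | h3
          · exact absurd (h3 ▸ hxS) ha
          · exact Or.inr h3.symm
          · exact Or.inl (h3 ▸ hxS)
        · exact Or.inl (hcl r har x hx hxS y hy)
      · intro r hr y hy hyS
        exact hr ⟨y, hy, hyS⟩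

end Pool.Agent.H34.PM
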