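import Pool.Agent.H34.PM.CN
import Pool.Agent.H34.PM.Tri

set_option autoImplicit false

/-! # [H34 PM CN2] 3-connected `M` with at least 4 elements: `M / e`, `M \ e` are connected -/

namespace Pool.Agent.H34.PM

open Matroid

/-- the ranks in a contraction -/
private theorem cn2_rank {α : Type} {M : Matroid α} {e : α} (hnl : M.IsNonloop e) :
    (∀ X : Set α, (M ／ {e}).eRk X + 1 ≤ M.eRk (insert e X)) ∧
    (∀ X : Set α, M.eRk (insert e X) ≤ (M ／ {e}).eRk X + 1) := by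
  refine ⟨fun X => ?_, fun X => ?_⟩
  · obtain ⟨I, hI⟩ := (M ／ {e}).exists_isBasis' X
    obtain ⟨h1, h2⟩ := hnl.contractElem_indep_iff.1 hI.indep
    rw [hI.eRk_eq_encard, ← Set.encard_insert_of_notMem h1]
    exact h2.encard_le_eRk_of_subset (Set.insert_subset_insert hI.subset)
  · obtain ⟨J, hJ, heJ⟩ := hnl.indep.subset_isBasis'_of_subset
      (Set.singleton_subset_iff.2 (Set.mem_insert e X))
    rw [Set.singleton_subset_iff] at heJ
    rw [hJ.eRk_eq_encard, ← Set.encard_sdiff_singleton_add_one heJ]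
    gcongr
    apply Indep.encard_le_eRk_of_subset
    · rw [hnl.contractElem_indep_iff]
      refine ⟨fun h => h.2 rfl, ?_⟩
      rw [Set.insert_sdiff_singleton, Set.insert_eq_of_mem heJ]
      exact hJ.indep
    · rintro x ⟨hx, hxe⟩
      rcases hJ.subset hx with h1 | h1
      · exact absurd h1 hxe
      · exact h1

private theorem cn2_fin {α : Type} [Finite α] (N : Matroid α) (X : Set α) : ∃ a : ℕ, N.eRk X = a := by
  obtain ⟨a, ha⟩ := ENat.ne_top_iff_exists.1 (ne_top_of_le_ne_top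
    (Set.encard_ne_top_iff.2 (Set.toFinite X)) (N.eRk_le_encard X))
  exact ⟨a, ha.symm⟩

/-- the common part: sets `X`, `Y` in `M.E \ {e}` -/
private theorem cn2_key {α : Type} [Finite α] {M : Matroid α} {e : α} (he : e ∈ M.E)
    (h : ThreeConnected M) (hc : 3 ≤ (M.E \ {e}).encard)
    (P : Set α → Set α → Prop)
    (hP : ∀ X Y, P X Y → P Y X ∧ X ∪ Y = M.E \ {e} ∧ Disjoint X Y ∧ X.Nonempty ∧
      M.eRk (insert e X) + M.eRk Y ≤ M.eRank + 1) (X Y : Set α) : ¬ P X Y := by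
  have key : ∀ X Y, P X Y → ¬ 2 ≤ Y.encard := by
    intro X Y hXY h2
    obtain ⟨-, h3, h4, h5, h6⟩ := hP X Y hXY
    have heX : e ∉ X := fun h7 => (h3 ▸ Set.mem_union_left Y h7 : e ∈ M.E \ {e}).2 rfl
    have heY : e ∉ Y := fun h7 => (h3 ▸ Set.mem_union_right X h7 : e ∈ M.E \ {e}).2 rfl
    refine h 2 (Or.inr rfl) (insert e X) Y ?_ ?_ ?_ h2 ?_
    · rw [Set.insert_union, h3, Set.insert_sdiff_singleton, Set.insert_eq_of_mem he]
    · rw [Set.disjoint_insert_left]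
      exact ⟨heY, h4⟩
    · rw [Set.encard_insert_of_notMem heX]
      have h8 : 1 ≤ X.encard := Set.one_le_encard_iff_nonempty.2 h5
      calc ((2 : ℕ) : ℕ∞) = 1 + 1 := by norm_num
        _ ≤ X.encard + 1 := by gcongr
    · obtain ⟨a, ha⟩ := cn2_fin M (insert e X)
      obtain ⟨b, hb⟩ := cn2_fin M Y
      obtain ⟨m, hm⟩ := cn2_fin M M.E
      rw [eRk_ground] at hm
      rw [ha, hb, hm] at h6 ⊢
      norm_cast at h6 ⊢
      omega
  intro hXY
  obtain ⟨hYX, h3, h4, -, -⟩ := hP X Y hXY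
  have k1 := key X Y hXY
  have k2 := key Y X hYX
  rw [← h3, Set.encard_union_eq h4] at hc
  obtain ⟨x, hx⟩ := ENat.ne_top_iff_exists.1 (Set.encard_ne_top_iff.2 (Set.toFinite X))
  obtain ⟨y, hy⟩ := ENat.ne_top_iff_exists.1 (Set.encard_ne_top_iff.2 (Set.toFinite Y))
  rw [← hx] at k2 hc
  rw [← hy] at k1 hc
  norm_cast at k1 k2 hc
  omega

/-- `r(X ∪ e) + r(Y ∪ e) = r(M) + 1` for a 1-separation `(X, Y)` of `M / e`; take `(X ∪ e, Y)` if
`|Y| ≥ 2`, else `(X, Y ∪ e)` with `|X| ≥ 2`. -/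
theorem conn1_contract {α : Type} [Finite α] {M : Matroid α} {e : α} (he : e ∈ M.E)
    (h : ThreeConnected M) (hc : 3 ≤ (M.E \ {e}).encard) : Conn1 (M ／ {e}) := by
  have hnl : M.IsNonloop e := by
    by_contra hl
    rw [not_isNonloop_iff] at hl
    refine h 1 (Or.inl rfl) {e} (M.E \ {e}) ?_ Set.disjoint_sdiff_right ?_ ?_ ?_
    · rw [Set.union_sdiff_self, Set.singleton_union, Set.insert_eq_of_mem he]
    · rw [Set.encard_singleton]; norm_num
    · refine le_trans ?_ hc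
      norm_num
    · rw [hl.eRk_eq]
      have h1 := M.eRk_le_eRank (M.E \ {e})
      rw [zero_add]
      push_cast
      gcongr
  obtain ⟨c1, c2⟩ := cn2_rank hnl
  intro X Y hXY hdis hX hY hle
  refine cn2_key he h hc (fun X Y => X ∪ Y = (M ／ {e}).E ∧ Disjoint X Y ∧ X.Nonempty ∧ Y.Nonempty ∧
    (M ／ {e}).eRk X + (M ／ {e}).eRk Y ≤ (M ／ {e}).eRank) ?_ X Y ⟨hXY, hdis, hX, hY, hle⟩
  rintro X Y ⟨h1, h2, h3, h4, h5⟩
  refine ⟨⟨by rw [Set.union_comm]; exact h1, h2.symm, h4, h3, by rwa [add_comm]⟩, h1, h2, h3, ?_⟩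
  have d1 := c2 X
  have d2 := (M.eRk_mono (Set.subset_insert e Y)).trans (c2 Y)
  have d3 := c1 (M ／ {e}).E
  rw [eRk_ground] at d3
  have d4 := d3.trans (M.eRk_le_eRank _)
  obtain ⟨a, ha⟩ := cn2_fin M (insert e X)
  obtain ⟨b, hb⟩ := cn2_fin M Y
  obtain ⟨m, hm⟩ := cn2_fin M M.E
  obtain ⟨a', ha'⟩ := cn2_fin (M ／ {e}) X
  obtain ⟨b', hb'⟩ := cn2_fin (M ／ {e}) Y
  obtain ⟨m', hm'⟩ := cn2_fin (M ／ {e}) (M ／ {e}).E
  rw [eRk_ground] at hm hm'
  rw [ha, ha'] at d1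
  rw [hb, hb'] at d2
  rw [hm, hm'] at d4
  rw [ha', hb', hm'] at h5
  rw [ha, hb, hm]
  norm_cast at d1 d2 d4 h5 ⊢
  omega

theorem conn1_delete {α : Type} [Finite α] {M : Matroid α} {e : α} (he : e ∈ M.E)
    (h : ThreeConnected M) (hc : 3 ≤ (M.E \ {e}).encard) : Conn1 (M ＼ {e}) := by
  intro X Y hXY hdis hX hY hle
  refine cn2_key he h hc (fun X Y => X ∪ Y = (M ＼ {e}).E ∧ Disjoint X Y ∧ X.Nonempty ∧ Y.Nonempty ∧
    (M ＼ {e}).eRk X + (M ＼ {e}).eRk Y ≤ (M ＼ {e}).eRank) ?_ X Y ⟨hXY, hdis, hX, hY, hle⟩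
  rintro X Y ⟨h1, h2, h3, h4, h5⟩
  refine ⟨⟨by rw [Set.union_comm]; exact h1, h2.symm, h4, h3, by rwa [add_comm]⟩, h1, h2, h3, ?_⟩
  have hE : (M ＼ {e}).E = M.E \ {e} := rfl
  have hXE : X ⊆ M.E \ {e} := by rw [← hE, ← h1]; exact Set.subset_union_left
  have hYE : Y ⊆ M.E \ {e} := by rw [← hE, ← h1]; exact Set.subset_union_right
  have e1 : (M ＼ {e}).eRk X = M.eRk X := by
    rw [delete_eq_restrict, restrict_eRk_eq _ hXE]
  have e2 : (M ＼ {e}).eRk Y = M.eRk Y := by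
    rw [delete_eq_restrict, restrict_eRk_eq _ hYE]
  have e3 : (M ＼ {e}).eRank ≤ M.eRank := by
    rw [delete_eq_restrict, eRank_restrict]
    exact M.eRk_le_eRank _
  rw [e1, e2] at h5
  have h6 := h5.trans e3
  have h7 := M.eRk_insert_le_add_one e X
  obtain ⟨a, ha⟩ := cn2_fin M (insert e X)
  obtain ⟨a', ha'⟩ := cn2_fin M X
  obtain ⟨b, hb⟩ := cn2_fin M Y
  obtain ⟨m, hm⟩ := cn2_fin M M.E
  rw [eRk_ground] at hm
  rw [ha', hb, hm] at h6
  rw [ha, ha'] at h7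
  rw [ha, hb, hm]
  norm_cast at h6 h7 ⊢
  omega

end Pool.Agent.H34.PM
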