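import Pool.Agent.H34.PM.CN

set_option autoImplicit false

/-! # [H34 PM CN3] connected: dual and relabelling -/

namespace Pool.Agent.H34.PM

open Matroid

/-- `r*(X) = |X| - r(M) + r(E \ X)`. -/
theorem conn1_dual {α : Type} [Finite α] {N : Matroid α} (h : Conn1 N) : Conn1 (N✶) := by
  intro X Y hXY hd hX hY hle
  have hXY' : X ∪ Y = N.E := hXY
  have hXE : X ⊆ N.E := hXY' ▸ Set.subset_union_left
  have hYE : Y ⊆ N.E := hXY' ▸ Set.subset_union_right
  have hEX : N.E \ X = Y := by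
    rw [← hXY', Set.union_sdiff_left]
    exact hd.symm.sdiff_eq_left
  have hEY : N.E \ Y = X := by
    rw [← hXY', Set.union_sdiff_right]
    exact hd.sdiff_eq_left
  have h1 := N.eRk_dual_add_eRank X hXE
  have h2 := N.eRk_dual_add_eRank Y hYE
  rw [hEX] at h1
  rw [hEY] at h2
  have h3 := N.eRank_add_eRank_dual
  have h4 : N.E.encard = X.encard + Y.encard := by
    rw [← hXY', Set.encard_union_eq hd]
  apply h X Y hXY' hd hX hY
  have fX : X.encard ≠ ⊤ := Set.encard_ne_top_iff.2 (Set.toFinite X)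
  have fY : Y.encard ≠ ⊤ := Set.encard_ne_top_iff.2 (Set.toFinite Y)
  have fE : N.E.encard ≠ ⊤ := Set.encard_ne_top_iff.2 (Set.toFinite _)
  have g1 : N.eRk X ≠ ⊤ := ne_top_of_le_ne_top fX (N.eRk_le_encard X)
  have g2 : N.eRk Y ≠ ⊤ := ne_top_of_le_ne_top fY (N.eRk_le_encard Y)
  have g3 : N.eRank ≠ ⊤ := ne_top_of_le_ne_top fE (h3 ▸ le_self_add)
  have g4 : N✶.eRk X ≠ ⊤ := ne_top_of_le_ne_top fX (N✶.eRk_le_encard X)
  have g5 : N✶.eRk Y ≠ ⊤ := ne_top_of_le_ne_top fY (N✶.eRk_le_encard Y)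
  have g6 : N✶.eRank ≠ ⊤ := ne_top_of_le_ne_top fE (h3 ▸ le_add_self)
  rw [h4] at h3
  lift X.encard to ℕ using fX with a
  lift Y.encard to ℕ using fY with b
  lift N.eRk X to ℕ using g1 with c
  lift N.eRk Y to ℕ using g2 with d
  lift N.eRank to ℕ using g3 with e
  lift N✶.eRk X to ℕ using g4 with f
  lift N✶.eRk Y to ℕ using g5 with g
  lift N✶.eRank to ℕ using g6 with k
  norm_cast at *
  omega

theorem conn1_of_map_some {E : Type} {N : Matroid E}
    (h : Conn1 (N.map some (Option.some_injective E).injOn)) : Conn1 N := by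
  intro X Y hXY hd hX hY hle
  have hXE : X ⊆ N.E := hXY ▸ Set.subset_union_left
  have hYE : Y ⊆ N.E := hXY ▸ Set.subset_union_right
  refine h (some '' X) (some '' Y) ?_ ?_ (hX.image _) (hY.image _) ?_
  · rw [← Set.image_union, hXY]
    rfl
  · exact (Set.disjoint_image_iff (Option.some_injective E)).2 hd
  · rw [eRk_map N _ hXE, eRk_map N _ hYE, eRank_map]
    exact hle

end Pool.Agent.H34.PM
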