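import Pool.Agent.H34.PM.CN

set_option autoImplicit false

/-! # [H34 PM CN4] no loops, no coloops -/

namespace Pool.Agent.H34.PM

theorem not_loop_of_three {α : Type} [Finite α] {M : Matroid α} {e : α} (he : e ∈ M.E)
    (h : ThreeConnected M) (hc : 3 ≤ (M.E \ {e}).encard) : ¬ M.IsLoop e ∧ ¬ M.IsColoop e := by
  have hk := h 1 (Or.inl rfl) {e} (M.E \ {e}) (by
    rw [Set.union_sdiff_cancel (Set.singleton_subset_iff.2 he)]) disjoint_sdiff_self_right
    (by rw [Set.encard_singleton]; norm_num) (by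
      refine le_trans ?_ hc
      norm_num)
  constructor
  · intro hl
    apply hk
    have h0 : M.eRk {e} = 0 := by
      rw [Matroid.eRk_eq_zero_iff']
      rintro x ⟨hx, -⟩
      rw [Set.mem_singleton_iff] at hx
      rw [hx]
      exact hl
    rw [h0, zero_add]
    exact add_le_add (M.eRk_le_eRank _) (by norm_num)
  · intro hl
    apply hk
    obtain ⟨I, hI⟩ := M.exists_isBasis (M.E \ {e}) Set.sdiff_subset
    have heI : e ∉ I := fun h1 => (hI.subset h1).2 rfl
    have h1 : e ∉ M.closure I := hl.notMem_closure_of_notMem heI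
    have h2 : M.Indep (insert e I) := ((hI.indep.notMem_closure_iff he).1 h1).1
    have h3 := h2.encard_le_eRank
    rw [Set.encard_insert_of_notMem heI, hI.encard_eq_eRk] at h3
    have h4 : M.eRk {e} ≤ 1 := (M.eRk_le_encard {e}).trans (by rw [Set.encard_singleton])
    calc M.eRk {e} + M.eRk (M.E \ {e}) + 1 ≤ 1 + M.eRk (M.E \ {e}) + 1 := by gcongr
      _ = M.eRk (M.E \ {e}) + 1 + 1 := by rw [add_comm 1 (M.eRk (M.E \ {e}))]
      _ ≤ M.eRank + ((1 : ℕ) : ℕ∞) := add_le_add h3 (by norm_num)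

end Pool.Agent.H34.PM
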