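import Pool.Agent.H34.PM.CT

set_option autoImplicit false

/-! # [H34 PM CT2] `big vtx w` is 3-connected if `M \ e` is -/

namespace Pool.Agent.H34.PM

open Finset Matroid

variable {V E Φ : Type}

/-- As `big_three` (Tri.lean), with `three_of_delete` in place of `three_of_contract`. -/
theorem big_three_delete [Fintype V] [Fintype E] {vtx : E → Finset V} {fac : E → Finset Φ}
    (h : IsMap vtx fac) {w : E → ZMod 2} (hw : Sig vtx fac w)
    (h3 : ThreeConnected ((big vtx w) ＼ {none})) : ThreeConnected (big vtx w) := by
  classical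
  have hsum : ∀ c : E → ZMod 2, IsCyc vtx c →
      ∑ p, c p • ext vtx w (some p) = ((0, ∑ p, c p * w p) : (V → ZMod 2) × ZMod 2) := by
    intro c hc
    refine Prod.ext ?_ ?_
    · rw [Prod.fst_sum]
      funext v
      rw [Finset.sum_apply]
      exact hc v
    · rw [Prod.snd_sum]
      rfl
  obtain ⟨c, hc, hc1⟩ := hw.cycle
  have hc2 := hsum c hc
  rw [hc1] at hc2
  -- one edge in the span of the others
  have hedge : ∀ q : E, ext vtx w (some q) ∈
      Submodule.span (ZMod 2) (ext vtx w '' (Set.univ \ {none, some q})) := by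
    intro q
    have hq2 := h.two_faces q
    obtain ⟨f, hf⟩ : (fac q).Nonempty := Finset.card_pos.1 (by omega)
    have h1 := hsum _ (h.face_isCyc f)
    rw [hw.face f, ← Finset.add_sum_erase _ _ (Finset.mem_univ q)] at h1
    have h2 : inc fac q f = 1 := by simp [inc, hf]
    rw [h2, one_smul] at h1
    have h4 : ext vtx w (some q) =
        -∑ x ∈ Finset.univ.erase q, inc fac x f • ext vtx w (some x) :=
      eq_neg_of_add_eq_zero_left h1
    rw [h4]
    refine Submodule.neg_mem _ (Submodule.sum_mem _ fun x hx => Submodule.smul_mem _ _ ?_)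
    refine Submodule.subset_span ⟨some x, ⟨Set.mem_univ _, ?_⟩, rfl⟩
    simpa using (Finset.mem_erase.1 hx).1
  have hall : ∀ p : Option E, ∀ x : Option E,
      ext vtx w x ∈ Submodule.span (ZMod 2) (ext vtx w '' (Set.univ \ {none, p})) := by
    intro p
    have h1 : ∀ x : E, ext vtx w (some x) ∈
        Submodule.span (ZMod 2) (ext vtx w '' (Set.univ \ {none, p})) := by
      intro x
      by_cases hx : p = some x
      · rw [hx]
        exact hedge x
      · refine Submodule.subset_span ⟨some x, ⟨Set.mem_univ _, ?_⟩, rfl⟩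
        simpa using fun h5 => hx h5.symm
    rintro (_ | x)
    · have h5 : ext vtx w none = ∑ p, c p • ext vtx w (some p) := hc2.symm
      rw [h5]
      exact Submodule.sum_mem _ fun x _ => Submodule.smul_mem _ _ (h1 x)
    · exact h1 x
  refine three_of_delete (e := none) (Set.mem_univ _) (fun p => ?_) (fun p _ hp => ?_) h3
  · refine Set.eq_univ_of_forall fun x => ?_
    exact (lin_closure (ZMod 2) (ext vtx w) _ x).2 (hall p x)
  · obtain ⟨q, rfl⟩ := Option.ne_none_iff_exists'.1 hp
    refine (lin_indep (ZMod 2) (ext vtx w) _).2 ?_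
    rw [Set.pair_comm, linearIndepOn_insert (by simp)]
    constructor
    · rw [linearIndepOn_singleton_iff]
      intro h6
      have h7 := congrArg Prod.snd h6
      exact one_ne_zero h7
    · rw [Set.image_singleton, Submodule.mem_span_singleton]
      rintro ⟨a, ha⟩
      have hq2 := h.two_ends q
      obtain ⟨v, hv⟩ : (vtx q).Nonempty := Finset.card_pos.1 (by omega)
      have h7 := congrFun (congrArg Prod.fst ha) v
      have h8 : inc vtx q v = 1 := by simp [inc, hv]
      have h9 : a • (0 : ZMod 2) = inc vtx q v := h7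
      rw [h8, smul_zero] at h9
      exact zero_ne_one h9

end Pool.Agent.H34.PM
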