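import Pool.Agent.H34.PM.Conv
import Pool.Agent.H34.PM.CN1
import Pool.Agent.H34.PM.CN2
import Pool.Agent.H34.PM.CN3
import Pool.Agent.H34.PM.CN4
import Pool.Agent.H34.PM.CT2

set_option autoImplicit false

/-!
# [H34 PM Fin] Existence and classification, final forms
-/

namespace Pool.Agent.H34.PM

open Finset Matroid

variable {V E Φ : Type}

theorem existence [Fintype V] [Fintype E] [Fintype Φ] [Nonempty E] (vtx : E → Finset V)
    (fac : E → Finset Φ) (h : IsMap vtx fac)
    (hE : Fintype.card V + Fintype.card Φ = Fintype.card E + 1) :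
    ∃ M : Matroid (Option E), M.E = Set.univ ∧ Rep (ZMod 2) M ∧ ¬ Rep ℚ M ∧
      M ／ {none} = (cyc vtx).map some (Option.some_injective E).injOn ∧
      M ＼ {none} = ((cyc fac)✶).map some (Option.some_injective E).injOn ∧
      Regular (M ／ {none}) ∧ Regular (M ＼ {none}) ∧
      (ThreeConnected (cyc vtx) ∨ ThreeConnected (cyc fac) → ThreeConnected M) := by
  have ho := not_orientable h hE
  obtain ⟨hV, hF⟩ := nonempty_of h ho
  obtain ⟨w, hw⟩ := exists_sig h hE
  refine ⟨big vtx w, rfl, ⟨_, _, _, ext vtx w, fun I _ => lin_indep _ _ I⟩,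
    big_not_rep h hE hw ho, big_contract vtx w, big_delete_eq h hE hw, ?_,
    big_delete_regular h hE hw, ?_⟩
  · rw [big_contract]
    exact regular_map_some (cyc_regular h.two_ends)
  · rintro (h3 | h3)
    · apply big_three h hw
      rw [big_contract]
      exact three_map_some h3
    · apply big_three_delete h hw
      rw [big_delete_eq h hE hw]
      exact three_map_some (three_dual h3)

theorem classification3 [Fintype V] [Fintype E] [Fintype Φ] (vtx : E → Finset V)
    (fac : E → Finset Φ) (two_v : ∀ p, (vtx p).card = 2) (two_f : ∀ p, (fac p).card = 2)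
    (iso_v : NoIso vtx) (iso_f : NoIso fac) (hcard : 3 ≤ Fintype.card E)
    (M : Matroid (Option E)) (hE : M.E = Set.univ) (hb : Rep (ZMod 2) M)
    (h3 : ThreeConnected M)
    (hc : M ／ {none} = (cyc vtx).map some (Option.some_injective E).injOn)
    (hd : M ＼ {none} = ((cyc fac)✶).map some (Option.some_injective E).injOn) :
    Fintype.card V + Fintype.card Φ = Fintype.card E + 1 ∧ (¬ Regular M ↔ IsMap vtx fac) := by
  have he : none ∈ M.E := by rw [hE]; trivial
  have hc3 : 3 ≤ (M.E \ {none}).encard := by
    have h1 : M.E \ {none} = Set.range (some : E → Option E) := by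
      rw [hE]
      ext x
      cases x <;> simp
    rw [h1, ← Set.image_univ, (Option.some_injective E).encard_image, Set.encard_univ,
      ENat.card_eq_coe_fintype_card]
    exact_mod_cast hcard
  obtain ⟨hl, hcl⟩ := not_loop_of_three he h3 hc3
  have h1 := conn1_contract he h3 hc3
  have h2 := conn1_delete he h3 hc3
  rw [hc] at h1
  rw [hd] at h2
  obtain ⟨c1, c2⟩ := conn_of_conn1 two_v iso_v (conn1_of_map_some h1)
  have h5 : Conn1 (cyc fac) := by
    have := conn1_dual (conn1_of_map_some h2)
    rwa [Matroid.dual_dual] at this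
  obtain ⟨c3, c4⟩ := conn_of_conn1 two_f iso_f h5
  have := classification vtx fac two_v two_f c1 c3 c2 c4 M hE hb hl hcl hc hd
  exact ⟨this.1, this.2.1⟩

end Pool.Agent.H34.PM
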