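import Pool.Agent.H34.PM.CU
import Pool.Agent.H34.PM.Tri

set_option autoImplicit false

/-! # [H34 PM CD] the relations of `M \ e` -/

namespace Pool.Agent.H34.PM

open Finset Matroid

variable {V E Φ : Type}

private theorem cd_indep {F W : Type} [Field F] [AddCommGroup W] [Module F W] [Fintype E]
    (u : E → W) (I : Set E) :
    LinearIndepOn F u I ↔ ∀ c : E → F, (∀ p, p ∉ I → c p = 0) →
      ∑ p, c p • u p = 0 → ∀ p, c p = 0 := by
  classical
  rw [linearIndepOn_iff']
  constructor
  · intro h c hc h0 p
    by_cases hp : p ∈ I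
    · exact h (univ.filter (· ∈ I)) c (fun x hx => by simpa using hx)
        (by
          rw [Finset.sum_filter]
          refine Eq.trans ?_ h0
          refine Finset.sum_congr rfl fun q _ => ?_
          by_cases hq : q ∈ I
          · simp [hq]
          · simp [hq, hc q hq]) p (by simpa using hp)
    · exact hc p hp
  · intro h s g hs hg o ho
    have := h (fun q => if q ∈ s then g q else 0)
      (fun q hq => if_neg fun h1 => hq (hs h1)) (by
        rw [← hg]
        have e1 : ∑ i ∈ s, g i • u i = ∑ i : E, if i ∈ s then g i • u i else 0 := by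
          rw [Finset.sum_ite_mem, Finset.univ_inter]
        rw [e1]
        refine Finset.sum_congr rfl fun q _ => ?_
        by_cases hq : q ∈ s
        · simp [hq]
        · simp [hq]) o
    simpa [ho] using this

/-- The cut map. -/
private noncomputable def cutMap [Fintype Φ] (fac : E → Finset Φ) :
    (Φ → ZMod 2) →ₗ[ZMod 2] (E → ZMod 2) where
  toFun x := fun p => ∑ f, x f * inc fac p f
  map_add' x y := by
    ext p
    simp only [Pi.add_apply, add_mul, Finset.sum_add_distrib]
  map_smul' r x := by
    ext p
    simp only [Pi.smul_apply, smul_eq_mul, RingHom.id_apply, Finset.mul_sum, mul_assoc]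

private theorem cd_dual [Fintype E] [Fintype Φ] (fac : E → Finset Φ) (I : Set E) :
    (cyc fac)✶.Indep I ↔ ∀ x : Φ → ZMod 2,
      (∀ p, p ∉ I → ∑ f, x f * inc fac p f = 0) → ∀ p, ∑ f, x f * inc fac p f = 0 := by
  classical
  have hgr : (cyc fac).E = Set.univ := rfl
  have r2 : (cyc fac)✶.Indep I ↔ ∀ p, inc fac p ∈
      Submodule.span (ZMod 2) (inc fac '' Iᶜ) := by
    rw [← Matroid.coindep_def, Matroid.coindep_iff_compl_spanning (by rw [hgr]; exact Set.subset_univ _),
      Matroid.spanning_iff_closure_eq (by rw [hgr]; exact Set.subset_univ _), hgr, Set.eq_univ_iff_forall,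
      ← Set.compl_eq_univ_sdiff]
    exact forall_congr' fun p => lin_closure (ZMod 2) (inc fac) _ p
  rw [r2]
  constructor
  · intro h1 x hx p
    have h2 : Submodule.span (ZMod 2) (inc fac '' Iᶜ) ≤
        LinearMap.ker (Fintype.linearCombination (ZMod 2) (M := ZMod 2) x) := by
      rw [Submodule.span_le]
      rintro _ ⟨q, hq, rfl⟩
      have h3 := hx q hq
      simp only [SetLike.mem_coe, LinearMap.mem_ker, Fintype.linearCombination_apply, smul_eq_mul]
      rw [← h3]
      exact Finset.sum_congr rfl fun f _ => mul_comm _ _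
    have h4 := h2 (h1 p)
    simp only [LinearMap.mem_ker, Fintype.linearCombination_apply, smul_eq_mul] at h4
    rw [← h4]
    exact Finset.sum_congr rfl fun f _ => mul_comm _ _
  · intro h1 p
    by_contra h2
    obtain ⟨F, hF, hker⟩ := Submodule.exists_le_ker_of_notMem h2
    have hrep : ∀ y : Φ → ZMod 2, F y = ∑ f, F (Pi.single f 1) * y f := by
      intro y
      rw [LinearMap.pi_apply_eq_sum_univ F y]
      refine Finset.sum_congr rfl fun f _ => ?_
      rw [smul_eq_mul, mul_comm]
      congr 2
      ext g
      by_cases hg : f = g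
      · subst hg; simp
      · simp [hg, Ne.symm hg]
    apply hF
    rw [hrep]
    refine h1 (fun f => F (Pi.single f 1)) (fun q hq => ?_) p
    rw [← hrep]
    exact hker (Submodule.subset_span ⟨q, hq, rfl⟩)

/-- The unit vectors modulo the cuts of the dual graph represent `(cyc fac)✶` (as in DelEq); by
`rel_unique` the relations are the same. -/
theorem rel_of_delete [Fintype V] [Fintype E] [Fintype Φ] {vtx : E → Finset V}
    {fac : E → Finset Φ} {w : E → ZMod 2}
    (hd : (big vtx w) ＼ {none} = ((cyc fac)✶).map some (Option.some_injective E).injOn)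
    (c : E → ZMod 2) : (IsCyc vtx c ∧ ∑ p, c p * w p = 0) ↔ IsCut fac c := by
  classical
  let v : E → (V → ZMod 2) × ZMod 2 := fun p => ext vtx w (some p)
  let u : E → (E → ZMod 2) ⧸ LinearMap.range (cutMap fac) :=
    fun p => Submodule.mkQ _ (Function.update (0 : E → ZMod 2) p 1)
  have hv : ∀ c : E → ZMod 2, ∑ p, c p • v p = 0 ↔ (IsCyc vtx c ∧ ∑ p, c p * w p = 0) := by
    intro c
    constructor
    · intro h0
      constructor
      · intro x
        have := congrFun (congrArg Prod.fst h0) x
        simpa only [v, Prod.fst_sum, Prod.smul_fst, ext, Finset.sum_apply, Pi.smul_apply, smul_eq_mul,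
            Prod.fst_zero, Pi.zero_apply] using this
      · have := congrArg Prod.snd h0
        simpa only [v, Prod.snd_sum, Prod.smul_snd, ext, smul_eq_mul, Prod.snd_zero] using this
    · rintro ⟨h1, h2⟩
      refine Prod.ext ?_ ?_
      · ext x
        simp only [v, Prod.fst_sum, Prod.smul_fst, ext, Finset.sum_apply, Pi.smul_apply, smul_eq_mul,
            Prod.fst_zero, Pi.zero_apply]
        exact h1 x
      · simp only [v, Prod.snd_sum, Prod.smul_snd, ext, smul_eq_mul, Prod.snd_zero]
        exact h2
  have hu : ∀ c : E → ZMod 2, ∑ p, c p • u p = 0 ↔ IsCut fac c := by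
    intro c
    have hs : ∑ p, c p • u p = Submodule.mkQ (LinearMap.range (cutMap fac)) c := by
      simp only [u, ← map_smul, ← map_sum]
      congr 1
      ext q
      simp only [Finset.sum_apply, Pi.smul_apply, smul_eq_mul]
      rw [Finset.sum_eq_single q]
      · simp
      · intro p _ hpq
        rw [Function.update_of_ne (Ne.symm hpq)]
        simp
      · intro hq
        exact absurd (Finset.mem_univ q) hq
    rw [hs, Submodule.mkQ_apply, Submodule.Quotient.mk_eq_zero]
    constructor
    · rintro ⟨x, rfl⟩
      exact ⟨x, fun p => rfl⟩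
    · rintro ⟨x, hx⟩
      exact ⟨x, (funext hx).symm⟩
  have hmain : ∀ I : Set E, LinearIndepOn (ZMod 2) v I ↔ LinearIndepOn (ZMod 2) u I := by
    intro I
    have h1 : LinearIndepOn (ZMod 2) v I ↔ ((big vtx w) ＼ {none}).Indep (some '' I) := by
      rw [Matroid.delete_indep_iff]
      have hdis : Disjoint (some '' I) ({none} : Set (Option E)) := by
        rw [Set.disjoint_singleton_right]
        simp
      have e1 : (big vtx w).Indep (some '' I) ↔ LinearIndepOn (ZMod 2) (ext vtx w) (some '' I) :=
        lin_indep _ _ _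
      rw [e1]
      constructor
      · intro h
        exact ⟨LinearIndepOn.image_of_comp some (ext vtx w) h, hdis⟩
      · rintro ⟨h, -⟩
        exact h.comp_of_image (Option.some_injective E).injOn
    have h2 : (((cyc fac)✶).map some (Option.some_injective E).injOn).Indep (some '' I) ↔
        (cyc fac)✶.Indep I := by
      rw [Matroid.map_indep_iff]
      constructor
      · rintro ⟨J, hJ, hIJ⟩
        rwa [(Option.some_injective E).image_injective hIJ]
      · intro hJ
        exact ⟨_, hJ, rfl⟩
    rw [h1, hd, h2, cd_dual, cd_indep u I]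
    constructor
    · intro h c hc h0
      obtain ⟨x, hx⟩ := (hu c).1 h0
      intro p
      rw [hx p]
      exact h x (fun q hq => by rw [← hx q]; exact hc q hq) p
    · intro h x hx p
      exact h (fun p => ∑ f, x f * inc fac p f) hx ((hu _).2 ⟨x, fun p => rfl⟩) p
  rw [← hv c, ← hu c]
  exact ⟨rel_unique v u hmain c, rel_unique u v (fun I => (hmain I).symm) c⟩

/-- `e` is not a coloop. -/
theorem odd_of_not_coloop [Fintype V] [Fintype E] {vtx : E → Finset V} {w : E → ZMod 2}
    (hd : ¬ (big vtx w).IsColoop none) : ∃ c, IsCyc vtx c ∧ ∑ p, c p * w p = 1 := by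
  classical
  have hgr : (big vtx w).E = Set.univ := rfl
  rw [Matroid.isColoop_iff_notMem_closure_compl (by rw [hgr]; exact Set.mem_univ _), not_not, hgr] at hd
  have h1 : ext vtx w none ∈ Submodule.span (ZMod 2) (ext vtx w '' (Set.univ \ {none})) :=
    (lin_closure (ZMod 2) (ext vtx w) _ none).1 hd
  have h2 : ext vtx w '' (Set.univ \ {none}) = Set.range fun p => ext vtx w (some p) := by
    ext y
    constructor
    · rintro ⟨o, ho, rfl⟩
      rcases o with _ | p
      · simp at ho
      · exact ⟨p, rfl⟩
    · rintro ⟨p, rfl⟩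
      exact ⟨some p, by simp, rfl⟩
  rw [h2, Submodule.mem_span_range_iff_exists_fun] at h1
  obtain ⟨c, hc⟩ := h1
  refine ⟨c, ?_, ?_⟩
  · intro x
    have := congrFun (congrArg Prod.fst hc) x
    simpa only [Prod.fst_sum, Prod.smul_fst, ext, Finset.sum_apply, Pi.smul_apply, smul_eq_mul,
        Pi.zero_apply] using this
  · have := congrArg Prod.snd hc
    simpa only [Prod.snd_sum, Prod.smul_snd, ext, smul_eq_mul] using this

end Pool.Agent.H34.PM
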