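import Pool.Agent.H34.PM.Pair
import Pool.Agent.H34.PM.Sig3

set_option autoImplicit false

/-! # [H34 PM CE] Euler's formula for a pair -/

namespace Pool.Agent.H34.PM

open Finset

variable {V E Φ : Type}

/-- Dimensions: cycles of the first graph `|E| - |V| + 1`, cuts of the second one `|Φ| - 1`, and the
cuts are the kernel of a nonzero functional on the cycles (`rel`, `odd`). -/
theorem pair_euler [Fintype V] [Fintype E] [Fintype Φ] [Nonempty V] [Nonempty Φ]
    {vtx : E → Finset V} {fac : E → Finset Φ} {w : E → ZMod 2} (h : Pair vtx fac w) :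
    Fintype.card V + Fintype.card Φ = Fintype.card E + 1 := by
  classical
  have d1 := rank_incM h.two_v h.conn_v
  have d2 : Module.finrank (ZMod 2) (LinearMap.range (incM fac).mulVecLin) + 1 = Fintype.card Φ :=
    rank_incM h.two_f h.conn_f
  rw [← Matrix.rank_transpose] at d1
  have h1 := LinearMap.finrank_range_add_finrank_ker ((incM vtx).transpose).mulVecLin
  have h3 : Module.finrank (ZMod 2) (LinearMap.range ((incM vtx).transpose).mulVecLin) =
      ((incM vtx).transpose).rank := rfl
  rw [h3, Module.finrank_fintype_fun_eq_card] at h1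
  let g : (E → ZMod 2) →ₗ[ZMod 2] ZMod 2 :=
    { toFun := fun y => ∑ p, y p * w p
      map_add' := fun y z => by simp [add_mul, Finset.sum_add_distrib]
      map_smul' := fun a y => by simp [Finset.mul_sum, mul_assoc] }
  let K := LinearMap.ker ((incM vtx).transpose).mulVecLin
  have hr : LinearMap.range (incM fac).mulVecLin = K ⊓ LinearMap.ker g := by
    ext c
    have h4 : c ∈ LinearMap.range (incM fac).mulVecLin ↔ IsCut fac c := by
      constructor
      · rintro ⟨x, rfl⟩
        refine ⟨x, fun p => ?_⟩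
        simp [incM, Matrix.mulVec, dotProduct, mul_comm]
      · rintro ⟨x, hx⟩
        refine ⟨x, ?_⟩
        ext p
        rw [hx]
        simp [incM, Matrix.mulVec, dotProduct, mul_comm]
    rw [h4, ← h.rel c]
    constructor
    · rintro ⟨ha, hb⟩
      exact ⟨(isCyc_iff vtx c).mp ha, hb⟩
    · rintro ⟨ha, hb⟩
      exact ⟨(isCyc_iff vtx c).mpr ha, hb⟩
  have h5 := LinearMap.finrank_range_add_finrank_ker (g.domRestrict K)
  have h6 : (LinearMap.ker (g.domRestrict K)).map K.subtype = K ⊓ LinearMap.ker g := by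
    ext c
    simp only [Submodule.mem_map, LinearMap.mem_ker, Submodule.mem_inf]
    constructor
    · rintro ⟨⟨y, hy⟩, h7, rfl⟩
      exact ⟨hy, h7⟩
    · rintro ⟨ha, hb⟩
      exact ⟨⟨c, ha⟩, hb, rfl⟩
  have h7 : LinearMap.range (g.domRestrict K) = ⊤ := by
    rw [LinearMap.range_eq_top]
    intro t
    obtain ⟨c, hc1, hc2⟩ := h.odd
    refine ⟨t • ⟨c, (isCyc_iff vtx c).mp hc1⟩, ?_⟩
    rw [map_smul]
    change t • (∑ p, c p * w p) = t
    rw [hc2, smul_eq_mul, mul_one]
  rw [h7, finrank_top, Module.finrank_self, ← Submodule.finrank_map_subtype_eq, h6, ← hr] at h5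
  change _ = Module.finrank (ZMod 2) (LinearMap.ker ((incM vtx).transpose).mulVecLin) at h5
  omega

end Pool.Agent.H34.PM
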