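import Pool.Agent.H34.PM.Pair

set_option autoImplicit false

/-! # [H34 PM CG] cographic matroids are regular (as in H31/PMD/Del, but general) -/

namespace Pool.Agent.H34.PM

open Finset

private theorem cg_indep {B F W : Type} [Field F] [AddCommGroup W] [Module F W] [Fintype B]
    (u : B → W) (I : Set B) :
    LinearIndepOn F u I ↔ ∀ c : B → F, (∀ p, p ∉ I → c p = 0) → ∑ p, c p • u p = 0 → ∀ p, c p = 0 := by
  classical
  rw [linearIndepOn_iff']
  constructor
  · intro h c hc h0 p
    by_cases hp : p ∈ I
    · exact h (univ.filter (· ∈ I)) c (fun x hx => by simpa using hx)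
        (by
          rw [Finset.sum_filter]
          refine Eq.trans ?_ h0
          refine Finset.sum_congr rfl fun q _ => ?_
          by_cases hq : q ∈ I
          · simp [hq]
          · simp [hq, hc q hq]) p (by simpa using hp)
    · exact hc p hp
  · intro h s g hs hg o ho
    have := h (fun q => if q ∈ s then g q else 0)
        (fun q hq => if_neg fun h1 => hq (hs h1)) (by
          rw [← hg]
          have e1 : ∑ i ∈ s, g i • u i = ∑ i : B, if i ∈ s then g i • u i else 0 := by
            rw [Finset.sum_ite_mem, Finset.univ_inter]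
          rw [e1]
          refine Finset.sum_congr rfl fun q _ => ?_
          by_cases hq : q ∈ s
          · simp [hq]
          · simp [hq]) o
    simpa [ho] using this

/-- `S` is not split by the edges outside `J`. -/
private def cgCond {A B : Type} (a b : B → A) (I : Set B) : Prop :=
  ∀ S : Set A, (∀ p, p ∉ I → (a p ∈ S ↔ b p ∈ S)) → ∀ p, (a p ∈ S ↔ b p ∈ S)

private theorem cg_cond {A B F : Type} [Field F] (a b : B → A) (I : Set B) :
    cgCond a b I ↔ ∀ x : A → F, (∀ p, p ∉ I → x (a p) - x (b p) = 0) → ∀ p, x (a p) - x (b p) = 0 := by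
  classical
  constructor
  · intro h x hx p
    have := (h {f | x f = x (a p)} (fun q hq => by
      have h1 := sub_eq_zero.1 (hx q hq)
      simp only [Set.mem_ofPred_eq, h1]) p).1 rfl
    rw [Set.mem_ofPred_eq] at this
    rw [this, sub_self]
  · intro h S hS p
    have := h (fun f => if f ∈ S then 1 else 0) (fun q hq => by
      have h1 := hS q hq
      by_cases h2 : a q ∈ S
      · simp [h2, h1.1 h2]
      · have h3 : b q ∉ S := fun h3 => h2 (h1.2 h3)
        simp [h2, h3]) p
    by_cases h2 : a p ∈ S
    · by_cases h3 : b p ∈ S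
      · simp [h2, h3]
      · simp [h2, h3] at this
    · by_cases h3 : b p ∈ S
      · simp [h2, h3] at this
      · simp [h2, h3]

/-- The potential differences. -/
private def cgPot {A B F : Type} [Field F] (a b : B → A) : (A → F) →ₗ[F] (B → F) where
  toFun x := fun p => x (a p) - x (b p)
  map_add' x y := by ext p; simp only [Pi.add_apply]; ring
  map_smul' r x := by ext p; simp only [Pi.smul_apply, smul_eq_mul, RingHom.id_apply]; ring

private theorem cg_quot {A B F : Type} [Field F] [Fintype B] [DecidableEq B] (a b : B → A) (I : Set B)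
    (u : B → (B → F) ⧸ LinearMap.range (cgPot (F := F) a b))
    (hu : ∀ p, u p = Submodule.mkQ _ (Function.update (0 : B → F) p 1)) :
    LinearIndepOn F u I ↔ cgCond a b I := by
  classical
  rw [cg_indep u I, cg_cond (F := F) a b I]
  have hs : ∀ c : B → F, ∑ p, c p • u p = Submodule.mkQ _ c := by
    intro c
    simp only [hu, ← map_smul, ← map_sum]
    congr 1
    ext q
    simp only [Finset.sum_apply, Pi.smul_apply, smul_eq_mul]
    rw [Finset.sum_eq_single q]
    · simp
    · intro p _ hpq
      rw [Function.update_of_ne (Ne.symm hpq)]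
      simp
    · intro hq
      exact absurd (Finset.mem_univ q) hq
  constructor
  · intro h x hx
    exact h (cgPot a b x) hx (by
      rw [hs, Submodule.mkQ_apply, Submodule.Quotient.mk_eq_zero]
      exact ⟨x, rfl⟩)
  · intro h c hc h0
    rw [hs, Submodule.mkQ_apply, Submodule.Quotient.mk_eq_zero] at h0
    obtain ⟨x, rfl⟩ := h0
    exact h x hc

private theorem cg_inc {A B : Type} [Fintype A] [DecidableEq A] {fac : B → Finset A} {a b : B → A}
    (hne : ∀ p, a p ≠ b p) (hab : ∀ p, fac p = {a p, b p}) (x : A → ZMod 2) (p : B) :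
    ∑ f, x f * inc fac p f = x (a p) - x (b p) := by
  classical
  have h1 : ∀ f, x f * inc fac p f = if f ∈ ({a p, b p} : Finset A) then x f else 0 := by
    intro f
    unfold inc
    rw [hab p]
    by_cases hf : f ∈ ({a p, b p} : Finset A)
    · simp [hf]
    · simp [hf]
  simp only [h1]
  rw [Finset.sum_ite_mem, Finset.univ_inter, Finset.sum_pair (hne p)]
  have : ∀ u v : ZMod 2, u + v = u - v := by decide
  exact this _ _

/-- As `big_delete_regular_of`: if the relations of `v` mod 2 are the cuts of a loopless graph, the
matroid is regular. -/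
theorem regular_of_cuts {A B W : Type} [Fintype A] [Fintype B] [AddCommGroup W]
    [Module (ZMod 2) W] {fac : B → Finset A} (two : ∀ p, (fac p).card = 2) {v : B → W}
    (h : ∀ c : B → ZMod 2, ∑ p, c p • v p = 0 ↔ IsCut fac c) : Regular (lin (ZMod 2) v) := by
  classical
  have h2 : ∀ p, ∃ a b, a ≠ b ∧ fac p = {a, b} := fun p => Finset.card_eq_two.1 (two p)
  choose a b hne hab using h2
  intro F _
  refine ⟨(B → F) ⧸ LinearMap.range (cgPot (F := F) a b), inferInstance, inferInstance,
    fun p => Submodule.mkQ _ (Function.update (0 : B → F) p 1), ?_⟩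
  intro I _
  rw [cg_quot a b I _ (fun p => rfl), lin_indep, cg_indep v I, cg_cond (F := ZMod 2) a b I]
  constructor
  · intro h1 x hx
    refine h1 (fun p => x (a p) - x (b p)) hx ((h _).mpr ?_)
    exact ⟨x, fun p => (cg_inc hne hab x p).symm⟩
  · intro h1 c hc h0
    obtain ⟨x, hx⟩ := (h c).mp h0
    have hx' : ∀ p, c p = x (a p) - x (b p) := fun p => (hx p).trans (cg_inc hne hab x p)
    intro p
    rw [hx' p]
    exact h1 x (fun q hq => by rw [← hx' q]; exact hc q hq) p

end Pool.Agent.H34.PM
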