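import Pool.Agent.H34.PM.Pair

set_option autoImplicit false

/-! # [H34 PM CM] minimal even sets are cycles -/

namespace Pool.Agent.H34.PM

open Finset

variable {V E Φ : Type}

private theorem cm_z (a : ZMod 2) (h : a ≠ 0) : a = 1 := by
  revert a
  decide

/-- the number of edges of `C` at `v` is even -/
private theorem cm_even [Fintype V] [Fintype E] {vtx : E → Finset V} [DecidableEq V]
    (c0 : E → ZMod 2) (hc0 : IsCyc vtx c0) (v : V) :
    Even ((univ.filter fun q => c0 q ≠ 0 ∧ v ∈ vtx q).card) := by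
  classical
  have h1 := hc0 v
  have h2 : ∀ p, c0 p * inc vtx p v = if c0 p ≠ 0 ∧ v ∈ vtx p then 1 else 0 := by
    intro p
    by_cases h3 : c0 p = 0
    · simp [h3]
    · have h4 := cm_z _ h3
      by_cases h5 : v ∈ vtx p
      · simp [h4, h5, inc]
      · simp [h4, h5, inc]
  simp only [h2] at h1
  rw [Finset.sum_boole] at h1
  exact (ZMod.natCast_eq_zero_iff_even).1 h1

private theorem cm_card [Fintype V] [Fintype E] {vtx : E → Finset V} [DecidableEq V] [DecidableEq E]
    (two : ∀ p, (vtx p).card = 2) (c0 : E → ZMod 2)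
    (hmin : ∀ c, IsCyc vtx c → (∀ p, c p ≠ 0 → c0 p ≠ 0) → c = 0 ∨ c = c0) (p0 : E) (hp0 : c0 p0 ≠ 0) :
    (univ.filter fun p => c0 p ≠ 0).card ≤ (univ.filter fun v => ∃ p, c0 p ≠ 0 ∧ v ∈ vtx p).card := by
  classical
  set C : Finset E := univ.filter fun p => c0 p ≠ 0 with hC
  set W : Finset V := univ.filter fun v => ∃ p, c0 p ≠ 0 ∧ v ∈ vtx p with hW
  set s : Finset E := C.erase p0 with hs
  have hp0C : p0 ∈ C := by
    rw [hC, Finset.mem_filter]
    exact ⟨Finset.mem_univ _, hp0⟩
  let u : E → (W → ZMod 2) := fun p w => inc vtx p w.1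
  let σ : (W → ZMod 2) →ₗ[ZMod 2] ZMod 2 := ∑ w : W, LinearMap.proj w
  have hσ : ∀ f, σ f = ∑ w : W, f w := by
    intro f
    simp only [σ, LinearMap.sum_apply, LinearMap.proj_apply]
  have hli : LinearIndepOn (ZMod 2) u (s : Set E) := by
    rw [linearIndepOn_finset_iff]
    intro g hg
    let c : E → ZMod 2 := fun p => if p ∈ s then g p else 0
    have hcyc : IsCyc vtx c := by
      intro v
      have e1 : ∑ p, c p * inc vtx p v = ∑ p ∈ s, g p * inc vtx p v := by
        simp only [c, ite_mul, zero_mul]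
        rw [Finset.sum_ite_mem, Finset.univ_inter]
      rw [e1]
      by_cases hv : v ∈ W
      · have h1 := congrFun hg ⟨v, hv⟩
        rw [Finset.sum_apply] at h1
        exact h1
      · apply Finset.sum_eq_zero
        intro p hp
        have h1 : v ∉ vtx p := by
          intro h2
          apply hv
          rw [hW, Finset.mem_filter]
          refine ⟨Finset.mem_univ _, p, ?_, h2⟩
          have h3 := Finset.mem_of_mem_erase hp
          rw [hC, Finset.mem_filter] at h3
          exact h3.2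
        simp [inc, h1]
    have hsub : ∀ p, c p ≠ 0 → c0 p ≠ 0 := by
      intro p hp
      by_cases hps : p ∈ s
      · have h3 := Finset.mem_of_mem_erase hps
        rw [hC, Finset.mem_filter] at h3
        exact h3.2
      · exact absurd (if_neg hps) hp
    rcases hmin c hcyc hsub with h1 | h1
    · intro p hp
      have h2 := congrFun h1 p
      simpa [c, hp] using h2
    · exfalso
      have h2 := congrFun h1 p0
      have h3 : p0 ∉ s := Finset.notMem_erase _ _
      apply hp0
      rw [← h2]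
      exact if_neg h3
  have hker : Submodule.span (ZMod 2) (Set.range fun i : (s : Set E) => u i) ≤ LinearMap.ker σ := by
    rw [Submodule.span_le]
    rintro _ ⟨⟨p, hp⟩, rfl⟩
    rw [SetLike.mem_coe, LinearMap.mem_ker, hσ]
    have hpC : c0 p ≠ 0 := by
      have h3 := Finset.mem_of_mem_erase (Finset.mem_coe.1 hp)
      rw [hC, Finset.mem_filter] at h3
      exact h3.2
    have hsubW : vtx p ⊆ W := by
      intro v hv
      rw [hW, Finset.mem_filter]
      exact ⟨Finset.mem_univ _, p, hpC, hv⟩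
    have e1 : ∑ w : W, u p w = ∑ v ∈ W, inc vtx p v := Finset.sum_coe_sort W (fun v => inc vtx p v)
    show ∑ w : W, u p w = 0
    rw [e1]
    have e3 : ∀ v, inc vtx p v = if v ∈ vtx p then 1 else 0 := by
      intro v
      by_cases h : v ∈ vtx p <;> simp [inc, h]
    simp only [e3]
    rw [Finset.sum_boole, Finset.filter_mem_eq_inter, Finset.inter_eq_right.2 hsubW, two p]
    rfl
  have e2 := finrank_span_eq_card (R := ZMod 2) (b := fun i : (s : Set E) => u i) hli
  have h4 := Submodule.finrank_mono hker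
  rw [e2] at h4
  have h5 : Fintype.card (s : Set E) = s.card := Fintype.card_coe s
  rw [h5, hs, Finset.card_erase_of_mem hp0C] at h4
  have h6 := LinearMap.finrank_range_add_finrank_ker σ
  rw [Module.finrank_fintype_fun_eq_card, Fintype.card_coe] at h6
  have h7 : 1 ≤ Module.finrank (ZMod 2) (LinearMap.range σ) := by
    obtain ⟨v, hv⟩ : (vtx p0).Nonempty := by
      rw [← Finset.card_pos, two p0]
      norm_num
    have hvW : v ∈ W := by
      rw [hW, Finset.mem_filter]
      exact ⟨Finset.mem_univ _, p0, hp0, hv⟩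
    rw [Nat.one_le_iff_ne_zero]
    intro h8
    rw [Submodule.finrank_eq_zero, LinearMap.range_eq_bot] at h8
    have h9 : σ (Pi.single ⟨v, hvW⟩ 1) = 0 := by
      rw [h8]
      rfl
    rw [hσ, Finset.sum_pi_single' ] at h9
    simp at h9
  have h8 : 1 ≤ C.card := Finset.card_pos.2 ⟨p0, hp0C⟩
  omega

/-- Let `C` be a nonempty even set of edges, minimal. (1) every vertex has degree 0 or 2 in `C`:
`C` without one edge is linearly independent in the vectors of sum 0 on the set `V(C)`, so
`|C| - 1 ≤ |V(C)| - 1`; and all degrees are even and positive on `V(C)`, so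
`2 |C| = sum of the degrees ≥ 2 |V(C)|`; so all degrees are 2. (2) connected. -/
theorem cycle_of_min [Fintype V] [Fintype E] {vtx : E → Finset V}
    (two : ∀ p, (vtx p).card = 2) (c0 : E → ZMod 2) (hc0 : IsCyc vtx c0)
    (hmin : ∀ c, IsCyc vtx c → (∀ p, c p ≠ 0 → c0 p ≠ 0) → c = 0 ∨ c = c0) :
    (∀ v p, v ∈ vtx p → c0 p ≠ 0 → ∃! q, q ≠ p ∧ v ∈ vtx q ∧ c0 q ≠ 0) ∧
    (∀ S : Set E, (∀ p ∈ S, c0 p ≠ 0) → S.Nonempty →
      (∀ p ∈ S, ∀ q, c0 q ≠ 0 → (∃ v, v ∈ vtx p ∧ v ∈ vtx q) → q ∈ S) →
      ∀ q, c0 q ≠ 0 → q ∈ S) := by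
  classical
  constructor
  · intro v p hv hp
    set C : Finset E := univ.filter fun p => c0 p ≠ 0 with hC
    set W : Finset V := univ.filter fun v => ∃ p, c0 p ≠ 0 ∧ v ∈ vtx p with hW
    have hCW : C.card ≤ W.card := cm_card two c0 hmin p hp
    let deg : V → ℕ := fun v => (univ.filter fun q => c0 q ≠ 0 ∧ v ∈ vtx q).card
    have hdeg : ∀ v, Even (deg v) := fun v => cm_even c0 hc0 v
    have hdegW : ∀ v ∈ W, 2 ≤ deg v := by
      intro v hv
      rw [hW, Finset.mem_filter] at hv
      obtain ⟨-, q, hq1, hq2⟩ := hv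
      have h1 : 0 < deg v := Finset.card_pos.2 ⟨q, by simp [hq1, hq2]⟩
      obtain ⟨k, hk⟩ := hdeg v
      omega
    have hsum : ∑ v, deg v = 2 * C.card := by
      have h1 : ∀ v, deg v = ∑ q : E, if c0 q ≠ 0 ∧ v ∈ vtx q then 1 else 0 := by
        intro v
        rw [Finset.sum_boole]
        rfl
      simp only [h1]
      rw [Finset.sum_comm]
      have h2 : ∀ q : E, (∑ v : V, if c0 q ≠ 0 ∧ v ∈ vtx q then 1 else 0) = if c0 q ≠ 0 then 2 else 0 := by
        intro q
        by_cases h3 : c0 q = 0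
        · simp [h3]
        · rw [if_pos h3, Finset.sum_boole]
          have h4 : (univ.filter fun v => c0 q ≠ 0 ∧ v ∈ vtx q) = vtx q := by
            ext v
            simp [h3]
          rw [h4, two q]
          rfl
      simp only [h2]
      rw [← Finset.sum_filter, Finset.sum_const, smul_eq_mul, mul_comm]
    have hsumW : ∑ v ∈ W, deg v ≤ 2 * C.card := by
      rw [← hsum]
      exact Finset.sum_le_sum_of_subset (Finset.subset_univ _)
    have hvW : v ∈ W := by
      rw [hW, Finset.mem_filter]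
      exact ⟨Finset.mem_univ _, p, hp, hv⟩
    have hd2 : deg v = 2 := by
      by_contra h1
      have h2 : 2 < deg v := lt_of_le_of_ne (hdegW v hvW) (Ne.symm h1)
      have h3 : ∑ v ∈ W, 2 < ∑ v ∈ W, deg v := Finset.sum_lt_sum (fun i hi => hdegW i hi) ⟨v, hvW, h2⟩
      rw [Finset.sum_const, smul_eq_mul] at h3
      omega
    obtain ⟨a, b, hab, hset⟩ := Finset.card_eq_two.1 hd2
    have hmem : ∀ q, (c0 q ≠ 0 ∧ v ∈ vtx q) ↔ (q = a ∨ q = b) := by
      intro q
      have h1 : q ∈ (univ.filter fun q => c0 q ≠ 0 ∧ v ∈ vtx q) ↔ q ∈ ({a, b} : Finset E) := by rw [hset]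
      simpa using h1
    have hpm := (hmem p).1 ⟨hp, hv⟩
    have ha := (hmem a).2 (Or.inl rfl)
    have hb := (hmem b).2 (Or.inr rfl)
    rcases hpm with rfl | rfl
    · refine ⟨b, ⟨hab.symm, hb.2, hb.1⟩, ?_⟩
      rintro q ⟨h1, h2, h3⟩
      exact ((hmem q).1 ⟨h3, h2⟩).resolve_left h1
    · refine ⟨a, ⟨hab, ha.2, ha.1⟩, ?_⟩
      rintro q ⟨h1, h2, h3⟩
      exact ((hmem q).1 ⟨h3, h2⟩).resolve_right h1
  · intro S hS hne hcl q hq
    let c : E → ZMod 2 := fun p => if p ∈ S then c0 p else 0
    have hcyc : IsCyc vtx c := by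
      intro v
      by_cases hv : ∃ p ∈ S, v ∈ vtx p
      · obtain ⟨p, hpS, hvp⟩ := hv
        rw [← hc0 v]
        refine Finset.sum_congr rfl fun r _ => ?_
        by_cases hr : r ∈ S
        · simp [c, hr]
        · by_cases h1 : c0 r = 0
          · simp [c, hr, h1]
          · have h2 : v ∉ vtx r := fun h2 => hr (hcl p hpS r h1 ⟨v, hvp, h2⟩)
            simp [inc, h2]
      · apply Finset.sum_eq_zero
        intro r _
        by_cases hr : r ∈ S
        · have h2 : v ∉ vtx r := fun h2 => hv ⟨r, hr, h2⟩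
          simp [inc, h2]
        · simp [c, hr]
    have hsub : ∀ p, c p ≠ 0 → c0 p ≠ 0 := by
      intro p hp
      by_cases hpS : p ∈ S
      · exact hS p hpS
      · exact absurd (if_neg hpS) hp
    obtain ⟨p, hpS⟩ := hne
    rcases hmin c hcyc hsub with h1 | h1
    · exfalso
      have h2 := congrFun h1 p
      apply hS p hpS
      simpa [c, hpS] using h2
    · by_contra hqS
      have h2 := congrFun h1 q
      apply hq
      rw [← h2]
      exact if_neg hqS

end Pool.Agent.H34.PM
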