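import Pool.Agent.H34.PM.Pair

set_option autoImplicit false

/-! # [H34 PM CN] Connected matroids, graphs without isolated vertices (definitions) -/

namespace Pool.Agent.H34.PM

/-- Every vertex is on an edge. -/
def NoIso {V E : Type} (e : E → Finset V) : Prop := ∀ x, ∃ p, x ∈ e p

/-- Connected: no 1-separation. -/
def Conn1 {α : Type} (N : Matroid α) : Prop :=
  ∀ X Y : Set α, X ∪ Y = N.E → Disjoint X Y → X.Nonempty → Y.Nonempty →
    ¬ (N.eRk X + N.eRk Y ≤ N.eRank)

end Pool.Agent.H34.PM
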