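import Pool.Agent.H34.PM.CU

set_option autoImplicit false

/-! # [H34 PM CR] a binary `M` with `M / e = cyc vtx` is `big vtx w` -/

namespace Pool.Agent.H34.PM

open Finset Matroid

variable {V E Φ : Type}

/-- Let `v` represent `M`, `v none ≠ 0`, `φ` a functional with `φ (v none) = 1`, `w p = φ (v (some p))`. The
classes of `v (some p)` modulo `v none` and `inc vtx p` represent the same matroid, so they have the same
relations (`rel_unique`); hence `v` and `ext vtx w` have the same relations. -/
theorem exists_big [Finite V] [Fintype E] {vtx : E → Finset V} {M : Matroid (Option E)}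
    (hE : M.E = Set.univ) (hb : Rep (ZMod 2) M) (hl : M.IsNonloop none)
    (hc : M ／ {none} = (cyc vtx).map some (Option.some_injective E).injOn) :
    ∃ w, M = big vtx w := by
  classical
  obtain ⟨W, i1, i2, v, hv'⟩ := hb
  have hv : ∀ I : Set (Option E), M.Indep I ↔ LinearIndepOn (ZMod 2) v I := fun I =>
    hv' I (by rw [hE]; exact Set.subset_univ _)
  have hv0 : v none ≠ 0 := by
    have h1 := (hv {none}).1 hl.indep
    rwa [linearIndepOn_singleton_iff] at h1
  obtain ⟨φ, hφ⟩ : ∃ φ : W →ₗ[ZMod 2] ZMod 2, φ (v none) = 1 := by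
    by_contra hcon
    push Not at hcon
    apply hv0
    rw [← Module.forall_dual_apply_eq_zero_iff (ZMod 2)]
    intro φ
    have h1 := hcon φ
    generalize φ (v none) = t at h1
    revert h1
    revert t
    decide
  -- the quotient
  let N : Submodule (ZMod 2) W := Submodule.span (ZMod 2) {v none}
  let u : E → W ⧸ N := fun p => N.mkQ (v (some p))
  have hA : ∀ I₀ : Set E, LinearIndepOn (ZMod 2) u I₀ ↔ LinearIndepOn (ZMod 2) (inc vtx) I₀ := by
    intro I₀
    have h1 : (M ／ {none}).Indep (some '' I₀) ↔ LinearIndepOn (ZMod 2) (inc vtx) I₀ := by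
      rw [hc, map_image_indep_iff (Set.subset_univ _), cyc, lin_indep]
    rw [← h1, hl.contractElem_indep_iff, hv]
    have hnone : (none : Option E) ∉ some '' I₀ := by simp
    have h2 : insert (none : Option E) (some '' I₀) = {none} ∪ some '' I₀ := rfl
    rw [h2, linearIndepOn_union_iff_quotient (Set.disjoint_singleton_left.mpr hnone),
      Set.image_singleton]
    constructor
    · intro h3
      refine ⟨hnone, ?_, ?_⟩
      · rwa [linearIndepOn_singleton_iff]
      · exact LinearIndepOn.image_of_comp some _ h3
    · rintro ⟨-, -, h3⟩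
      exact h3.comp_of_image (Option.some_injective E).injOn
  have hB : ∀ c : E → ZMod 2, ∑ p, c p • u p = 0 ↔ ∑ p, c p • inc vtx p = 0 := fun c =>
    ⟨rel_unique u (inc vtx) hA c, rel_unique (inc vtx) u (fun I => (hA I).symm) c⟩
  let w : E → ZMod 2 := fun p => φ (v (some p))
  have hsum : ∀ c : Option E → ZMod 2, ∑ i, c i • ext vtx w i =
      (∑ p, c (some p) • inc vtx p, c none + ∑ p, c (some p) * w p) := by
    intro c
    rw [Fintype.sum_option]
    refine Prod.ext ?_ ?_
    · rw [Prod.fst_add, Prod.fst_sum]
      simp [ext]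
    · rw [Prod.snd_add, Prod.snd_sum]
      simp [ext]
  have hC : ∀ c : Option E → ZMod 2, ∑ i, c i • v i = 0 ↔ ∑ i, c i • ext vtx w i = 0 := by
    intro c
    rw [hsum, Fintype.sum_option, Prod.mk_eq_zero]
    have hmk : N.mkQ (v none) = 0 := by
      rw [Submodule.mkQ_apply, Submodule.Quotient.mk_eq_zero]
      exact Submodule.mem_span_singleton_self _
    constructor
    · intro h
      refine ⟨(hB _).1 ?_, ?_⟩
      · have h1 := congrArg N.mkQ h
        rw [map_add, map_smul, hmk, smul_zero, zero_add, map_sum, map_zero] at h1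
        simpa only [map_smul] using h1
      · have h1 := congrArg φ h
        rw [map_add, map_smul, hφ, map_sum, map_zero] at h1
        simpa only [map_smul, smul_eq_mul, mul_one] using h1
    · rintro ⟨h1, h2⟩
      have h3 := (hB _).2 h1
      have h4 : ∑ p, c (some p) • v (some p) ∈ N := by
        rw [← Submodule.Quotient.mk_eq_zero, ← Submodule.mkQ_apply, map_sum]
        simpa only [map_smul] using h3
      obtain ⟨t, ht⟩ := Submodule.mem_span_singleton.1 h4
      have h5 : t = ∑ p, c (some p) * w p := by
        have h6 := congrArg φ ht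
        rw [map_smul, hφ, map_sum] at h6
        simpa only [map_smul, smul_eq_mul, mul_one] using h6
      rw [← ht, h5, ← add_smul, h2, zero_smul]
  refine ⟨w, ?_⟩
  refine ext_indep (by rw [hE]; rfl) fun I _ => ?_
  rw [hv, big, lin_indep, ← not_iff_not, exists_rel, exists_rel]
  refine exists_congr fun c => and_congr_right fun _ => and_congr_right fun _ => hC c

end Pool.Agent.H34.PM
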