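import Pool.Agent.H34.PM.Tri
import Pool.Agent.H36.TX.Dual

set_option autoImplicit false

/-! # [H34 PM CT] 3-connectedness: the dual, and from `M \ e` to `M` -/

namespace Pool.Agent.H34.PM

open Matroid

private theorem ct_rk {α : Type} [Finite α] (N : Matroid α) (X : Set α) : ∃ a : ℕ, N.eRk X = a := by
  obtain ⟨a, ha⟩ := ENat.ne_top_iff_exists.1
    (ne_top_of_le_ne_top (Set.encard_ne_top_iff.2 (Set.toFinite X)) (N.eRk_le_encard X))
  exact ⟨a, ha.symm⟩

private theorem ct_rank {α : Type} [Finite α] (N : Matroid α) : ∃ a : ℕ, N.eRank = a := by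
  obtain ⟨a, ha⟩ := ct_rk N N.E
  exact ⟨a, by rw [← ha, eRk_ground]⟩

/-- `r*(X) + r*(Y) - r*(M) = r(X) + r(Y) - r(M)` for a partition (cf. helper36's `three_dual`,
/team-store/H36_TX_Dual_done.lean; on main H36/TX). -/
theorem three_dual {α : Type} [Finite α] {M : Matroid α} (h : ThreeConnected M) :
    ThreeConnected (M✶) := by
  have h1 : Pool.Agent.H36.TX.ThreeConn M := by
    intro k hk X Y hXY hd hX hY
    have h2 := h k hk X Y hXY hd hX hY
    obtain ⟨a, ha⟩ := ct_rk M X
    obtain ⟨b, hb⟩ := ct_rk M Y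
    obtain ⟨m, hm⟩ := ct_rank M
    rw [ha, hb, hm] at h2 ⊢
    norm_cast at h2 ⊢
    omega
  have h3 := Pool.Agent.H36.TX.three_dual M h1
  intro k hk X Y hXY hd hX hY hle
  have h4 := h3 k hk X Y hXY hd hX hY
  obtain ⟨a, ha⟩ := ct_rk M✶ X
  obtain ⟨b, hb⟩ := ct_rk M✶ Y
  obtain ⟨m, hm⟩ := ct_rank M✶
  rw [ha, hb, hm] at hle h4
  norm_cast at hle h4
  omega

/-- `three_of_contract` for the dual. -/
theorem three_of_delete {α : Type} [Finite α] {M : Matroid α} {e : α} (he : e ∈ M.E)
    (hspan : ∀ p, M.closure (M.E \ {e, p}) = M.E)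
    (hpar : ∀ p ∈ M.E, p ≠ e → M.Indep {e, p})
    (h : ThreeConnected (M ＼ {e})) : ThreeConnected M := by
  have hfin : ∀ X : Set α, X.encard ≠ ⊤ := fun X => Set.encard_ne_top_iff.2 (Set.toFinite X)
  have hspan' : ∀ p, M.eRk (M.E \ {e, p}) = M.eRank := fun p => by
    rw [← eRk_closure_eq, hspan p, eRk_ground]
  have hdel : ∀ X : Set α, X ⊆ M.E \ {e} → (M ＼ {e}).eRk X = M.eRk X := fun X hX => by
    rw [Matroid.delete_eq_restrict, restrict_eRk_eq M hX]
  have hdelr : (M ＼ {e}).eRank = M.eRank := by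
    rw [Matroid.delete_eq_restrict, eRank_restrict]
    apply le_antisymm (M.eRk_le_eRank _)
    rw [← hspan' e]
    exact M.eRk_mono (by simp)
  have key : ∀ k : ℕ, (k = 1 ∨ k = 2) → ∀ X Y : Set α, X ∪ Y = M.E → Disjoint X Y → e ∈ X →
      (k : ℕ∞) ≤ X.encard → (k : ℕ∞) ≤ Y.encard → ¬ (M.eRk X + M.eRk Y + 1 ≤ M.eRank + k) := by
    intro k hk X Y hXY hdis heX hX hY hle
    have hY1 : Y.Nonempty := by
      rw [← Set.one_le_encard_iff_nonempty]
      refine le_trans ?_ hY
      rcases hk with rfl | rfl <;> norm_num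
    obtain ⟨p, hp⟩ := hY1
    have hpE : p ∈ M.E := hXY ▸ Or.inr hp
    have hpe : p ≠ e := fun h1 => Set.disjoint_left.1 hdis heX (h1 ▸ hp)
    have hnl : M.IsNonloop e := by
      have h1 := (hpar p hpE hpe).subset (Set.singleton_subset_iff.2 (Set.mem_insert e {p}))
      exact indep_singleton.1 h1
    have hXins : insert e (X \ {e}) = X := by
      rw [Set.insert_sdiff_singleton, Set.insert_eq_of_mem heX]
    have heY : e ∉ Y := Set.disjoint_left.1 hdis heX
    have hYsub : Y ⊆ M.E \ {e} := fun g hg => ⟨hXY ▸ Or.inr hg, fun h1 => heY (h1 ▸ hg)⟩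
    have hXsub : X \ {e} ⊆ M.E \ {e} := fun g hg => ⟨hXY ▸ Or.inl hg.1, hg.2⟩
    obtain ⟨a, ha⟩ := ct_rk M X
    obtain ⟨b, hb⟩ := ct_rk M Y
    obtain ⟨m, hm⟩ := ct_rank M
    by_cases hc : (k : ℕ∞) ≤ (X \ {e}).encard
    · refine h k hk (X \ {e}) Y ?_ (hdis.mono_left Set.sdiff_subset) hc hY ?_
      · rw [delete_ground, ← hXY, Set.union_sdiff_distrib]
        congr 1
        rw [Set.sdiff_singleton_eq_self heY]
      · rw [hdel _ hXsub, hdel _ hYsub, hdelr]
        refine le_trans ?_ hle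
        gcongr
        exact M.eRk_mono Set.sdiff_subset
    · have hXe : (X \ {e}).encard + 1 = X.encard := Set.encard_sdiff_singleton_add_one heX
      have hex : ∃ q, X = {e, q} ∧ M.eRk X = k := by
        rcases hk with rfl | rfl
        · have h0 : X \ {e} = ∅ := by
            rw [← Set.encard_eq_zero]
            obtain ⟨n, hn⟩ := ENat.ne_top_iff_exists.1 (hfin (X \ {e}))
            rw [← hn] at hc ⊢
            norm_cast at hc ⊢
            omega
          rw [h0] at hXins
          refine ⟨e, ?_, ?_⟩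
          · rw [← hXins]
            simp
          · rw [← hXins]
            simp [hnl.eRk_eq]
        · have h0 : (X \ {e}).encard = 1 := by
            obtain ⟨n, hn⟩ := ENat.ne_top_iff_exists.1 (hfin (X \ {e}))
            rw [← hXe] at hX
            rw [← hn] at hc hX ⊢
            norm_cast at hc hX ⊢
            omega
          obtain ⟨q, hq⟩ := Set.encard_eq_one.1 h0
          have hqX : q ∈ X \ {e} := by rw [hq]; rfl
          rw [hq] at hXins
          refine ⟨q, hXins.symm, ?_⟩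
          have hqE : q ∈ M.E := hXY ▸ Or.inl hqX.1
          rw [← hXins, (hpar q hqE hqX.2).eRk_eq_encard, Set.encard_pair (Ne.symm hqX.2)]
          rfl
      obtain ⟨q, hq, hqk⟩ := hex
      have hYeq : Y = M.E \ {e, q} := by
        rw [← hq, ← hXY, Set.union_sdiff_left, sdiff_eq_left.2 hdis.symm]
      have hYr : M.eRk Y = M.eRank := by
        rw [hYeq, hspan' q]
      rw [hqk, hYr, hm] at hle
      norm_cast at hle
      omega
  intro k hk X Y hXY hdis hX hY hle
  have he' : e ∈ X ∪ Y := hXY ▸ he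
  rcases he' with h1 | h1
  · exact key k hk X Y hXY hdis h1 hX hY hle
  · exact key k hk Y X (by rw [Set.union_comm]; exact hXY) hdis.symm h1 hY hX
      (by rwa [add_comm (M.eRk Y)])

end Pool.Agent.H34.PM
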