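import Pool.Agent.H34.PM.Def

set_option autoImplicit false

/-!
# [H34 PM Reg] Piece A (helper10): the cycle matroid is regular; contraction of `e`
-/

namespace Pool.Agent.H34.PM

open Finset Matroid

variable {V E Φ : Type}

/-- Joined by edges of `J`. -/
private def Jn (e : E → Finset V) (J : Set E) (x y : V) : Prop :=
  Relation.ReflTransGen (fun x y => ∃ q ∈ J, x ∈ e q ∧ y ∈ e q) x y

private theorem jn_symm {e : E → Finset V} {J : Set E} {x y : V} (h : Jn e J x y) : Jn e J y x := by
  induction h with
  | refl => exact Relation.ReflTransGen.refl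
  | tail _ h2 ih =>
    obtain ⟨q, hq, h3, h4⟩ := h2
    exact Relation.ReflTransGen.head ⟨q, hq, h4, h3⟩ ih

private theorem span_iff (F : Type) [Field F] [Finite V] [DecidableEq V] {vtx : E → Finset V}
    (a b : E → V) (hab : ∀ p, vtx p = {a p, b p}) (J : Set E) (p : E) :
    ((Pi.single (a p) 1 - Pi.single (b p) 1 : V → F) ∈
      Submodule.span F ((fun q => (Pi.single (a q) 1 - Pi.single (b q) 1 : V → F)) '' J)) ↔
      Jn vtx J (a p) (b p) := by
  classical
  have := Fintype.ofFinite V
  constructor
  · intro h
    by_contra hn
    let S : Finset V := Finset.univ.filter fun x => Jn vtx J (a p) x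
    let f : (V → F) →ₗ[F] F := ∑ x ∈ S, LinearMap.proj x
    have hf : ∀ x y : V, f (Pi.single x 1 - Pi.single y 1 : V → F) =
        (if x ∈ S then 1 else 0) - (if y ∈ S then 1 else 0) := by
      intro x y
      simp only [f, LinearMap.sum_apply, LinearMap.proj_apply, Pi.sub_apply, Finset.sum_sub_distrib,
        Pi.single_apply]
      simp
    have hker : Submodule.span F
        ((fun q => (Pi.single (a q) 1 - Pi.single (b q) 1 : V → F)) '' J) ≤ LinearMap.ker f := by
      rw [Submodule.span_le]
      rintro _ ⟨q, hq, rfl⟩
      show f _ = 0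
      rw [hf]
      have h1 : a q ∈ S ↔ b q ∈ S := by
        simp only [S, Finset.mem_filter, Finset.mem_univ, true_and]
        constructor
        · intro h2
          exact Relation.ReflTransGen.tail h2 ⟨q, hq, by rw [hab]; simp, by rw [hab]; simp⟩
        · intro h2
          exact Relation.ReflTransGen.tail h2 ⟨q, hq, by rw [hab]; simp, by rw [hab]; simp⟩
      by_cases h2 : a q ∈ S
      · rw [if_pos h2, if_pos (h1.1 h2), sub_self]
      · rw [if_neg h2, if_neg (fun h3 => h2 (h1.2 h3)), sub_self]
    have h1 : f (Pi.single (a p) 1 - Pi.single (b p) 1 : V → F) = 0 := hker h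
    rw [hf, if_pos, if_neg] at h1
    · simp at h1
    · simp only [S, Finset.mem_filter, Finset.mem_univ, true_and]
      exact hn
    · simp only [S, Finset.mem_filter, Finset.mem_univ, true_and]
      exact Relation.ReflTransGen.refl
  · intro h
    have key : ∀ y, Jn vtx J (a p) y → (Pi.single (a p) 1 - Pi.single y 1 : V → F) ∈
        Submodule.span F ((fun q => (Pi.single (a q) 1 - Pi.single (b q) 1 : V → F)) '' J) := by
      intro y hy
      induction hy with
      | refl => rw [sub_self]; exact zero_mem _
      | @tail y z _ h2 ih =>
        obtain ⟨q, hq, h3, h4⟩ := h2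
        have e1 : (Pi.single (a p) 1 - Pi.single z 1 : V → F) =
            (Pi.single (a p) 1 - Pi.single y 1) + (Pi.single y 1 - Pi.single z 1) := by abel
        rw [e1]
        refine add_mem ih ?_
        have hv : (Pi.single (a q) 1 - Pi.single (b q) 1 : V → F) ∈
            Submodule.span F ((fun q => (Pi.single (a q) 1 - Pi.single (b q) 1 : V → F)) '' J) :=
          Submodule.subset_span ⟨q, hq, rfl⟩
        rw [hab] at h3 h4
        rw [Finset.mem_insert, Finset.mem_singleton] at h3 h4
        rcases h3 with rfl | rfl <;> rcases h4 with rfl | rfl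
        · rw [sub_self]; exact zero_mem _
        · exact hv
        · rw [← neg_sub]; exact neg_mem hv
        · rw [sub_self]; exact zero_mem _
    exact key _ h

private theorem indep_iff_forest (F : Type) [Field F] [Finite V] [DecidableEq V]
    {vtx : E → Finset V} (a b : E → V) (hab : ∀ p, vtx p = {a p, b p}) (I : Set E) :
    LinearIndepOn F (fun q => (Pi.single (a q) 1 - Pi.single (b q) 1 : V → F)) I ↔
      ∀ p ∈ I, ¬ Jn vtx (I \ {p}) (a p) (b p) := by
  rw [linearIndepOn_iff_notMem_span]
  refine forall₂_congr fun p _ => ?_
  rw [span_iff F a b hab]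

private theorem inc_eq [DecidableEq V] {vtx : E → Finset V} (a b : E → V)
    (hab : ∀ p, vtx p = {a p, b p}) (hne : ∀ p, a p ≠ b p) :
    inc vtx = fun q => (Pi.single (a q) 1 - Pi.single (b q) 1 : V → ZMod 2) := by
  funext q x
  simp only [inc, hab, Finset.mem_insert, Finset.mem_singleton, Pi.sub_apply, Pi.single_apply]
  by_cases h1 : x = a q
  · have h2 : x ≠ b q := fun h => hne q (h1.symm.trans h)
    simp [h1, hne q]
  · by_cases h2 : x = b q
    · have h3 : b q ≠ a q := fun h => hne q h.symm
      simp [h2, h3]
    · simp [h1, h2]

/-- Hint: over `F` take `v p = δ_a - δ_b` for `vtx p = {a, b}` (orient with `two_ends`). For every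
field, `v p` is in the span of `v '' J` iff the two ends of `p` are joined by edges of `J`
(`linearIndepOn_iff_notMem_span` or similar; if they are not joined, the indicator functional of the
component of `a` kills `v '' J`, not `v p`). So independence does not depend on `F`; for
`F = ZMod 2`, `δ_a - δ_b = inc vtx p`. -/
theorem cyc_regular [Finite V] [Finite E] {vtx : E → Finset V}
    (h2 : ∀ p, (vtx p).card = 2) : Regular (cyc vtx) := by
  classical
  choose a b hne hab using fun p => Finset.card_eq_two.mp (h2 p)
  intro F _
  refine ⟨V → F, inferInstance, inferInstance,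
    fun q => (Pi.single (a q) 1 - Pi.single (b q) 1 : V → F), fun I _ => ?_⟩
  rw [indep_iff_forest F a b hab, cyc, lin_indep, inc_eq a b hab hne,
    indep_iff_forest (ZMod 2) a b hab]

/-- `e` is not a loop and contracting it gives the cycle matroid. -/
theorem big_contract [Finite E] (vtx : E → Finset V) (w : E → ZMod 2) :
    (big vtx w) ／ {none} = (cyc vtx).map some (Option.some_injective E).injOn := by
  classical
  have hnl : (big vtx w).IsNonloop none := by
    rw [← indep_singleton, big, lin_indep, linearIndepOn_singleton_iff]
    intro h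
    have h1 := congrArg Prod.snd h
    simp [ext] at h1
  refine ext_indep ?_ fun I hI => ?_
  · rw [contract_ground, map_ground]
    show (Set.univ : Set (Option E)) \ {none} = some '' (Set.univ : Set E)
    ext x
    cases x <;> simp
  · rw [hnl.contractElem_indep_iff, map_indep_iff]
    have hkey : ∀ I₀ : Set E, (big vtx w).Indep (insert none (some '' I₀)) ↔ (cyc vtx).Indep I₀ := by
      intro I₀
      have hnone : (none : Option E) ∉ some '' I₀ := by simp
      rw [big, cyc, lin_indep, lin_indep]
      constructor
      · intro h
        rw [linearIndepOn_iff] at h ⊢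
        intro l hl h0
        let l' : Option E →₀ ZMod 2 := Finsupp.mapDomain some l -
          Finsupp.single none (Finsupp.linearCombination (ZMod 2) w l)
        have hl' : l' ∈ Finsupp.supported (ZMod 2) (ZMod 2) (insert none (some '' I₀)) := by
          refine sub_mem ?_ (Finsupp.single_mem_supported _ _ (Set.mem_insert _ _))
          rw [Finsupp.mem_supported] at hl ⊢
          intro x hx
          have h3 := Finsupp.mapDomain_support hx
          rw [Finset.mem_image] at h3
          obtain ⟨y, hy, rfl⟩ := h3
          exact Set.mem_insert_of_mem _ ⟨y, hl hy, rfl⟩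
        have h4 : Finsupp.linearCombination (ZMod 2) (ext vtx w) l' = 0 := by
          have e1 : Finsupp.linearCombination (ZMod 2) (ext vtx w) l' =
              Finsupp.linearCombination (ZMod 2) (ext vtx w ∘ some) l -
                Finsupp.linearCombination (ZMod 2) w l • ext vtx w none := by
            rw [map_sub, Finsupp.linearCombination_mapDomain, Finsupp.linearCombination_single]
          rw [e1]
          refine Prod.ext ?_ ?_
          · have e2 := Finsupp.apply_linearCombination (ZMod 2)
              (LinearMap.fst (ZMod 2) (V → ZMod 2) (ZMod 2)) (ext vtx w ∘ some) l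
            have e3 : (LinearMap.fst (ZMod 2) (V → ZMod 2) (ZMod 2)) ∘ (ext vtx w ∘ some) =
                inc vtx := rfl
            rw [e3, h0] at e2
            rw [Prod.fst_sub]
            rw [LinearMap.fst_apply] at e2
            rw [e2]
            simp [ext]
          · have e2 := Finsupp.apply_linearCombination (ZMod 2)
              (LinearMap.snd (ZMod 2) (V → ZMod 2) (ZMod 2)) (ext vtx w ∘ some) l
            have e3 : (LinearMap.snd (ZMod 2) (V → ZMod 2) (ZMod 2)) ∘ (ext vtx w ∘ some) = w := rfl
            rw [e3, LinearMap.snd_apply] at e2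
            rw [Prod.snd_sub, e2]
            simp [ext]
        have h5 := h l' hl' h4
        ext y
        have h6 := DFunLike.congr_fun h5 (some y)
        simp only [l', Finsupp.coe_sub, Pi.sub_apply, Finsupp.coe_zero, Pi.zero_apply,
          Finsupp.mapDomain_apply (Option.some_injective E)] at h6
        rw [Finsupp.single_eq_of_ne (by simp), sub_zero] at h6
        exact h6
      · intro h
        rw [linearIndepOn_insert hnone]
        have h1 : LinearIndepOn (ZMod 2) (ext vtx w ∘ some) I₀ :=
          LinearIndepOn.of_comp (LinearMap.fst (ZMod 2) (V → ZMod 2) (ZMod 2)) h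
        refine ⟨h1.image_of_comp, fun h2 => ?_⟩
        rw [← Set.image_comp, Finsupp.mem_span_image_iff_linearCombination] at h2
        obtain ⟨l, hl, hl2⟩ := h2
        have e2 := Finsupp.apply_linearCombination (ZMod 2)
          (LinearMap.fst (ZMod 2) (V → ZMod 2) (ZMod 2)) (ext vtx w ∘ some) l
        have e3 : (LinearMap.fst (ZMod 2) (V → ZMod 2) (ZMod 2)) ∘ (ext vtx w ∘ some) =
            inc vtx := rfl
        rw [e3, hl2] at e2
        have h3 := (linearIndepOn_iff.1 h) l hl (by rw [← e2]; rfl)
        rw [h3, map_zero] at hl2
        have h4 := congrArg Prod.snd hl2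
        simp [ext] at h4
    constructor
    · rintro ⟨h1, h2⟩
      have h3 : I = some '' (some ⁻¹' I) := by
        ext x
        cases x with
        | none => simp [h1]
        | some y => simp
      refine ⟨some ⁻¹' I, ?_, h3⟩
      rw [h3] at h2
      exact (hkey _).1 h2
    · rintro ⟨I₀, h1, rfl⟩
      exact ⟨by simp, (hkey _).2 h1⟩

/-- A representation of `N` gives one of `N.map some`. -/
theorem regular_map_some {N : Matroid E} (h : Regular N) :
    Regular (N.map some (Option.some_injective E).injOn) := by
  intro F _
  obtain ⟨W, i1, i2, v, hv⟩ := h F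
  refine ⟨W, i1, i2, fun o => o.elim 0 v, fun I hI => ?_⟩
  rw [map_ground] at hI
  obtain ⟨I₀, hI₀, rfl⟩ := (Set.subset_image_iff).1 hI
  rw [map_image_indep_iff hI₀, hv I₀ hI₀]
  exact ⟨fun h1 => LinearIndepOn.image_of_comp some _ h1,
    fun h1 => h1.comp_of_image (Option.some_injective E).injOn⟩

end Pool.Agent.H34.PM
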