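import Pool.Agent.H34.PM.CF
import Pool.Agent.H34.PM.Reg
import Pool.Agent.H34.PM.Pair

set_option autoImplicit false

/-! # [H34 PM CV] vertex stars: if `M` is not regular, they are minimal cycles of the dual graph -/

namespace Pool.Agent.H34.PM

open Finset

variable {V E Φ : Type}

/-- Orthogonality: a vector orthogonal to all cuts of `fac` (a cycle of the dual graph) is
`∑ y v • star v + t • w`: the cuts are the common kernel of the stars and of `w` (`Pair.rel`), double
orthogonal complement in `E → ZMod 2`. -/
theorem cyc_fac_eq [Fintype V] [Fintype E] [Fintype Φ] {vtx : E → Finset V} {fac : E → Finset Φ}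
    {w : E → ZMod 2} (h : Pair vtx fac w) (d : E → ZMod 2) (hd : IsCyc fac d) :
    ∃ (y : V → ZMod 2) (t : ZMod 2), ∀ p, d p = ∑ v, y v * inc vtx p v + t * w p := by
  classical
  let L : (V → ZMod 2) × ZMod 2 →ₗ[ZMod 2] (E → ZMod 2) :=
    { toFun := fun z p => ∑ v, z.1 v * inc vtx p v + z.2 * w p
      map_add' := by
        intro a b
        funext p
        simp only [Prod.fst_add, Prod.snd_add, Pi.add_apply, add_mul, Finset.sum_add_distrib]
        ring
      map_smul' := by
        intro r a
        funext p
        simp only [Prod.smul_fst, Prod.smul_snd, Pi.smul_apply, smul_eq_mul, RingHom.id_apply,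
          mul_add, Finset.mul_sum, mul_assoc] }
  have hmem : d ∈ LinearMap.range L := by
    by_contra hcon
    obtain ⟨F, hF, hker⟩ := Submodule.exists_le_ker_of_notMem hcon
    have hrep : ∀ z : E → ZMod 2, F z = ∑ p, F (Pi.single p 1) * z p := by
      intro z
      rw [LinearMap.pi_apply_eq_sum_univ F z]
      refine Finset.sum_congr rfl fun f _ => ?_
      rw [smul_eq_mul, mul_comm]
      congr 2
      ext g
      by_cases hg : f = g
      · subst hg; simp
      · simp [hg, Ne.symm hg]
    have h0 : ∀ z, F (L z) = 0 := fun z => hker ⟨z, rfl⟩
    have hc1 : IsCyc vtx (fun p => F (Pi.single p 1)) := by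
      intro v
      have h1 := h0 (Pi.single v 1, 0)
      rw [hrep] at h1
      rw [← h1]
      refine Finset.sum_congr rfl fun p _ => ?_
      congr 1
      show inc vtx p v = ∑ u, (Pi.single v 1 : V → ZMod 2) u * inc vtx p u + 0 * w p
      rw [zero_mul, add_zero, Finset.sum_eq_single v]
      · simp
      · intro u _ hu
        rw [Pi.single_eq_of_ne hu, zero_mul]
      · intro hu
        exact absurd (Finset.mem_univ v) hu
    have hc2 : ∑ p, F (Pi.single p 1) * w p = 0 := by
      have h1 := h0 (0, 1)
      rw [hrep] at h1
      rw [← h1]
      refine Finset.sum_congr rfl fun p _ => ?_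
      congr 1
      show w p = ∑ u, (0 : V → ZMod 2) u * inc vtx p u + 1 * w p
      simp
    obtain ⟨x, hx⟩ := (h.rel _).1 ⟨hc1, hc2⟩
    apply hF
    rw [hrep]
    have h2 : ∀ p, F (Pi.single p 1) * d p = ∑ f, x f * (d p * inc fac p f) := by
      intro p
      have hxp : F (Pi.single p 1) = ∑ f, x f * inc fac p f := hx p
      rw [hxp, Finset.sum_mul]
      exact Finset.sum_congr rfl fun f _ => by ring
    simp only [h2]
    rw [Finset.sum_comm]
    refine Finset.sum_eq_zero fun f _ => ?_
    rw [← Finset.mul_sum, hd f, mul_zero]
  obtain ⟨⟨y, t⟩, hy⟩ := hmem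
  exact ⟨y, t, fun p => by rw [← hy]; rfl⟩

/-- an injective linear map does not change the matroid -/
private theorem lin_comp (F : Type) {α W W' : Type} [Field F] [Finite α] [AddCommGroup W] [Module F W]
    [AddCommGroup W'] [Module F W'] (v : α → W) (T : W →ₗ[F] W') (hT : Function.Injective T)
    (u : α → W') (hu : ∀ a, u a = T (v a)) : lin F v = lin F u := by
  refine Matroid.ext_indep rfl fun I _ => ?_
  rw [lin_indep, lin_indep]
  have h1 : (fun x : I => u x) = T ∘ (fun x : I => v x) := by
    funext x
    exact hu x
  show LinearIndependent F (fun x : I => v x) ↔ LinearIndependent F (fun x : I => u x)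
  rw [h1, T.linearIndependent_iff (LinearMap.ker_eq_bot.2 hT)]

/-- Switching. -/
theorem big_switch [Fintype V] [Fintype E] {vtx : E → Finset V} {w d : E → ZMod 2}
    (y : V → ZMod 2) (hd : ∀ p, d p = ∑ v, y v * inc vtx p v + w p) : big vtx w = big vtx d := by
  let T : (V → ZMod 2) × ZMod 2 →ₗ[ZMod 2] (V → ZMod 2) × ZMod 2 :=
    { toFun := fun z => (z.1, ∑ v, y v * z.1 v + z.2)
      map_add' := by
        intro a b
        refine Prod.ext rfl ?_
        simp only [Prod.fst_add, Prod.snd_add, Pi.add_apply, mul_add, Finset.sum_add_distrib]
        ring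
      map_smul' := by
        intro r a
        refine Prod.ext rfl ?_
        simp only [Prod.smul_fst, Prod.smul_snd, Pi.smul_apply, smul_eq_mul, RingHom.id_apply,
          mul_add, Finset.mul_sum]
        congr 1
        exact Finset.sum_congr rfl fun v _ => by ring }
  have hT : Function.Injective T := by
    intro a b hab
    have g1 : (T a).1 = (T b).1 := by rw [hab]
    have g2 : (T a).2 = (T b).2 := by rw [hab]
    have h1 : a.1 = b.1 := g1
    have h2 : ∑ v, y v * a.1 v + a.2 = ∑ v, y v * b.1 v + b.2 := g2
    rw [h1] at h2
    exact Prod.ext h1 (add_left_cancel h2)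
  refine lin_comp (ZMod 2) (ext vtx w) T hT (ext vtx d) fun o => ?_
  rcases o with _ | p
  · refine Prod.ext rfl ?_
    show (1 : ZMod 2) = ∑ v, y v * (0 : V → ZMod 2) v + 1
    simp
  · exact Prod.ext rfl (hd p)

/-- If `d ≠ 0` is a cycle of the dual graph inside the star of `v`, not everything, then `t = 1` in
`cyc_fac_eq` (`bond`), so `M = big vtx d` is the cycle matroid of the graph with vertices `Option V`
in which `v` is split (`none` the end of the edges with `d p = 1`, and `e` joins `some v`, `none`),
so regular (`cyc_regular`). -/
theorem star_min [Fintype V] [Fintype E] [Fintype Φ] {vtx : E → Finset V} {fac : E → Finset Φ}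
    {w : E → ZMod 2} (h : Pair vtx fac w) (hr : ¬ Regular (big vtx w)) (v : V) (d : E → ZMod 2)
    (hd : IsCyc fac d) (hv : ∀ p, d p ≠ 0 → v ∈ vtx p) : d = 0 ∨ d = fun p => inc vtx p v := by
  classical
  by_contra hcon
  obtain ⟨y, t, hy⟩ := cyc_fac_eq h d hd
  have ht2 : ∀ a : ZMod 2, a = 0 ∨ a = 1 := by decide
  have ht : t = 1 := by
    rcases ht2 t with ht | ht
    · exfalso
      apply hcon
      refine bond h.two_v h.conn2_v v d ⟨y, fun p => ?_⟩ hv
      rw [hy p, ht, zero_mul, add_zero]
    · exact ht
  have hy' : ∀ p, d p = ∑ v, y v * inc vtx p v + w p := fun p => by rw [hy p, ht, one_mul]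
  apply hr
  rw [big_switch y hy']
  -- the graph with `v` split
  let e : Option E → Finset (Option V) := fun o => o.elim {some v, none}
    (fun p => if d p = 0 then (vtx p).map Function.Embedding.some
      else insert none (((vtx p).erase v).map Function.Embedding.some))
  have he0 : e none = {some v, none} := rfl
  have he1 : ∀ p, d p = 0 → e (some p) = (vtx p).map Function.Embedding.some := fun p hp => if_pos hp
  have he2 : ∀ p, d p ≠ 0 → e (some p) = insert none (((vtx p).erase v).map Function.Embedding.some) :=
    fun p hp => if_neg hp
  have hcard : ∀ o, (e o).card = 2 := by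
    intro o
    rcases o with _ | p
    · rw [he0, Finset.card_pair (by simp)]
    · by_cases hp : d p = 0
      · rw [he1 p hp, Finset.card_map]
        exact h.two_v p
      · rw [he2 p hp, Finset.card_insert_of_notMem (by simp), Finset.card_map,
          Finset.card_erase_of_mem (hv p hp), h.two_v p]
  let T : (V → ZMod 2) × ZMod 2 →ₗ[ZMod 2] (Option V → ZMod 2) :=
    { toFun := fun z o => o.elim z.2 (fun u => z.1 u + if u = v then z.2 else 0)
      map_add' := by
        intro a b
        funext o
        rcases o with _ | u
        · rfl
        · show (a.1 u + b.1 u) + (if u = v then a.2 + b.2 else 0) =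
            (a.1 u + if u = v then a.2 else 0) + (b.1 u + if u = v then b.2 else 0)
          by_cases hu : u = v
          · simp only [if_pos hu]
            ring
          · simp only [if_neg hu]
            ring
      map_smul' := by
        intro r a
        funext o
        rcases o with _ | u
        · rfl
        · show r * a.1 u + (if u = v then r * a.2 else 0) = r * (a.1 u + if u = v then a.2 else 0)
          by_cases hu : u = v
          · simp only [if_pos hu]
            ring
          · simp only [if_neg hu]
            ring }
  have hT : Function.Injective T := by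
    intro a b hab
    have h1 : a.2 = b.2 := congrFun hab none
    refine Prod.ext ?_ h1
    funext u
    have h2 : (a.1 u + if u = v then a.2 else 0) = (b.1 u + if u = v then b.2 else 0) :=
      congrFun hab (some u)
    rw [h1] at h2
    exact add_right_cancel h2
  have hm : big vtx d = cyc e := by
    refine lin_comp (ZMod 2) (ext vtx d) T hT (inc e) fun o => ?_
    have h11 : (1 : ZMod 2) + 1 = 0 := by decide
    rcases o with _ | p
    · funext x
      rcases x with _ | u
      · show inc e none none = 1
        simp [inc, he0]
      · show inc e none (some u) = (0 : ZMod 2) + if u = v then 1 else 0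
        simp [inc, he0]
    · funext x
      by_cases hp : d p = 0
      · rcases x with _ | u
        · show inc e (some p) none = d p
          simp [inc, he1 p hp, hp]
        · show inc e (some p) (some u) = inc vtx p u + if u = v then d p else 0
          simp [inc, he1 p hp, hp]
      · have hp1 : d p = 1 := (ht2 (d p)).resolve_left hp
        rcases x with _ | u
        · show inc e (some p) none = d p
          simp [inc, he2 p hp, hp1]
        · show inc e (some p) (some u) = inc vtx p u + if u = v then d p else 0
          by_cases hu : u = v
          · subst hu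
            simp [inc, he2 p hp, hp1, hv p hp, h11]
          · simp [inc, he2 p hp, hu]
  rw [hm]
  exact cyc_regular hcard

end Pool.Agent.H34.PM
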