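import Pool.Agent.H34.PM.Dual
import Pool.Agent.H34.PM.Tri

set_option autoImplicit false

/-! # [H34 PM DelEq] `M \ e` is the bond matroid of the dual graph -/

namespace Pool.Agent.H34.PM

open Finset Matroid

variable {V E Φ : Type}

private theorem indepOn_option' {F W : Type} [Field F] [AddCommGroup W] [Module F W] [Fintype E]
    (u : Option E → W) (I : Set (Option E)) (hI : none ∉ I) :
    LinearIndepOn F u I ↔ ∀ c : E → F, (∀ p, some p ∉ I → c p = 0) →
      ∑ p, c p • u (some p) = 0 → ∀ p, c p = 0 := by
  classical
  rw [linearIndepOn_iff']
  constructor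
  · intro h c hc h0 p
    by_cases hp : some p ∈ I
    · have := h (univ.filter (· ∈ I)) (fun o => o.elim 0 c) (fun x hx => by simpa using hx)
        (by
          rw [Finset.sum_filter, Fintype.sum_option]
          simp only [hI, if_false, zero_add, Option.elim]
          refine Eq.trans ?_ h0
          refine Finset.sum_congr rfl fun q _ => ?_
          by_cases hq : some q ∈ I
          · simp [hq]
          · simp [hq, hc q hq]) (some p) (by simpa using hp)
      exact this
    · exact hc p hp
  · intro h s g hs hg o ho
    have hn : none ∉ s := fun h1 => hI (hs h1)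
    rcases o with _ | p
    · exact absurd ho hn
    · have := h (fun q => if some q ∈ s then g (some q) else 0)
        (fun q hq => if_neg fun h1 => hq (hs h1)) (by
          rw [← hg]
          have e1 : ∑ i ∈ s, g i • u i = ∑ i : Option E, if i ∈ s then g i • u i else 0 := by
            rw [Finset.sum_ite_mem, Finset.univ_inter]
          rw [e1, Fintype.sum_option]
          simp only [hn, if_false, zero_add]
          refine Finset.sum_congr rfl fun q _ => ?_
          by_cases hq : some q ∈ s
          · simp [hq]
          · simp [hq]) p
      simpa [ho] using this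

/-- Both sides: `I` is dependent iff there is `x : Φ → ZMod 2`, not constant, with `x a + x b = 0`
for both faces `a, b` of every `p ∉ I` (`cycle_eq_faces`; on the right: `E \ I` does not span
`cyc fac`). -/
theorem big_delete_eq [Fintype V] [Fintype E] [Fintype Φ] [Nonempty V] [Nonempty Φ]
    {vtx : E → Finset V} {fac : E → Finset Φ} (h : IsMap vtx fac)
    (hE : Fintype.card V + Fintype.card Φ = Fintype.card E + 1) {w : E → ZMod 2}
    (hw : Sig vtx fac w) :
    (big vtx w) ＼ {none} = ((cyc fac)✶).map some (Option.some_injective E).injOn := by
  classical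
  have hground : ((big vtx w) ＼ {none}).E = (((cyc fac)✶).map some (Option.some_injective E).injOn).E := by
    ext o
    rcases o with _ | p
    · simp
    · simp only [Matroid.delete_ground, Matroid.map_ground, Matroid.dual_ground]
      constructor
      · intro _
        exact ⟨p, Set.mem_univ _, rfl⟩
      · intro _
        exact ⟨Set.mem_univ _, by simp⟩
  refine Matroid.ext_indep hground fun I hI => ?_
  have hn : none ∉ I := by
    intro h1
    have := hI h1
    simp at this
  have hd : Disjoint I {none} := by
    rw [Set.disjoint_singleton_right]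
    exact hn
  have hIJ : I = some '' (some ⁻¹' I) := by
    ext o
    rcases o with _ | p
    · simp [hn]
    · simp
  have e1 : (big vtx w).Indep I ↔ LinearIndepOn (ZMod 2) (ext vtx w) I := lin_indep _ _ _
  have left : ((big vtx w) ＼ {none}).Indep I ↔ ∀ x : Φ → ZMod 2,
      (∀ p, some p ∉ I → ∑ f, x f * inc fac p f = 0) → ∀ p, ∑ f, x f * inc fac p f = 0 := by
    rw [Matroid.delete_indep_iff, e1, indepOn_option' (ext vtx w) I hn]
    constructor
    · rintro ⟨h1, -⟩ x hx
      refine h1 (fun p => ∑ f, x f * inc fac p f) hx ?_
      refine Prod.ext ?_ ?_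
      · ext v
        simp only [Prod.fst_sum, Prod.smul_fst, ext, Finset.sum_apply, Pi.smul_apply, smul_eq_mul,
          Prod.fst_zero, Pi.zero_apply, Finset.sum_mul]
        rw [Finset.sum_comm]
        refine Finset.sum_eq_zero fun f _ => ?_
        have h5 := h.face_isCyc f v
        calc ∑ p, x f * inc fac p f * inc vtx p v
            = x f * ∑ p, inc fac p f * inc vtx p v := by
              rw [Finset.mul_sum]
              exact Finset.sum_congr rfl fun p _ => by ring
          _ = 0 := by rw [h5, mul_zero]
      · simp only [Prod.snd_sum, Prod.smul_snd, ext, smul_eq_mul, Prod.snd_zero, Finset.sum_mul]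
        rw [Finset.sum_comm]
        refine Finset.sum_eq_zero fun f _ => ?_
        have h5 := hw.face f
        calc ∑ p, x f * inc fac p f * w p
            = x f * ∑ p, inc fac p f * w p := by
              rw [Finset.mul_sum]
              exact Finset.sum_congr rfl fun p _ => by ring
          _ = 0 := by rw [h5, mul_zero]
    · intro h1
      refine ⟨fun c hc h0 => ?_, hd⟩
      have hc1 : IsCyc vtx c := by
        intro v
        have := congrFun (congrArg Prod.fst h0) v
        simpa only [Prod.fst_sum, Prod.smul_fst, ext, Finset.sum_apply, Pi.smul_apply, smul_eq_mul,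
            Prod.fst_zero, Pi.zero_apply] using this
      have hc2 : ∑ p, c p * w p = 0 := by
        have := congrArg Prod.snd h0
        simpa only [Prod.snd_sum, Prod.smul_snd, ext, smul_eq_mul, Prod.snd_zero] using this
      obtain ⟨x, hx⟩ := cycle_eq_faces h hE hw c hc1 hc2
      intro p
      rw [hx p]
      exact h1 x (fun q hq => by rw [← hx q]; exact hc q hq) p
  have right : (((cyc fac)✶).map some (Option.some_injective E).injOn).Indep I ↔ ∀ x : Φ → ZMod 2,
      (∀ p, some p ∉ I → ∑ f, x f * inc fac p f = 0) → ∀ p, ∑ f, x f * inc fac p f = 0 := by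
    have r1 : (((cyc fac)✶).map some (Option.some_injective E).injOn).Indep I ↔
        (cyc fac)✶.Indep (some ⁻¹' I) := by
      rw [Matroid.map_indep_iff]
      constructor
      · rintro ⟨J, hJ, rfl⟩
        rwa [Set.preimage_image_eq _ (Option.some_injective E)]
      · intro hJ
        exact ⟨_, hJ, hIJ⟩
    have hgr : (cyc fac).E = Set.univ := rfl
    have r2 : (cyc fac)✶.Indep (some ⁻¹' I) ↔ ∀ p, inc fac p ∈
        Submodule.span (ZMod 2) (inc fac '' (some ⁻¹' I)ᶜ) := by
      rw [← Matroid.coindep_def, Matroid.coindep_iff_compl_spanning (by rw [hgr]; exact Set.subset_univ _),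
        Matroid.spanning_iff_closure_eq (by rw [hgr]; exact Set.subset_univ _), hgr, Set.eq_univ_iff_forall,
        ← Set.compl_eq_univ_sdiff]
      exact forall_congr' fun p => lin_closure (ZMod 2) (inc fac) _ p
    rw [r1, r2]
    constructor
    · intro h1 x hx p
      have h2 : Submodule.span (ZMod 2) (inc fac '' (some ⁻¹' I)ᶜ) ≤
          LinearMap.ker (Fintype.linearCombination (ZMod 2) (M := ZMod 2) x) := by
        rw [Submodule.span_le]
        rintro _ ⟨q, hq, rfl⟩
        have h3 := hx q hq
        simp only [SetLike.mem_coe, LinearMap.mem_ker, Fintype.linearCombination_apply, smul_eq_mul]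
        rw [← h3]
        exact Finset.sum_congr rfl fun f _ => mul_comm _ _
      have h4 := h2 (h1 p)
      simp only [LinearMap.mem_ker, Fintype.linearCombination_apply, smul_eq_mul] at h4
      rw [← h4]
      exact Finset.sum_congr rfl fun f _ => mul_comm _ _
    · intro h1 p
      by_contra h2
      obtain ⟨F, hF, hker⟩ := Submodule.exists_le_ker_of_notMem h2
      have hrep : ∀ y : Φ → ZMod 2, F y = ∑ f, F (Pi.single f 1) * y f := by
        intro y
        rw [LinearMap.pi_apply_eq_sum_univ F y]
        refine Finset.sum_congr rfl fun f _ => ?_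
        rw [smul_eq_mul, mul_comm]
        congr 2
        ext g
        by_cases hg : f = g
        · subst hg; simp
        · simp [hg, Pi.single_apply, Ne.symm hg]
      apply hF
      rw [hrep]
      refine h1 (fun f => F (Pi.single f 1)) (fun q hq => ?_) p
      rw [← hrep]
      exact hker (Submodule.subset_span ⟨q, hq, rfl⟩)
  rw [left, right]

end Pool.Agent.H34.PM
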