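import Pool.Agent.H34.PM.Sig3
import Pool.Agent.H31.PMD.Del

set_option autoImplicit false

/-!
# [H34 PM Dual] Piece B (helper91): dimensions, signature, the deletion of `e` is regular
-/

namespace Pool.Agent.H34.PM

open Finset Matroid

variable {V E Φ : Type}

/-- Hint: the map `c ↦ (v ↦ ∑ p, c p * inc vtx p v)` has its range in the vectors of sum 0, so
its kernel (the cycles) has dimension `≥ |E| - |V| + 1 = |Φ|`; the map
`x ↦ (p ↦ ∑ f, x f * inc fac p f)` has `x = 1` in its kernel, so its range has dimension
`≤ |Φ| - 1`. Take `w` orthogonal to the range, not to all cycles. -/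
theorem exists_sig [Fintype V] [Fintype E] [Fintype Φ] [Nonempty V] [Nonempty Φ]
    {vtx : E → Finset V} {fac : E → Finset Φ} (h : IsMap vtx fac)
    (hE : Fintype.card V + Fintype.card Φ = Fintype.card E + 1) :
    ∃ w, Sig vtx fac w := by
  exact exists_sig3 h hE

/-- Hint: connectivity gives both dimensions exactly (kernel of the second map = {0, 1}; rank of
the first = `|V| - 1`). -/
theorem cycle_eq_faces [Fintype V] [Fintype E] [Fintype Φ] [Nonempty V] [Nonempty Φ]
    {vtx : E → Finset V} {fac : E → Finset Φ} (h : IsMap vtx fac)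
    (hE : Fintype.card V + Fintype.card Φ = Fintype.card E + 1) {w : E → ZMod 2}
    (hw : Sig vtx fac w) (c : E → ZMod 2) (hc : IsCyc vtx c) (hcw : ∑ p, c p * w p = 0) :
    ∃ x : Φ → ZMod 2, ∀ p, c p = ∑ f, x f * inc fac p f := by
  exact cycle_eq_faces3 h hE hw c hc hcw

/-- Hint: over `F` take the classes of the unit vectors in `(E → F) ⧸ range (x ↦ (p ↦ x a - x b))`,
`fac p = {a, b}`. `I` is dependent iff there is a set `S` of faces, not empty, not everything, with
both faces of every `p ∉ I` on the same side (for every field); by `cycle_eq_faces` the same holds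
for `ext vtx w ∘ some`. -/
theorem big_delete_regular [Fintype V] [Fintype E] [Fintype Φ] [Nonempty V] [Nonempty Φ]
    {vtx : E → Finset V} {fac : E → Finset Φ} (h : IsMap vtx fac)
    (hE : Fintype.card V + Fintype.card Φ = Fintype.card E + 1) {w : E → ZMod 2}
    (hw : Sig vtx fac w) : Regular ((big vtx w) ＼ {none}) := by
  exact big_delete_regular_of h hw fun c hc hcw => cycle_eq_faces h hE hw c hc hcw

end Pool.Agent.H34.PM
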