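import Pool.Agent.H34.PM.NonQ
import Pool.Agent.H34.PM.Dual
import Pool.Agent.H34.PM.Reg
import Pool.Agent.H34.PM.Tri
import Pool.Agent.H34.PM.DelEq

set_option autoImplicit false

/-!
# [H34 PM Main] Matroids from graphs in the projective plane: the general theorem
-/

namespace Pool.Agent.H34.PM

open Finset Matroid

theorem three_map_some {E : Type} {N : Matroid E} (h : ThreeConnected N) :
    ThreeConnected (N.map some (Option.some_injective E).injOn) := by
  intro k hk X Y hXY hd hX hY
  have hinj := Option.some_injective E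
  have hXE : X ⊆ some '' N.E := by
    have : X ⊆ (N.map some hinj.injOn).E := hXY ▸ Set.subset_union_left
    simpa using this
  have hYE : Y ⊆ some '' N.E := by
    have : Y ⊆ (N.map some hinj.injOn).E := hXY ▸ Set.subset_union_right
    simpa using this
  obtain ⟨X', hX', rfl⟩ := Set.subset_image_iff.mp hXE
  obtain ⟨Y', hY', rfl⟩ := Set.subset_image_iff.mp hYE
  rw [hinj.encard_image] at hX hY
  rw [Matroid.eRk_map N hinj.injOn hX', Matroid.eRk_map N hinj.injOn hY', Matroid.eRank_map]
  refine h k hk X' Y' ?_ ?_ hX hY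
  · have h1 : some '' (X' ∪ Y') = some '' N.E := by
      rw [Set.image_union]
      simpa using hXY
    exact (Set.image_injective.mpr hinj) h1
  · exact (Set.disjoint_image_iff hinj).mp hd

variable {V E Φ : Type}

theorem nonempty_of [Fintype V] [Fintype E] [Fintype Φ] {vtx : E → Finset V} {fac : E → Finset Φ}
    (h : IsMap vtx fac) (ho : ¬ Orientable vtx fac) : Nonempty V ∧ Nonempty Φ := by
  have hE : Nonempty E := by
    by_contra hne
    rw [not_nonempty_iff] at hne
    exact ho ⟨fun _ _ _ => true, fun p => (hne.false p).elim, fun p => (hne.false p).elim,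
      fun p => (hne.false p).elim⟩
  obtain ⟨p⟩ := hE
  constructor
  · obtain ⟨x, hx⟩ := Finset.card_pos.mp (by rw [h.two_ends p]; norm_num)
    exact ⟨x⟩
  · obtain ⟨x, hx⟩ := Finset.card_pos.mp (by rw [h.two_faces p]; norm_num)
    exact ⟨x⟩

theorem main [Fintype V] [Fintype E] [Fintype Φ] (vtx : E → Finset V) (fac : E → Finset Φ)
    (h : IsMap vtx fac) (hE : Fintype.card V + Fintype.card Φ = Fintype.card E + 1)
    (ho : ¬ Orientable vtx fac) (h3 : ThreeConnected (cyc vtx)) :
    ∃ M : Matroid (Option E), M.E = Set.univ ∧ ThreeConnected M ∧ Rep (ZMod 2) M ∧ ¬ Rep ℚ M ∧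
      M ／ {none} = (cyc vtx).map some (Option.some_injective E).injOn ∧
      M ＼ {none} = ((cyc fac)✶).map some (Option.some_injective E).injOn ∧
      Regular (M ／ {none}) ∧ Regular (M ＼ {none}) := by
  obtain ⟨hV, hF⟩ := nonempty_of h ho
  obtain ⟨w, hw⟩ := exists_sig h hE
  refine ⟨big vtx w, rfl, big_three h hw ?_, ⟨_, _, _, ext vtx w, fun I _ => lin_indep _ _ I⟩,
    big_not_rep h hE hw ho, big_contract vtx w, big_delete_eq h hE hw, ?_,
    big_delete_regular h hE hw⟩
  · rw [big_contract]
    exact three_map_some h3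
  · rw [big_contract]
    exact regular_map_some (cyc_regular h.two_ends)

end Pool.Agent.H34.PM
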