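import Pool.Agent.H34.PM.Def

set_option autoImplicit false

/-! # [H34 PM Par] an orientable map has even Euler characteristic -/

namespace Pool.Agent.H34.PM

open Finset

variable {V E Φ : Type}

private theorem sign_count {X K : Type} [Fintype X] [DecidableEq X] [Fintype K] (σ : Equiv.Perm X) (κ : X → K)
    (hs : Function.Surjective κ) (hκ : ∀ x, κ (σ x) = κ x) (ht : ∀ x y, κ x = κ y → σ.SameCycle x y)
    (hfix : ∀ x, σ x ≠ x) :
    Equiv.Perm.sign σ = (-1 : ℤˣ) ^ (Fintype.card X + Fintype.card K) := by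
  classical
  have hsupp : σ.support = Finset.univ := by
    ext x
    simp [hfix x]
  have hn : ∀ (n : ℕ) x, κ ((σ ^ n) x) = κ x := by
    intro n
    induction n with
    | zero => intro x; simp
    | succ n ih => intro x; rw [pow_succ, Equiv.Perm.mul_apply, ih, hκ]
  have hκz : ∀ x y, σ.SameCycle x y → κ x = κ y := by
    intro x y hxy
    obtain ⟨n, hn'⟩ := hxy.exists_nat_pow_eq
    rw [← hn', hn]
  choose r hr using hs
  have hcard : σ.cycleFactorsFinset.card = Fintype.card K := by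
    rw [← Finset.card_univ]
    symm
    refine Finset.card_bij (fun k _ => σ.cycleOf (r k)) ?_ ?_ ?_
    · intro k _
      rw [Equiv.Perm.cycleOf_mem_cycleFactorsFinset_iff, hsupp]
      exact Finset.mem_univ _
    · intro k _ l _ hkl
      have h1 : r l ∈ (σ.cycleOf (r k)).support := by
        rw [hkl, Equiv.Perm.mem_support_cycleOf_iff, hsupp]
        exact ⟨Equiv.Perm.SameCycle.refl _ _, Finset.mem_univ _⟩
      rw [Equiv.Perm.mem_support_cycleOf_iff] at h1
      have h2 := hκz _ _ h1.1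
      rwa [hr, hr] at h2
    · intro c hc
      obtain ⟨a, ha⟩ := (Equiv.Perm.mem_cycleFactorsFinset_iff.mp hc).1.nonempty_support
      refine ⟨κ a, Finset.mem_univ _, ?_⟩
      rw [Equiv.Perm.cycle_is_cycleOf ha hc]
      exact (ht _ _ (hr (κ a))).cycleOf_eq
  rw [Equiv.Perm.sign_of_cycleType, Equiv.Perm.sum_cycleType, hsupp, Finset.card_univ, Equiv.Perm.cycleType_def,
    Multiset.card_map, ← hcard]
  rfl

private theorem inv_of_rel {Y : Type} (R : Y → Y → Prop) (h : ∀ y, ∃! z, R y z) (hsymm : ∀ y z, R y z → R z y) :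
    ∃ σ : Equiv.Perm Y, (∀ y, R y (σ y)) ∧ (∀ y z, R y z → z = σ y) ∧ ∀ y, σ (σ y) = y := by
  choose f hf hu using h
  have hinv : Function.Involutive f := by
    intro y
    exact (hu (f y) y (hsymm _ _ (hf y))).symm
  exact ⟨hinv.toPerm f, hf, hu, hinv⟩

private theorem other {α : Type} {s : Finset α} (h : s.card = 2) {a : α} (ha : a ∈ s) :
    ∃ b ∈ s, b ≠ a ∧ ∀ c ∈ s, c ≠ a → c = b := by
  classical
  obtain ⟨x, y, hxy, rfl⟩ := Finset.card_eq_two.mp h
  rw [Finset.mem_insert, Finset.mem_singleton] at ha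
  rcases ha with rfl | rfl
  · refine ⟨y, by simp, hxy.symm, ?_⟩
    intro c hc hca
    rw [Finset.mem_insert, Finset.mem_singleton] at hc
    exact hc.resolve_left hca
  · refine ⟨x, by simp, hxy, ?_⟩
    intro c hc hca
    rw [Finset.mem_insert, Finset.mem_singleton] at hc
    exact hc.resolve_right hca

/-- Positive flags `(v, p, f)` (`s = true`): `2 |E|` of them. With `A`, `B`, `C` = change of vertex,
face, edge: `A ∘ B`, `B ∘ C`, `C ∘ A` are permutations of the positive flags with product 1, and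
cycles = edges, vertices, faces; so `(2E - E) + (2E - V) + (2E - F)` is even. -/
theorem euler_even [Fintype V] [Fintype E] [Fintype Φ] {vtx : E → Finset V} {fac : E → Finset Φ}
    (h : IsMap vtx fac) (hV : 2 ≤ Fintype.card V) (ho : Orientable vtx fac) :
    Even (Fintype.card V + Fintype.card Φ + Fintype.card E) := by
  classical
  obtain ⟨s, hs1, hs2, hs3⟩ := ho
  let Y : Type := {t : V × E × Φ // t.1 ∈ vtx t.2.1 ∧ t.2.2 ∈ fac t.2.1}
  let mk : ∀ (v : V) (p : E) (f : Φ), v ∈ vtx p → f ∈ fac p → Y := fun v p f h1 h2 => ⟨(v, p, f), h1, h2⟩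
  let vv : Y → V := fun y => y.1.1
  let ee : Y → E := fun y => y.1.2.1
  let ff : Y → Φ := fun y => y.1.2.2
  let ss : Y → Bool := fun y => s (vv y) (ee y) (ff y)
  have mv : ∀ y : Y, vv y ∈ vtx (ee y) := fun y => y.2.1
  have mf : ∀ y : Y, ff y ∈ fac (ee y) := fun y => y.2.2
  have ext3 : ∀ y z : Y, vv y = vv z → ee y = ee z → ff y = ff z → y = z := by
    intro y z h1 h2 h3
    exact Subtype.ext (Prod.ext h1 (Prod.ext h2 h3))
  -- the three involutions
  obtain ⟨A, hA, hAu, hAA⟩ := inv_of_rel (fun y z : Y => ee z = ee y ∧ ff z = ff y ∧ vv z ≠ vv y) (by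
    intro y
    obtain ⟨v', h1, h2, h3⟩ := other (h.two_ends (ee y)) (mv y)
    refine ⟨mk v' (ee y) (ff y) h1 (mf y), ⟨rfl, rfl, h2⟩, ?_⟩
    rintro z ⟨e1, e2, e3⟩
    exact ext3 _ _ (h3 (vv z) (e1 ▸ mv z) e3) e1 e2) (by
    rintro y z ⟨e1, e2, e3⟩
    exact ⟨e1.symm, e2.symm, e3.symm⟩)
  obtain ⟨B, hB, hBu, hBB⟩ := inv_of_rel (fun y z : Y => ee z = ee y ∧ vv z = vv y ∧ ff z ≠ ff y) (by
    intro y
    obtain ⟨f', h1, h2, h3⟩ := other (h.two_faces (ee y)) (mf y)
    refine ⟨mk (vv y) (ee y) f' (mv y) h1, ⟨rfl, rfl, h2⟩, ?_⟩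
    rintro z ⟨e1, e2, e3⟩
    exact ext3 _ _ e2 e1 (h3 (ff z) (e1 ▸ mf z) e3)) (by
    rintro y z ⟨e1, e2, e3⟩
    exact ⟨e1.symm, e2.symm, e3.symm⟩)
  obtain ⟨C, hC, hCu, hCC⟩ := inv_of_rel (fun y z : Y => vv z = vv y ∧ ff z = ff y ∧ ee z ≠ ee y) (by
    intro y
    obtain ⟨q, ⟨h1, h2, h3⟩, h4⟩ := h.corner (vv y) (ff y) (ee y) (mv y) (mf y)
    refine ⟨mk (vv y) q (ff y) h2 h3, ⟨rfl, rfl, h1⟩, ?_⟩
    rintro z ⟨e1, e2, e3⟩
    exact ext3 _ _ e1 (h4 (ee z) ⟨e3, e1 ▸ mv z, e2 ▸ mf z⟩) e2) (by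
    rintro y z ⟨e1, e2, e3⟩
    exact ⟨e1.symm, e2.symm, e3.symm⟩)
  -- signs
  have sA : ∀ y z : Y, ee z = ee y → ff z = ff y → vv z ≠ vv y → ss z ≠ ss y := by
    intro y z e1 e2 e3
    have h1 := hs1 (ee z) (vv z) (vv y) (ff z) (mv z) (e1 ▸ mv y) e3 (mf z)
    show s (vv z) (ee z) (ff z) ≠ s (vv y) (ee y) (ff y)
    rw [← e1, ← e2]
    exact h1
  have sB : ∀ y z : Y, ee z = ee y → vv z = vv y → ff z ≠ ff y → ss z ≠ ss y := by
    intro y z e1 e2 e3
    have h1 := hs2 (ee z) (vv z) (ff z) (ff y) (mv z) (mf z) (e1 ▸ mf y) e3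
    show s (vv z) (ee z) (ff z) ≠ s (vv y) (ee y) (ff y)
    rw [← e1, ← e2]
    exact h1
  have sC : ∀ y z : Y, vv z = vv y → ff z = ff y → ee z ≠ ee y → ss z ≠ ss y := by
    intro y z e1 e2 e3
    have h1 := hs3 (ee z) (ee y) (vv z) (ff z) (mv z) (e1 ▸ mv y) (mf z) (e2 ▸ mf y) e3
    show s (vv z) (ee z) (ff z) ≠ s (vv y) (ee y) (ff y)
    rw [← e1, ← e2]
    exact h1
  have fA : ∀ y, ss (A y) ≠ ss y := fun y => sA y (A y) (hA y).1 (hA y).2.1 (hA y).2.2
  have fB : ∀ y, ss (B y) ≠ ss y := fun y => sB y (B y) (hB y).1 (hB y).2.1 (hB y).2.2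
  have fC : ∀ y, ss (C y) ≠ ss y := fun y => sC y (C y) (hC y).1 (hC y).2.1 (hC y).2.2
  have two : ∀ (P Q : Equiv.Perm Y), (∀ y, ss (P y) ≠ ss y) → (∀ y, ss (Q y) ≠ ss y) →
      ∀ y, ss ((P * Q) y) = true ↔ ss y = true := by
    intro P Q hP hQ y
    have h1 := hP (Q y)
    have h2 := hQ y
    rw [Equiv.Perm.mul_apply]
    revert h1 h2
    cases ss (P (Q y)) <;> cases ss (Q y) <;> cases ss y <;> simp
  let X : Type := {y : Y // ss y = true}
  let α : Equiv.Perm X := (A * B).subtypePerm (two A B fA fB)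
  let β : Equiv.Perm X := (B * C).subtypePerm (two B C fB fC)
  let γ : Equiv.Perm X := (C * A).subtypePerm (two C A fC fA)
  have hα : ∀ x : X, (α x).1 = A (B x.1) := fun x => rfl
  have hβ : ∀ x : X, (β x).1 = B (C x.1) := fun x => rfl
  have hγ : ∀ x : X, (γ x).1 = C (A x.1) := fun x => rfl
  have hprod : α * β * γ = 1 := by
    ext1 x
    apply Subtype.ext
    show (α (β (γ x))).1 = x.1
    rw [hα, hβ, hγ, hCC, hBB, hAA]
  have haa : α ^ 2 = 1 := by
    ext1 x
    apply Subtype.ext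
    show (α (α x)).1 = x.1
    rw [hα, hα]
    -- the faces and the vertices change twice
    have e1 : B (A (B x.1)) = A x.1 := by
      symm
      apply hBu
      refine ⟨?_, ?_, ?_⟩
      · rw [(hA x.1).1, (hA (B x.1)).1, (hB x.1).1]
      · obtain ⟨v', -, -, hv3⟩ := other (h.two_ends (ee x.1)) (mv x.1)
        have k1 : vv (A x.1) = v' := hv3 _ ((hA x.1).1 ▸ mv (A x.1)) (hA x.1).2.2
        have k2 : vv (A (B x.1)) = v' := by
          apply hv3 _ _ _
          · have := mv (A (B x.1))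
            rwa [(hA (B x.1)).1, (hB x.1).1] at this
          · have := (hA (B x.1)).2.2
            rwa [(hB x.1).2.1] at this
        rw [k1, k2]
      · rw [(hA x.1).2.1, (hA (B x.1)).2.1]
        exact (hB x.1).2.2.symm
    rw [e1, hAA]
  -- the vertex and the edge (or the face and the edge) determine a positive flag
  have uVE : ∀ x y : X, vv x.1 = vv y.1 → ee x.1 = ee y.1 → x = y := by
    intro x y e1 e2
    apply Subtype.ext
    apply ext3 _ _ e1 e2
    by_contra e3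
    exact sB y.1 x.1 e2 e1 e3 (x.2.trans y.2.symm)
  have uFE : ∀ x y : X, ff x.1 = ff y.1 → ee x.1 = ee y.1 → x = y := by
    intro x y e1 e2
    apply Subtype.ext
    refine ext3 _ _ ?_ e2 e1
    by_contra e3
    exact sA y.1 x.1 e2 e1 e3 (x.2.trans y.2.symm)
  -- transitivity
  have tE : ∀ x y : X, ee x.1 = ee y.1 → α.SameCycle x y := by
    intro x y e
    by_cases hv : vv x.1 = vv y.1
    · rw [uVE x y hv e]
    · by_cases hf : ff x.1 = ff y.1
      · exact absurd (uFE x y hf e ▸ rfl) hv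
      · refine ⟨1, ?_⟩
        rw [zpow_one]
        apply Subtype.ext
        rw [hα]
        symm
        apply hAu
        refine ⟨?_, ?_, ?_⟩
        · rw [(hB x.1).1, e]
        · obtain ⟨f', -, -, hf3⟩ := other (h.two_faces (ee x.1)) (mf x.1)
          have k1 : ff (B x.1) = f' := hf3 _ ((hB x.1).1 ▸ mf (B x.1)) (hB x.1).2.2
          have k2 : ff y.1 = f' := hf3 _ (e ▸ mf y.1) (fun h => hf h.symm)
          rw [k1, k2]
        · rw [(hB x.1).2.1]
          exact fun h => hv h.symm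
  have tV : ∀ x y : X, vv x.1 = vv y.1 → β.SameCycle x y := by
    intro x y e
    have key := h.vertex_cycle (vv x.1) {p | ∃ z : X, vv z.1 = vv x.1 ∧ ee z.1 = p ∧ β.SameCycle x z} (by
      rintro p ⟨z, h1, rfl, -⟩
      exact h1 ▸ mv z.1) ⟨ee x.1, x, rfl, rfl, Equiv.Perm.SameCycle.refl _ _⟩ (by
      rintro p ⟨z, h1, rfl, h3⟩ q hq ⟨f, hf1, hf2⟩
      by_cases hqp : q = ee z.1
      · exact ⟨z, h1, hqp.symm, h3⟩
      by_cases hfz : f = ff z.1
      · refine ⟨β z, ?_, ?_, ?_⟩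
        · rw [hβ, (hB _).2.1, (hC _).1, h1]
        · rw [hβ, (hB _).1]
          have h4 : mk (vv z.1) q (ff z.1) (h1 ▸ hq) (hfz ▸ hf2) = C z.1 := hCu _ _ ⟨rfl, rfl, hqp⟩
          rw [← h4]
        · exact h3.trans ⟨1, by rw [zpow_one]⟩
      · have hw : (β⁻¹ z).1 = C (B z.1) := by
          have h5 : B (C (β⁻¹ z).1) = z.1 := by
            rw [← hβ, show β (β⁻¹ z) = z from β.apply_symm_apply z]
          rw [← h5, hBB, hCC]
        refine ⟨β⁻¹ z, ?_, ?_, ?_⟩
        · rw [hw, (hC _).1, (hB _).2.1, h1]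
        · rw [hw]
          have h4 : mk (vv z.1) (ee z.1) f (mv z.1) hf1 = B z.1 := hBu _ _ ⟨rfl, rfl, hfz⟩
          have h5 : mk (vv z.1) q f (h1 ▸ hq) hf2 = C (B z.1) := by
            rw [← h4]
            exact hCu _ _ ⟨rfl, rfl, hqp⟩
          rw [← h5]
        · exact h3.trans ⟨-1, by rw [zpow_neg_one]⟩) (ee y.1) (e ▸ mv y.1)
    obtain ⟨z, h1, h2, h3⟩ := key
    rwa [uVE z y (h1.trans e) h2] at h3
  have tF : ∀ x y : X, ff x.1 = ff y.1 → γ.SameCycle x y := by
    intro x y e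
    have key := h.face_cycle (ff x.1) {p | ∃ z : X, ff z.1 = ff x.1 ∧ ee z.1 = p ∧ γ.SameCycle x z} (by
      rintro p ⟨z, h1, rfl, -⟩
      exact h1 ▸ mf z.1) ⟨ee x.1, x, rfl, rfl, Equiv.Perm.SameCycle.refl _ _⟩ (by
      rintro p ⟨z, h1, rfl, h3⟩ q hq ⟨v, hv1, hv2⟩
      by_cases hqp : q = ee z.1
      · exact ⟨z, h1, hqp.symm, h3⟩
      by_cases hvz : v = vv z.1
      · have hw : (γ⁻¹ z).1 = A (C z.1) := by
          have h5 : C (A (γ⁻¹ z).1) = z.1 := by
            rw [← hγ, show γ (γ⁻¹ z) = z from γ.apply_symm_apply z]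
          rw [← h5, hCC, hAA]
        refine ⟨γ⁻¹ z, ?_, ?_, ?_⟩
        · rw [hw, (hA _).2.1, (hC _).2.1, h1]
        · rw [hw, (hA _).1]
          have h4 : mk (vv z.1) q (ff z.1) (hvz ▸ hv2) (h1 ▸ hq) = C z.1 := hCu _ _ ⟨rfl, rfl, hqp⟩
          rw [← h4]
        · exact h3.trans ⟨-1, by rw [zpow_neg_one]⟩
      · refine ⟨γ z, ?_, ?_, ?_⟩
        · rw [hγ, (hC _).2.1, (hA _).2.1, h1]
        · rw [hγ]
          have h4 : mk v (ee z.1) (ff z.1) hv1 (mf z.1) = A z.1 := hAu _ _ ⟨rfl, rfl, hvz⟩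
          have h5 : mk v q (ff z.1) hv2 (h1 ▸ hq) = C (A z.1) := by
            rw [← h4]
            exact hCu _ _ ⟨rfl, rfl, hqp⟩
          rw [← h5]
        · exact h3.trans ⟨1, by rw [zpow_one]⟩) (ee y.1) (e ▸ mf y.1)
    obtain ⟨z, h1, h2, h3⟩ := key
    rwa [uFE z y (h1.trans e) h2] at h3
  -- surjectivity
  have hex : ∀ v : V, ∃ p, v ∈ vtx p := by
    intro v
    by_contra hcon
    push Not at hcon
    have h1 := h.conn {v} ⟨v, rfl⟩ (by
      intro p x hx hxv
      rw [Set.mem_singleton_iff] at hxv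
      exact absurd (hxv ▸ hx) (hcon p))
    have h2 : Fintype.card V ≤ 1 := by
      rw [Fintype.card_le_one_iff]
      intro a b
      have ha : a ∈ ({v} : Set V) := h1 ▸ Set.mem_univ a
      have hb : b ∈ ({v} : Set V) := h1 ▸ Set.mem_univ b
      rw [Set.mem_singleton_iff] at ha hb
      rw [ha, hb]
    omega
  have posB : ∀ y : Y, ∃ x : X, vv x.1 = vv y ∧ ee x.1 = ee y := by
    intro y
    by_cases h1 : ss y = true
    · exact ⟨⟨y, h1⟩, rfl, rfl⟩
    · refine ⟨⟨B y, ?_⟩, (hB y).2.1, (hB y).1⟩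
      have h2 := fB y
      revert h1 h2
      cases ss (B y) <;> cases ss y <;> simp
  have posA : ∀ y : Y, ∃ x : X, ff x.1 = ff y ∧ ee x.1 = ee y := by
    intro y
    by_cases h1 : ss y = true
    · exact ⟨⟨y, h1⟩, rfl, rfl⟩
    · refine ⟨⟨A y, ?_⟩, (hA y).2.1, (hA y).1⟩
      have h2 := fA y
      revert h1 h2
      cases ss (A y) <;> cases ss y <;> simp
  have neF : ∀ p, ∃ f, f ∈ fac p := fun p => by
    have h1 := h.two_faces p
    exact Finset.card_pos.mp (by omega)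
  have neV : ∀ p, ∃ v, v ∈ vtx p := fun p => by
    have h1 := h.two_ends p
    exact Finset.card_pos.mp (by omega)
  have hexF : ∀ f : Φ, ∃ p, f ∈ fac p := by
    intro f
    by_contra hcon
    push Not at hcon
    have h1 := h.dual_conn {f} ⟨f, rfl⟩ (by
      intro p x hx hxv
      rw [Set.mem_singleton_iff] at hxv
      exact absurd (hxv ▸ hx) (hcon p))
    have hVn : 0 < Fintype.card V := by omega
    obtain ⟨v⟩ := Fintype.card_pos_iff.mp hVn
    obtain ⟨p, -⟩ := hex v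
    obtain ⟨g, hg⟩ := neF p
    have h2 : g ∈ ({f} : Set Φ) := h1 ▸ Set.mem_univ g
    rw [Set.mem_singleton_iff] at h2
    exact hcon p (h2 ▸ hg)
  have surE : Function.Surjective fun x : X => ee x.1 := by
    intro p
    obtain ⟨v, hv⟩ := neV p
    obtain ⟨f, hf⟩ := neF p
    obtain ⟨x, -, h2⟩ := posB (mk v p f hv hf)
    exact ⟨x, h2⟩
  have surV : Function.Surjective fun x : X => vv x.1 := by
    intro v
    obtain ⟨p, hv⟩ := hex v
    obtain ⟨f, hf⟩ := neF p
    obtain ⟨x, h2, -⟩ := posB (mk v p f hv hf)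
    exact ⟨x, h2⟩
  have surF : Function.Surjective fun x : X => ff x.1 := by
    intro f
    obtain ⟨p, hf⟩ := hexF f
    obtain ⟨v, hv⟩ := neV p
    obtain ⟨x, h2, -⟩ := posA (mk v p f hv hf)
    exact ⟨x, h2⟩
  have fixα : ∀ x, α x ≠ x := by
    intro x hx
    have h1 := (hA (B x.1)).2.2
    rw [← hα, hx] at h1
    exact h1 (hB x.1).2.1.symm
  have fixβ : ∀ x, β x ≠ x := by
    intro x hx
    have h1 := (hB (C x.1)).1
    rw [← hβ, hx] at h1
    exact (hC x.1).2.2 h1.symm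
  have fixγ : ∀ x, γ x ≠ x := by
    intro x hx
    have h1 := (hC (A x.1)).2.2
    rw [← hγ, hx] at h1
    exact h1 (hA x.1).1.symm
  have s1 := sign_count α (fun x : X => ee x.1) surE (fun x => by
    show ee (α x).1 = ee x.1
    rw [hα, (hA _).1, (hB _).1]) tE fixα
  have s2 := sign_count β (fun x : X => vv x.1) surV (fun x => by
    show vv (β x).1 = vv x.1
    rw [hβ, (hB _).2.1, (hC _).1]) tV fixβ
  have s3 := sign_count γ (fun x : X => ff x.1) surF (fun x => by
    show ff (γ x).1 = ff x.1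
    rw [hγ, (hC _).2.1, (hA _).2.1]) tF fixγ
  have h2X : 2 ∣ Fintype.card X := by
    have h1 := Equiv.Perm.two_dvd_card_support haa
    have h2 : α.support = Finset.univ := by
      ext x
      simp [fixα x]
    rwa [h2, Finset.card_univ] at h1
  have hsign := congrArg Equiv.Perm.sign hprod
  rw [Equiv.Perm.sign_mul, Equiv.Perm.sign_mul, s1, s2, s3, Equiv.Perm.sign_one, ← pow_add, ← pow_add] at hsign
  have heven : Even (Fintype.card X + Fintype.card E + (Fintype.card X + Fintype.card V) +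
      (Fintype.card X + Fintype.card Φ)) := by
    by_contra hodd
    rw [Nat.not_even_iff_odd] at hodd
    rw [hodd.neg_one_pow] at hsign
    exact absurd hsign (by decide)
  obtain ⟨k, hk⟩ := h2X
  obtain ⟨m, hm⟩ := heven
  rw [Nat.even_iff]
  omega

end Pool.Agent.H34.PM
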