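import Pool.Agent.H34.PM.CR
import Pool.Agent.H34.PM.CD
import Pool.Agent.H34.PM.CV
import Pool.Agent.H34.PM.CM
import Pool.Agent.H34.PM.CE
import Pool.Agent.H34.PM.Par
import Pool.Agent.H34.PM.Main

set_option autoImplicit false

/-!
# [H34 PM Conv] The converse, and the classification
-/

namespace Pool.Agent.H34.PM

open Finset Matroid

variable {V E Φ : Type}

theorem inc_ne {A B : Type} (e : B → Finset A) (p : B) (a : A) : inc e p a ≠ 0 ↔ a ∈ e p := by
  classical
  simp [inc]

theorem face_isCyc' [Fintype V] [Fintype E] [Fintype Φ] {vtx : E → Finset V}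
    {fac : E → Finset Φ} {w : E → ZMod 2} (h : Pair vtx fac w) (f : Φ) :
    IsCyc vtx (fun p => inc fac p f) := by
  classical
  refine ((h.rel _).mpr ⟨Pi.single f 1, fun p => ?_⟩).1
  simp [Pi.single_apply]

theorem isMap_of_not_regular [Fintype V] [Fintype E] [Fintype Φ] {vtx : E → Finset V}
    {fac : E → Finset Φ} {w : E → ZMod 2} (h : Pair vtx fac w) (hr : ¬ Regular (big vtx w)) :
    IsMap vtx fac := by
  have hF := fun f => cycle_of_min h.two_v (fun p => inc fac p f) (face_isCyc' h f)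
    (fun c hc hcf => face_min h hr f c hc fun p hp => (inc_ne fac p f).mp (hcf p hp))
  have hcyc : ∀ v, IsCyc fac (fun p => inc vtx p v) := by
    intro v f
    have := face_isCyc' h f v
    simpa only [mul_comm] using this
  have hV := fun v => cycle_of_min h.two_f (fun p => inc vtx p v) (hcyc v)
    (fun c hc hcf => star_min h hr v c hc fun p hp => (inc_ne vtx p v).mp (hcf p hp))
  refine ⟨h.two_v, h.two_f, ?_, ?_, ?_, h.conn_v, h.conn_f⟩
  · intro v f p hv hf
    obtain ⟨q, ⟨h1, h2, h3⟩, h4⟩ := (hF f).1 v p hv ((inc_ne fac p f).mpr hf)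
    exact ⟨q, ⟨h1, h2, (inc_ne fac q f).mp h3⟩,
      fun r hr' => h4 r ⟨hr'.1, hr'.2.1, (inc_ne fac r f).mpr hr'.2.2⟩⟩
  · intro f S hS hne hcl q hq
    exact (hF f).2 S (fun p hp => (inc_ne fac p f).mpr (hS p hp)) hne
      (fun p hp q hq hv => hcl p hp q ((inc_ne fac q f).mp hq) hv) q ((inc_ne fac q f).mpr hq)
  · intro v S hS hne hcl q hq
    exact (hV v).2 S (fun p hp => (inc_ne vtx p v).mpr (hS p hp)) hne
      (fun p hp q hq hf => hcl p hp q ((inc_ne vtx q v).mp hq) hf) q ((inc_ne vtx q v).mpr hq)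

theorem not_orientable [Fintype V] [Fintype E] [Fintype Φ] {vtx : E → Finset V}
    {fac : E → Finset Φ} (h : IsMap vtx fac)
    (hE : Fintype.card V + Fintype.card Φ = Fintype.card E + 1) [Nonempty E] :
    ¬ Orientable vtx fac := by
  intro ho
  obtain ⟨p⟩ := ‹Nonempty E›
  have h2 : 2 ≤ Fintype.card V := by
    rw [← h.two_ends p]
    exact Finset.card_le_univ _
  obtain ⟨k, hk⟩ := euler_even h h2 ho
  omega

/-- The classification. -/
theorem classification [Fintype V] [Fintype E] [Fintype Φ] (vtx : E → Finset V)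
    (fac : E → Finset Φ) (two_v : ∀ p, (vtx p).card = 2) (two_f : ∀ p, (fac p).card = 2)
    (conn_v : Conn vtx) (conn_f : Conn fac) (conn2_v : Conn2 vtx) (conn2_f : Conn2 fac)
    (M : Matroid (Option E)) (hE : M.E = Set.univ) (hb : Rep (ZMod 2) M)
    (hl : ¬ M.IsLoop none) (hcl : ¬ M.IsColoop none)
    (hc : M ／ {none} = (cyc vtx).map some (Option.some_injective E).injOn)
    (hd : M ＼ {none} = ((cyc fac)✶).map some (Option.some_injective E).injOn) :
    Fintype.card V + Fintype.card Φ = Fintype.card E + 1 ∧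
    (¬ Regular M ↔ IsMap vtx fac) ∧ (¬ Regular M ↔ ¬ Rep ℚ M) := by
  have hnl : M.IsNonloop none := (Matroid.not_isLoop_iff (by rw [hE]; trivial)).mp hl
  obtain ⟨w, rfl⟩ := exists_big hE hb hnl hc
  have hodd := odd_of_not_coloop hcl
  have hrel := fun c => rel_of_delete hd c
  have hp : Pair vtx fac w := ⟨two_v, two_f, conn_v, conn_f, conn2_v, conn2_f, hrel, hodd⟩
  have hne : Nonempty E := by
    by_contra hne
    rw [not_nonempty_iff] at hne
    obtain ⟨c, -, h2⟩ := hodd
    simp at h2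
  obtain ⟨p⟩ := id hne
  have hV : Nonempty V := by
    obtain ⟨x, hx⟩ := Finset.card_pos.mp (by rw [two_v p]; norm_num)
    exact ⟨x⟩
  have hF : Nonempty Φ := by
    obtain ⟨x, hx⟩ := Finset.card_pos.mp (by rw [two_f p]; norm_num)
    exact ⟨x⟩
  have heuler := pair_euler hp
  have hsig : Sig vtx fac w := by
    classical
    refine ⟨fun f => ?_, hodd⟩
    exact ((hrel (fun p => inc fac p f)).mpr ⟨Pi.single f 1, fun p => by
      simp [Pi.single_apply]⟩).2
  have key : IsMap vtx fac → ¬ Rep ℚ (big vtx w) := fun hm =>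
    big_not_rep hm heuler hsig (not_orientable hm heuler)
  refine ⟨heuler, ⟨fun hr => isMap_of_not_regular hp hr, fun hm hr => key hm (hr ℚ)⟩,
    ⟨fun hr => key (isMap_of_not_regular hp hr), fun hq hr => hq (hr ℚ)⟩⟩

end Pool.Agent.H34.PM
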