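import Mathlib

set_option autoImplicit false

/-!
# [H34 PM Def] Matroids from graphs in the projective plane (MP_367fb1_co)
-/

namespace Pool.Agent.H34.PM

open Finset

/-- Augmentation for linear independence. -/
theorem lin_aug {F α W : Type} [Field F] [Finite α] [AddCommGroup W] [Module F W] (v : α → W)
    (I J : Set α) (hI : LinearIndepOn F v I) (hJ : LinearIndepOn F v J) (h : I.ncard < J.ncard) :
    ∃ e ∈ J, e ∉ I ∧ LinearIndepOn F v (insert e I) := by
  classical
  by_contra hc
  push Not at hc
  have h1 : v '' J ⊆ Submodule.span F (v '' I) := by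
    rintro _ ⟨e, he, rfl⟩
    by_cases heI : e ∈ I
    · exact Submodule.subset_span ⟨e, heI, rfl⟩
    · by_contra h2
      exact hc e he heI ((linearIndepOn_insert heI).mpr ⟨hI, h2⟩)
  have := Fintype.ofFinite I
  have := Fintype.ofFinite J
  have h3 : Submodule.span F (v '' J) ≤ Submodule.span F (v '' I) := Submodule.span_le.mpr h1
  have e1 := finrank_span_eq_card (R := F) (b := fun i : I => v i) hI
  have e2 := finrank_span_eq_card (R := F) (b := fun i : J => v i) hJ
  have r1 : Set.range (fun i : I => v i) = v '' I := by ext x; simp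
  have r2 : Set.range (fun i : J => v i) = v '' J := by ext x; simp
  rw [r1] at e1
  rw [r2] at e2
  have hfin : FiniteDimensional F (Submodule.span F (v '' I)) :=
    FiniteDimensional.span_of_finite F (Set.toFinite _)
  have h4 := Submodule.finrank_mono h3
  rw [e1, e2, ← Nat.card_eq_fintype_card, ← Nat.card_eq_fintype_card] at h4
  rw [Nat.card_coe_set_eq, Nat.card_coe_set_eq] at h4
  omega

/-- The matroid of a finite family of vectors: a set of indices is independent if the vectors are
linearly independent. -/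
noncomputable def lin (F : Type) {α W : Type} [Field F] [Finite α] [AddCommGroup W] [Module F W]
    (v : α → W) : Matroid α :=
  (IndepMatroid.ofFinite (E := Set.univ) Set.finite_univ (fun I => LinearIndepOn F v I)
    (linearIndepOn_empty F v) (fun _ _ h1 h2 => h1.mono h2)
    (fun I J h1 h2 h3 => lin_aug v I J h1 h2 h3) (fun _ _ => Set.subset_univ _)).matroid

/-- `M` is representable over the field `F`. -/
def Rep (F : Type) [Field F] {α : Type} (M : Matroid α) : Prop :=
  ∃ (W : Type) (_ : AddCommGroup W) (_ : Module F W) (v : α → W),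
    ∀ I ⊆ M.E, (M.Indep I ↔ LinearIndepOn F v I)

/-- Regular: representable over every field. -/
def Regular {α : Type} (M : Matroid α) : Prop := ∀ (F : Type) [Field F], Rep F M

/-- 3-connected in Tutte's sense: for `k = 1, 2` there is no partition `(X, Y)` of the ground set
with `|X|, |Y| ≥ k` and `r(X) + r(Y) - r(M) ≤ k - 1`. -/
def ThreeConnected {α : Type} (M : Matroid α) : Prop :=
  ∀ k : ℕ, (k = 1 ∨ k = 2) → ∀ X Y : Set α, X ∪ Y = M.E → Disjoint X Y →
    (k : ℕ∞) ≤ X.encard → (k : ℕ∞) ≤ Y.encard → ¬ (M.eRk X + M.eRk Y + 1 ≤ M.eRank + k)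

variable {V E Φ : Type}

/-- The incidence vector (mod 2) of the edge `p`; `e p` is the set of its ends. -/
noncomputable def inc (e : E → Finset V) (p : E) : V → ZMod 2 := by
  classical exact fun x => if x ∈ e p then 1 else 0

/-- The cycle matroid of the graph with vertex set `V`, edge set `E` and sets of ends `e p`. -/
noncomputable def cyc [Finite E] (e : E → Finset V) : Matroid E := lin (ZMod 2) (inc e)

/-- The graph is connected: a nonempty set of vertices closed under passing to the other end of an
edge is everything. -/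
def Conn (e : E → Finset V) : Prop :=
  ∀ S : Set V, S.Nonempty → (∀ p, ∀ x ∈ e p, x ∈ S → ∀ y ∈ e p, y ∈ S) → S = Set.univ

/-- A map: graph (`vtx p` are the ends of the edge `p`) and dual graph (`fac p` are the two faces at
`p`), both connected, in which the boundary of every face is a cycle. -/
structure IsMap (vtx : E → Finset V) (fac : E → Finset Φ) : Prop where
  two_ends : ∀ p, (vtx p).card = 2
  two_faces : ∀ p, (fac p).card = 2
  /-- a vertex `v` on the boundary of `f` is on exactly two edges of it -/
  corner : ∀ v f p, v ∈ vtx p → f ∈ fac p → ∃! q, q ≠ p ∧ v ∈ vtx q ∧ f ∈ fac q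
  /-- the boundary of `f` is connected -/
  face_cycle : ∀ (f : Φ) (S : Set E), (∀ p ∈ S, f ∈ fac p) → S.Nonempty →
    (∀ p ∈ S, ∀ q, f ∈ fac q → (∃ v, v ∈ vtx p ∧ v ∈ vtx q) → q ∈ S) → ∀ q, f ∈ fac q → q ∈ S
  /-- the edges at `v` form one cycle, neighbours having a common face -/
  vertex_cycle : ∀ (v : V) (S : Set E), (∀ p ∈ S, v ∈ vtx p) → S.Nonempty →
    (∀ p ∈ S, ∀ q, v ∈ vtx q → (∃ f, f ∈ fac p ∧ f ∈ fac q) → q ∈ S) → ∀ q, v ∈ vtx q → q ∈ S
  conn : Conn vtx
  dual_conn : Conn fac

/-- The surface of the map is orientable: the flags `(v, p, f)` have signs which change whenever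
one of the three entries is changed. -/
def Orientable (vtx : E → Finset V) (fac : E → Finset Φ) : Prop :=
  ∃ s : V → E → Φ → Bool,
    (∀ p v v' f, v ∈ vtx p → v' ∈ vtx p → v ≠ v' → f ∈ fac p → s v p f ≠ s v' p f) ∧
    (∀ p v f f', v ∈ vtx p → f ∈ fac p → f' ∈ fac p → f ≠ f' → s v p f ≠ s v p f') ∧
    (∀ p q v f, v ∈ vtx p → v ∈ vtx q → f ∈ fac p → f ∈ fac q → p ≠ q → s v p f ≠ s v q f)

/-- The vectors of `M`: `none` is the element `e`, `w` a signature of the edges. -/
noncomputable def ext (vtx : E → Finset V) (w : E → ZMod 2) : Option E → (V → ZMod 2) × ZMod 2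
  | none => (0, 1)
  | some p => (inc vtx p, w p)

/-- The matroid `M`. -/
noncomputable def big [Finite E] (vtx : E → Finset V) (w : E → ZMod 2) : Matroid (Option E) :=
  lin (ZMod 2) (ext vtx w)

/-- `c` is a cycle mod 2. -/
def IsCyc [Fintype E] (vtx : E → Finset V) (c : E → ZMod 2) : Prop :=
  ∀ v, ∑ p, c p * inc vtx p v = 0

/-- `w` is zero on the face boundaries, and not on all cycles. -/
structure Sig [Fintype E] (vtx : E → Finset V) (fac : E → Finset Φ) (w : E → ZMod 2) : Prop where
  face : ∀ f, ∑ p, inc fac p f * w p = 0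
  cycle : ∃ c, IsCyc vtx c ∧ ∑ p, c p * w p = 1

theorem lin_ground (F : Type) {α W : Type} [Field F] [Finite α] [AddCommGroup W] [Module F W]
    (v : α → W) : (lin F v).E = Set.univ := rfl

theorem lin_indep (F : Type) {α W : Type} [Field F] [Finite α] [AddCommGroup W] [Module F W]
    (v : α → W) (I : Set α) : (lin F v).Indep I ↔ LinearIndepOn F v I := by
  simp [lin]

/-- The face boundaries are cycles mod 2. -/
theorem IsMap.face_isCyc [Fintype E] {vtx : E → Finset V} {fac : E → Finset Φ}
    (h : IsMap vtx fac) (f : Φ) : IsCyc vtx (fun p => inc fac p f) := by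
  classical
  intro v
  simp only [inc]
  by_cases h0 : ∃ p, v ∈ vtx p ∧ f ∈ fac p
  · obtain ⟨p, hv, hf⟩ := h0
    obtain ⟨q, ⟨hq1, hq2, hq3⟩, hq⟩ := h.corner v f p hv hf
    rw [← Finset.sum_subset (Finset.subset_univ {p, q})]
    · rw [Finset.sum_pair (Ne.symm hq1)]
      simp only [hv, hf, hq2, hq3, if_true, mul_one]
      decide
    · intro r _ hr
      simp only [Finset.mem_insert, Finset.mem_singleton, not_or] at hr
      by_cases h1 : v ∈ vtx r
      · by_cases h2 : f ∈ fac r
        · exact absurd (hq r ⟨hr.1, h1, h2⟩) hr.2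
        · simp [h2]
      · simp [h1]
  · push Not at h0
    apply Finset.sum_eq_zero
    intro p _
    by_cases h1 : v ∈ vtx p
    · simp [h0 p h1]
    · simp [h1]

end Pool.Agent.H34.PM
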