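import Mathlib

set_option autoImplicit false

/-!
# [H34 PM ParP] signs of permutations whose orbits are the fibres of a map (helper3)
-/

namespace Pool.Agent.H34.PM

open Finset

/-- a permutation without fixed points whose orbits are the fibres of `g` has sign
`(-1) ^ (|X| + |U|)` -/
theorem sign_of_orbits {X U : Type} [Fintype X] [DecidableEq X] [Fintype U] (s : Equiv.Perm X)
    (g : X → U) (hsurj : Function.Surjective g) (hfix : ∀ x, s x ≠ x)
    (h : ∀ x y, s.SameCycle x y ↔ g x = g y) :
    Equiv.Perm.sign s = (-1) ^ (Fintype.card X + Fintype.card U) := by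
  classical
  have hsup : ∀ x, x ∈ s.support := fun x => Equiv.Perm.mem_support.mpr (hfix x)
  have h1 : s.cycleType.sum = Fintype.card X := by
    rw [Equiv.Perm.sum_cycleType, ← Finset.card_univ]
    congr 1
    ext x
    simp only [hsup, Finset.mem_univ]
  have h2 : s.cycleType.card = Fintype.card U := by
    rw [Equiv.Perm.cycleType_def, Multiset.card_map]
    change s.cycleFactorsFinset.card = _
    rw [← Finset.card_univ]
    symm
    choose x hx using hsurj
    refine Finset.card_bij (fun u _ => s.cycleOf (x u)) ?_ ?_ ?_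
    · intro u _
      exact Equiv.Perm.cycleOf_mem_cycleFactorsFinset_iff.mpr (hsup _)
    · intro u _ v _ huv
      have h3 : s.SameCycle (x u) (x v) :=
        (Equiv.Perm.sameCycle_iff_cycleOf_eq_of_mem_support (hsup _) (hsup _)).mpr huv
      have := (h _ _).mp h3
      rw [hx, hx] at this
      exact this
    · intro c hc
      have h3 := (Equiv.Perm.mem_cycleFactorsFinset_iff.mp hc).1
      obtain ⟨y, hy⟩ := h3.nonempty_support
      refine ⟨g y, Finset.mem_univ _, ?_⟩
      rw [Equiv.Perm.cycle_is_cycleOf hy hc]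
      apply Equiv.Perm.SameCycle.cycleOf_eq
      rw [h, hx]
  rw [Equiv.Perm.sign_of_cycleType, h1, h2]

/-- three permutations with product `1` -/
theorem even_of_three {X U1 U2 U3 : Type} [Fintype X] [DecidableEq X] [Fintype U1] [Fintype U2]
    [Fintype U3] (a b c : Equiv.Perm X) (habc : a * b * c = 1)
    (g1 : X → U1) (s1 : Function.Surjective g1) (f1 : ∀ x, a x ≠ x)
    (h1 : ∀ x y, a.SameCycle x y ↔ g1 x = g1 y)
    (g2 : X → U2) (s2 : Function.Surjective g2) (f2 : ∀ x, b x ≠ x)
    (h2 : ∀ x y, b.SameCycle x y ↔ g2 x = g2 y)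
    (g3 : X → U3) (s3 : Function.Surjective g3) (f3 : ∀ x, c x ≠ x)
    (h3 : ∀ x y, c.SameCycle x y ↔ g3 x = g3 y) :
    Even (3 * Fintype.card X + Fintype.card U1 + Fintype.card U2 + Fintype.card U3) := by
  have h := congrArg Equiv.Perm.sign habc
  rw [map_mul, map_mul, sign_of_orbits a g1 s1 f1 h1, sign_of_orbits b g2 s2 f2 h2,
    sign_of_orbits c g3 s3 f3 h3, map_one, ← pow_add, ← pow_add] at h
  have h4 : ((-1 : ℤ)) ^ (Fintype.card X + Fintype.card U1 + (Fintype.card X + Fintype.card U2) +
      (Fintype.card X + Fintype.card U3)) = 1 := by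
    have := congrArg (fun u : ℤˣ => (u : ℤ)) h
    simpa using this
  rw [neg_one_pow_eq_one_iff_even (by norm_num)] at h4
  have e : 3 * Fintype.card X + Fintype.card U1 + Fintype.card U2 + Fintype.card U3 =
      Fintype.card X + Fintype.card U1 + (Fintype.card X + Fintype.card U2) +
      (Fintype.card X + Fintype.card U3) := by ring
  rw [e]
  exact h4

/-- orbits from closedness: `g` is invariant, and a nonempty invariant set inside a fibre is the
whole fibre -/
theorem sameCycle_of_closed {X U : Type} [Finite X] (s : Equiv.Perm X) (g : X → U)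
    (hinv : ∀ x, g (s x) = g x)
    (hcl : ∀ (x : X) (S : Set X), x ∈ S → (∀ y ∈ S, g y = g x) → (∀ y ∈ S, s y ∈ S) →
      ∀ y, g y = g x → y ∈ S) (x y : X) : s.SameCycle x y ↔ g x = g y := by
  have h1 : ∀ x, ∀ n : ℕ, g ((s ^ n) x) = g x := by
    intro x n
    induction n with
    | zero => simp
    | succ n ih => rw [pow_succ', Equiv.Perm.mul_apply, hinv, ih]
  constructor
  · intro h
    obtain ⟨n, hn⟩ := h.exists_nat_pow_eq
    rw [← hn, h1]
  · intro h
    apply hcl x {y | s.SameCycle x y} (Equiv.Perm.SameCycle.refl s x)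
    · intro z hz
      obtain ⟨n, hn⟩ := Equiv.Perm.SameCycle.exists_nat_pow_eq hz
      rw [← hn, h1]
    · intro z hz
      exact Equiv.Perm.sameCycle_apply_right.mpr hz
    · exact h.symm

end Pool.Agent.H34.PM
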