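import Mathlib

set_option autoImplicit false

/-! # [H34 PM ParS] the sign of a permutation and the number of its orbits -/

namespace Pool.Agent.H34.PM

open Finset

private theorem card_image_le_image {a b c : Type} [DecidableEq b] [DecidableEq c] (s : Finset a) (f : a → b)
    (g : a → c) (h : ∀ x ∈ s, ∀ y ∈ s, g x = g y → f x = f y) : (s.image f).card ≤ (s.image g).card := by
  classical
  rcases s.eq_empty_or_nonempty with rfl | ⟨x0, hx0⟩
  · simp
  · let k : c → b := fun z => if hz : ∃ x ∈ s, g x = z then f hz.choose else f x0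
    have h1 : s.image f ⊆ (s.image g).image k := by
      intro y hy
      obtain ⟨x, hx, rfl⟩ := Finset.mem_image.1 hy
      refine Finset.mem_image.2 ⟨g x, Finset.mem_image_of_mem _ hx, ?_⟩
      have hz : ∃ x' ∈ s, g x' = g x := ⟨x, hx, rfl⟩
      simp only [k]
      rw [dif_pos hz]
      exact h _ hz.choose_spec.1 _ hx hz.choose_spec.2
    exact (Finset.card_le_card h1).trans Finset.card_image_le

theorem sign_orbits {a b : Type} [Fintype a] [Fintype b] [DecidableEq a] (s : Equiv.Perm a) (pi : a → b)
    (hs : Function.Surjective pi) (h : ∀ x y, pi x = pi y ↔ s.SameCycle x y) :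
    Equiv.Perm.sign s = (-1) ^ (Fintype.card a + Fintype.card b) := by
  classical
  have hk : s.cycleFactorsFinset = s.support.image (fun x => s.cycleOf x) := by
    ext c
    rw [Finset.mem_image]
    constructor
    · intro hc
      have hcy := (Equiv.Perm.mem_cycleFactorsFinset_iff.1 hc).1
      obtain ⟨x, hx⟩ := hcy.nonempty_support
      refine ⟨x, ?_, (Equiv.Perm.cycle_is_cycleOf hx hc).symm⟩
      exact Equiv.Perm.mem_cycleFactorsFinset_support_le hc hx
    · rintro ⟨x, hx, rfl⟩
      exact Equiv.Perm.cycleOf_mem_cycleFactorsFinset_iff.2 hx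
  have h2 : (s.support.image pi).card = s.cycleFactorsFinset.card := by
    rw [hk]
    apply le_antisymm
    · refine card_image_le_image _ _ _ fun x hx y hy hxy => ?_
      rw [h]
      have h3 : y ∈ (s.cycleOf y).support := (Equiv.Perm.mem_support_cycleOf_iff).2 ⟨Equiv.Perm.SameCycle.refl _ _, hy⟩
      rw [← hxy] at h3
      exact (Equiv.Perm.mem_support_cycleOf_iff.1 h3).1
    · refine card_image_le_image _ _ _ fun x hx y hy hxy => ?_
      exact ((h x y).1 hxy).cycleOf_eq
  have h4 : (s.supportᶜ.image pi).card = s.supportᶜ.card := by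
    apply Finset.card_image_of_injOn
    intro x hx y hy hxy
    have h5 : s x = x := by simpa using hx
    exact Equiv.Perm.SameCycle.eq_of_left ((h x y).1 hxy) h5
  have h6 : Disjoint (s.support.image pi) (s.supportᶜ.image pi) := by
    rw [Finset.disjoint_left]
    intro z hz1 hz2
    obtain ⟨x, hx, rfl⟩ := Finset.mem_image.1 hz1
    obtain ⟨y, hy, hxy⟩ := Finset.mem_image.1 hz2
    have h5 : s y = y := by simpa using hy
    have h7 : y = x := Equiv.Perm.SameCycle.eq_of_left ((h y x).1 hxy) h5
    rw [h7] at h5
    exact (Equiv.Perm.mem_support.1 hx) h5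
  have h7 : (s.support.image pi) ∪ (s.supportᶜ.image pi) = univ := by
    rw [← Finset.image_union, Finset.union_compl]
    exact Finset.image_univ_of_surjective hs
  have h8 : Fintype.card b = s.cycleFactorsFinset.card + s.supportᶜ.card := by
    rw [← Finset.card_univ, ← h7, Finset.card_union_of_disjoint h6, h2, h4]
  have h9 : Fintype.card a = s.support.card + s.supportᶜ.card := by
    rw [← Finset.card_univ, Finset.card_add_card_compl]
    rfl
  rw [Equiv.Perm.sign_of_cycleType, Equiv.Perm.sum_cycleType, h8, h9]
  have h10 : Multiset.card s.cycleType = s.cycleFactorsFinset.card := by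
    rw [Equiv.Perm.cycleType_def, Multiset.card_map]
    rfl
  rw [h10]
  have h11 : s.support.card + s.supportᶜ.card + (s.cycleFactorsFinset.card + s.supportᶜ.card) =
      s.support.card + s.cycleFactorsFinset.card + 2 * s.supportᶜ.card := by ring
  rw [h11, pow_add _ _ (2 * s.supportᶜ.card), pow_mul]
  norm_num

end Pool.Agent.H34.PM
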