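import Pool.Agent.H34.PM.Def

set_option autoImplicit false

/-!
# [H34 PM Reg2] contraction of `e`; representations of `N.map some` (helper30)
-/

namespace Pool.Agent.H34.PM

open Finset Matroid

variable {V E Φ : Type}

private theorem indepOn_some {F W : Type} [Field F] [AddCommGroup W] [Module F W] (g : Option E → W) (J : Set E) :
    LinearIndepOn F g (some '' J) ↔ LinearIndepOn F (fun p => g (some p)) J :=
  ⟨fun h => h.comp_of_image (Option.some_injective E).injOn, fun h => LinearIndepOn.image_of_comp some g h⟩

private theorem ext_indep (vtx : E → Finset V) (w : E → ZMod 2) (J : Set E) :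
    LinearIndepOn (ZMod 2) (ext vtx w) (insert none (some '' J)) ↔ LinearIndepOn (ZMod 2) (inc vtx) J := by
  rw [linearIndepOn_insert (by simp), indepOn_some]
  have e1 : (fun p => inc vtx p) = fun p => (LinearMap.fst (ZMod 2) (V → ZMod 2) (ZMod 2)) (ext vtx w (some p)) := rfl
  have him : ext vtx w '' (some '' J) = (fun p => ext vtx w (some p)) '' J := by
    rw [Set.image_image]
  rw [him]
  constructor
  · rintro ⟨h1, h2⟩
    have h3 := LinearIndepOn.map_injOn (s := J) h1 (LinearMap.fst (ZMod 2) (V → ZMod 2) (ZMod 2)) ?_
    · exact h3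
    · refine LinearMap.injOn_of_disjoint_ker le_rfl ?_
      rw [Submodule.disjoint_def]
      intro x hx hk
      have hx1 : x.1 = 0 := hk
      have hx2 : x.2 = 0 ∨ x.2 = 1 := by
        have : ∀ a : ZMod 2, a = 0 ∨ a = 1 := by decide
        exact this _
      rcases hx2 with h | h
      · exact Prod.ext hx1 h
      · exfalso
        apply h2
        have : x = ext vtx w none := Prod.ext hx1 h
        rw [← this]
        exact hx
  · intro h
    have h1 : LinearIndepOn (ZMod 2) (fun p => ext vtx w (some p)) J :=
      LinearIndependent.of_comp (LinearMap.fst (ZMod 2) (V → ZMod 2) (ZMod 2)) h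
    refine ⟨h1, fun h2 => ?_⟩
    rw [Set.image_eq_range, Finsupp.mem_span_range_iff_exists_finsupp] at h2
    obtain ⟨c, hc⟩ := h2
    have h3 : c = 0 := by
      have h4 : LinearIndependent (ZMod 2) (fun p : J => inc vtx p) := h
      rw [linearIndependent_iff] at h4
      apply h4
      have h5 := congrArg (LinearMap.fst (ZMod 2) (V → ZMod 2) (ZMod 2)) hc
      rw [Finsupp.linearCombination_apply]
      rw [map_finsuppSum] at h5
      exact h5
    rw [h3, Finsupp.sum_zero_index] at hc
    have h6 := congrArg Prod.snd hc
    exact zero_ne_one h6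

private theorem none_nonloop [Finite E] (vtx : E → Finset V) (w : E → ZMod 2) : (big vtx w).IsNonloop none := by
  rw [← indep_singleton, big, lin_indep, linearIndepOn_singleton_iff]
  intro h
  exact one_ne_zero (congrArg Prod.snd h)

/-- `e` is not a loop and contracting it gives the cycle matroid. -/
theorem big_contract2 [Finite E] (vtx : E → Finset V) (w : E → ZMod 2) :
    (big vtx w) ／ {none} = (cyc vtx).map some (Option.some_injective E).injOn := by
  refine Matroid.ext_indep ?_ fun I hI => ?_
  · ext x
    rcases x with _ | x <;> simp [big, cyc, lin_ground, map_ground]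
  · rw [(none_nonloop vtx w).contractElem_indep_iff]
    have hI2 : none ∉ I := fun h => (hI h).2 rfl
    have hI3 : I ⊆ Set.range (some : E → Option E) := by
      intro x hx
      rcases x with _ | x
      · exact absurd hx hI2
      · exact ⟨x, rfl⟩
    obtain ⟨J, rfl⟩ := Set.subset_range_iff_exists_image_eq.1 hI3
    rw [map_image_indep_iff (Set.subset_univ J)]
    have := PM.ext_indep vtx w J
    rw [cyc, lin_indep, ← this, big, lin_indep]
    simp

/-- A representation of `N` gives one of `N.map some`. -/
theorem regular_map_some2 {N : Matroid E} (h : Regular N) :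
    Regular (N.map some (Option.some_injective E).injOn) := by
  intro F _
  obtain ⟨W, i1, i2, v, hv⟩ := h F
  refine ⟨W, i1, i2, fun o => o.elim 0 v, fun I hI => ?_⟩
  rw [map_ground] at hI
  obtain ⟨J, hJ, rfl⟩ := Set.subset_image_iff.1 hI
  rw [map_image_indep_iff hJ, hv J hJ, indepOn_some]
  rfl

end Pool.Agent.H34.PM
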