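import Pool.Agent.H34.PM.Whl

set_option autoImplicit false

/-! # [H34 PM WMap] the wheel map -/

namespace Pool.Agent.H34.PM

open Finset

theorem wz_one (n : ℕ) : (1 : ZMod (2 * n + 3)) ≠ 0 := by
  intro h
  have h1 : ((1 : ℕ) : ZMod (2 * n + 3)) = 0 := by simpa using h
  rw [ZMod.natCast_eq_zero_iff] at h1
  have := Nat.le_of_dvd one_pos h1
  omega

theorem wz_two (n : ℕ) : (2 : ZMod (2 * n + 3)) ≠ 0 := by
  intro h
  have h1 : ((2 : ℕ) : ZMod (2 * n + 3)) = 0 := by simpa using h
  rw [ZMod.natCast_eq_zero_iff] at h1
  have := Nat.le_of_dvd two_pos h1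
  omega

theorem wz_half (n : ℕ) : (2 : ZMod (2 * n + 3)) * (n + 2) = 1 := by
  have h : ((2 * n + 3 : ℕ) : ZMod (2 * n + 3)) = 0 := ZMod.natCast_self _
  push_cast at h
  linear_combination h

/-- a nonempty set of residues closed under adding `2` is everything -/
theorem wz_closed_two (n : ℕ) (P : ZMod (2 * n + 3) → Prop) (x : ZMod (2 * n + 3)) (hx : P x)
    (h : ∀ y, P y → P (y + 2)) (y : ZMod (2 * n + 3)) : P y := by
  have h1 : ∀ k : ℕ, P (x + 2 * k) := by
    intro k
    induction k with
    | zero => simpa using hx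
    | succ k ih =>
      have := h _ ih
      have e : x + 2 * (k : ZMod (2 * n + 3)) + 2 = x + 2 * ((k + 1 : ℕ) : ZMod (2 * n + 3)) := by
        push_cast; ring
      rwa [e] at this
  have h2 := h1 ((y - x) * (n + 2)).val
  rw [ZMod.natCast_val, ZMod.cast_id] at h2
  have e : x + 2 * ((y - x) * (n + 2)) = y := by
    linear_combination (y - x) * wz_half n
  rwa [e] at h2

/-- a nonempty set of residues closed under adding `1` is everything -/
theorem wz_closed_one (n : ℕ) (P : ZMod (2 * n + 3) → Prop) (x : ZMod (2 * n + 3)) (hx : P x)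
    (h : ∀ y, P y → P (y + 1)) (y : ZMod (2 * n + 3)) : P y := by
  apply wz_closed_two n P x hx
  intro z hz
  have := h _ (h _ hz)
  have e : z + 1 + 1 = z + 2 := by ring
  rwa [e] at this

theorem mem_wv_inl (n : ℕ) (v : Option (ZMod (2 * n + 3))) (i : ZMod (2 * n + 3)) :
    v ∈ wv n (Sum.inl i) ↔ v = none ∨ v = some i := by simp [wv]

theorem mem_wv_inr (n : ℕ) (v : Option (ZMod (2 * n + 3))) (i : ZMod (2 * n + 3)) :
    v ∈ wv n (Sum.inr i) ↔ v = some i ∨ v = some (i + 1) := by simp [wv]

theorem mem_wf_inl (n : ℕ) (f : ZMod (2 * n + 3)) (i : ZMod (2 * n + 3)) :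
    f ∈ wf n (Sum.inl i) ↔ f = i ∨ f = i - 2 := by simp [wf]

theorem mem_wf_inr (n : ℕ) (f : ZMod (2 * n + 3)) (i : ZMod (2 * n + 3)) :
    f ∈ wf n (Sum.inr i) ↔ f = i ∨ f = i - 1 := by simp [wf]

theorem wheel_corner (n : ℕ) (v : Option (ZMod (2 * n + 3))) (f : ZMod (2 * n + 3))
    (p : ZMod (2 * n + 3) ⊕ ZMod (2 * n + 3)) (hv : v ∈ wv n p) (hf : f ∈ wf n p) :
    ∃! q, q ≠ p ∧ v ∈ wv n q ∧ f ∈ wf n q := by
  have h1 := wz_one n
  have h2 := wz_two n
  rcases p with i | i
  · rw [mem_wv_inl] at hv
    rw [mem_wf_inl] at hf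
    rcases hv with rfl | rfl <;> rcases hf with rfl | rfl
    · refine ⟨Sum.inl (f + 2), ⟨?_, ?_, ?_⟩, ?_⟩
      · intro h
        exact h2 (by simpa using h)
      · simp [mem_wv_inl]
      · simp [mem_wf_inl]
      · rintro (j | j) ⟨hq, hv, hf⟩
        · rw [mem_wf_inl] at hf
          rcases hf with rfl | rfl
          · exact absurd rfl hq
          · simp
        · simp [mem_wv_inr] at hv
    · refine ⟨Sum.inl (i - 2), ⟨?_, ?_, ?_⟩, ?_⟩
      · intro h
        exact h2 (by simpa using h)
      · simp [mem_wv_inl]
      · simp [mem_wf_inl]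
      · rintro (j | j) ⟨hq, hv, hf⟩
        · rw [mem_wf_inl] at hf
          rcases hf with h | h
          · rw [h]
          · exact absurd (by rw [sub_left_injective.eq_iff] at h; rw [h]) hq
        · simp [mem_wv_inr] at hv
    · refine ⟨Sum.inr f, ⟨?_, ?_, ?_⟩, ?_⟩
      · simp
      · simp [mem_wv_inr]
      · simp [mem_wf_inr]
      · rintro (j | j) ⟨hq, hv, hf⟩
        · rw [mem_wv_inl] at hv
          simp only [reduceCtorEq, Option.some.injEq, false_or] at hv
          exact absurd (by rw [hv]) hq
        · rw [mem_wv_inr] at hv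
          rw [mem_wf_inr] at hf
          simp only [Option.some.injEq] at hv
          rcases hv with rfl | hv
          · rfl
          · rcases hf with hf | hf
            · rw [hf]
            · exact absurd (by linear_combination hf - hv) h2
    · refine ⟨Sum.inr (i - 1), ⟨?_, ?_, ?_⟩, ?_⟩
      · simp
      · simp [mem_wv_inr]
      · rw [mem_wf_inr]
        right
        ring
      · rintro (j | j) ⟨hq, hv, hf⟩
        · rw [mem_wv_inl] at hv
          simp only [reduceCtorEq, Option.some.injEq, false_or] at hv
          exact absurd (by rw [hv]) hq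
        · rw [mem_wv_inr] at hv
          rw [mem_wf_inr] at hf
          simp only [Option.some.injEq] at hv
          rcases hv with hv | hv
          · rcases hf with hf | hf
            · exact absurd (by linear_combination hv - hf) h2
            · exact absurd (by linear_combination hv - hf) h1
          · rw [hv]
            simp
  · rw [mem_wv_inr] at hv
    rw [mem_wf_inr] at hf
    rcases hv with rfl | rfl <;> rcases hf with rfl | rfl
    · refine ⟨Sum.inl f, ⟨?_, ?_, ?_⟩, ?_⟩
      · simp
      · simp [mem_wv_inl]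
      · simp [mem_wf_inl]
      · rintro (j | j) ⟨hq, hv, hf⟩
        · rw [mem_wv_inl] at hv
          simp only [reduceCtorEq, Option.some.injEq, false_or] at hv
          rw [hv]
        · rw [mem_wv_inr] at hv
          rw [mem_wf_inr] at hf
          simp only [Option.some.injEq] at hv
          rcases hv with rfl | hv
          · exact absurd rfl hq
          · rcases hf with hf | hf
            · exact absurd (by rw [hf]) hq
            · exact absurd (by linear_combination hf - hv) h2
    · refine ⟨Sum.inr (i - 1), ⟨?_, ?_, ?_⟩, ?_⟩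
      · intro h
        exact h1 (by simpa using h)
      · simp [mem_wv_inr]
      · simp [mem_wf_inr]
      · rintro (j | j) ⟨hq, hv, hf⟩
        · rw [mem_wv_inl] at hv
          rw [mem_wf_inl] at hf
          simp only [reduceCtorEq, Option.some.injEq, false_or] at hv
          rcases hf with hf | hf
          · exact absurd (by linear_combination hv - hf) h1
          · exact absurd (by linear_combination hf - hv) h1
        · rw [mem_wv_inr] at hv
          simp only [Option.some.injEq] at hv
          rcases hv with rfl | hv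
          · exact absurd rfl hq
          · rw [hv]
            simp
    · refine ⟨Sum.inr (f + 1), ⟨?_, ?_, ?_⟩, ?_⟩
      · intro h
        exact h1 (by simpa using h)
      · simp [mem_wv_inr]
      · simp [mem_wf_inr]
      · rintro (j | j) ⟨hq, hv, hf⟩
        · rw [mem_wv_inl] at hv
          rw [mem_wf_inl] at hf
          simp only [reduceCtorEq, Option.some.injEq, false_or] at hv
          rcases hf with hf | hf
          · exact absurd (by linear_combination hv - hf) h1
          · exact absurd (by linear_combination hf - hv) h1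
        · rw [mem_wv_inr] at hv
          simp only [Option.some.injEq] at hv
          rcases hv with hv | hv
          · rw [hv]
          · exact absurd (by rw [add_right_cancel hv]) hq
    · refine ⟨Sum.inl (i + 1), ⟨?_, ?_, ?_⟩, ?_⟩
      · simp
      · simp [mem_wv_inl]
      · rw [mem_wf_inl]
        right
        ring
      · rintro (j | j) ⟨hq, hv, hf⟩
        · rw [mem_wv_inl] at hv
          simp only [reduceCtorEq, Option.some.injEq, false_or] at hv
          rw [hv]
        · rw [mem_wv_inr] at hv
          rw [mem_wf_inr] at hf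
          simp only [Option.some.injEq] at hv
          rcases hv with hv | hv
          · rcases hf with hf | hf
            · exact absurd (by linear_combination hv - hf) h2
            · exact absurd (by linear_combination hv - hf) h1
          · exact absurd (by rw [add_right_cancel hv]) hq

/-- Corners: hub, face `i`: spokes `i`, `i + 2`; vertex `i`: face `i`: spoke `i`, rim `i`; face
`i - 1`: rim `i - 1`, rim `i`; face `i - 2`: rim `i - 1`, spoke `i`. -/
theorem wheel_isMap (n : ℕ) : IsMap (wv n) (wf n) where
  two_ends := by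
    rintro (i | i)
    · exact Finset.card_pair (by simp)
    · apply Finset.card_pair
      intro h
      apply wz_one n
      simpa using h
  two_faces := by
    rintro (i | i)
    · apply Finset.card_pair
      intro h
      exact wz_two n (by linear_combination h)
    · apply Finset.card_pair
      intro h
      exact wz_one n (by linear_combination h)
  corner := wheel_corner n
  face_cycle := by
    intro f S hS hne hcl
    have hfl : f ∈ wf n (Sum.inl f) := by simp [mem_wf_inl]
    have hfl2 : f ∈ wf n (Sum.inl (f + 2)) := by simp [mem_wf_inl]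
    have hfr : f ∈ wf n (Sum.inr f) := by simp [mem_wf_inr]
    have hfr1 : f ∈ wf n (Sum.inr (f + 1)) := by simp [mem_wf_inr]
    have key : ∀ q, f ∈ wf n q → q = Sum.inl f ∨ q = Sum.inl (f + 2) ∨ q = Sum.inr f ∨
        q = Sum.inr (f + 1) := by
      rintro (j | j) hq
      · rw [mem_wf_inl] at hq
        rcases hq with rfl | rfl
        · simp
        · simp
      · rw [mem_wf_inr] at hq
        rcases hq with rfl | rfl
        · simp
        · simp
    -- adjacency
    have s1 : Sum.inl f ∈ S → Sum.inl (f + 2) ∈ S := fun h =>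
      hcl _ h _ hfl2 ⟨none, by simp [mem_wv_inl], by simp [mem_wv_inl]⟩
    have s1' : Sum.inl (f + 2) ∈ S → Sum.inl f ∈ S := fun h =>
      hcl _ h _ hfl ⟨none, by simp [mem_wv_inl], by simp [mem_wv_inl]⟩
    have s2 : Sum.inl f ∈ S → Sum.inr f ∈ S := fun h =>
      hcl _ h _ hfr ⟨some f, by simp [mem_wv_inl], by simp [mem_wv_inr]⟩
    have s2' : Sum.inr f ∈ S → Sum.inl f ∈ S := fun h =>
      hcl _ h _ hfl ⟨some f, by simp [mem_wv_inr], by simp [mem_wv_inl]⟩
    have s3 : Sum.inr f ∈ S → Sum.inr (f + 1) ∈ S := fun h =>
      hcl _ h _ hfr1 ⟨some (f + 1), by simp [mem_wv_inr], by simp [mem_wv_inr]⟩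
    have s3' : Sum.inr (f + 1) ∈ S → Sum.inr f ∈ S := fun h =>
      hcl _ h _ hfr ⟨some (f + 1), by simp [mem_wv_inr], by simp [mem_wv_inr]⟩
    have h0 : Sum.inl f ∈ S := by
      obtain ⟨p, hp⟩ := hne
      rcases key p (hS p hp) with rfl | rfl | rfl | rfl
      · exact hp
      · exact s1' hp
      · exact s2' hp
      · exact s2' (s3' hp)
    intro q hq
    rcases key q hq with rfl | rfl | rfl | rfl
    · exact h0
    · exact s1 h0
    · exact s2 h0
    · exact s3 (s2 h0)
  vertex_cycle := by
    intro v S hS hne hcl
    rcases v with _ | i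
    · obtain ⟨p, hp⟩ := hne
      rcases p with i | i
      · have h1 : ∀ j, (Sum.inl j : ZMod (2 * n + 3) ⊕ ZMod (2 * n + 3)) ∈ S := by
          apply wz_closed_two n (fun j => Sum.inl j ∈ S) i hp
          intro y hy
          exact hcl _ hy _ (by simp [mem_wv_inl]) ⟨y, by simp [mem_wf_inl], by simp [mem_wf_inl]⟩
        rintro (j | j) hq
        · exact h1 j
        · simp [mem_wv_inr] at hq
      · have := hS _ hp
        simp [mem_wv_inr] at this
    · have hl : some i ∈ wv n (Sum.inl i) := by simp [mem_wv_inl]
      have hr : some i ∈ wv n (Sum.inr i) := by simp [mem_wv_inr]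
      have hr1 : some i ∈ wv n (Sum.inr (i - 1)) := by simp [mem_wv_inr]
      have key : ∀ q, some i ∈ wv n q → q = Sum.inl i ∨ q = Sum.inr i ∨ q = Sum.inr (i - 1) := by
        rintro (j | j) hq
        · rw [mem_wv_inl] at hq
          simp only [reduceCtorEq, Option.some.injEq, false_or] at hq
          rw [hq]
          simp
        · rw [mem_wv_inr] at hq
          simp only [Option.some.injEq] at hq
          rcases hq with rfl | rfl
          · simp
          · simp
      have f1 : ∃ f, f ∈ wf n (Sum.inl i) ∧ f ∈ wf n (Sum.inr i) :=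
        ⟨i, by simp [mem_wf_inl], by simp [mem_wf_inr]⟩
      have f2 : ∃ f, f ∈ wf n (Sum.inr i) ∧ f ∈ wf n (Sum.inr (i - 1)) :=
        ⟨i - 1, by simp [mem_wf_inr], by simp [mem_wf_inr]⟩
      have s1 : Sum.inl i ∈ S → Sum.inr i ∈ S := fun h => hcl _ h _ hr f1
      have s1' : Sum.inr i ∈ S → Sum.inl i ∈ S := fun h =>
        hcl _ h _ hl (by obtain ⟨f, ha, hb⟩ := f1; exact ⟨f, hb, ha⟩)
      have s2 : Sum.inr i ∈ S → Sum.inr (i - 1) ∈ S := fun h => hcl _ h _ hr1 f2
      have s2' : Sum.inr (i - 1) ∈ S → Sum.inr i ∈ S := fun h =>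
        hcl _ h _ hr (by obtain ⟨f, ha, hb⟩ := f2; exact ⟨f, hb, ha⟩)
      have h0 : Sum.inr i ∈ S := by
        obtain ⟨p, hp⟩ := hne
        rcases key p (hS p hp) with rfl | rfl | rfl
        · exact s1 hp
        · exact hp
        · exact s2' hp
      intro q hq
      rcases key q hq with rfl | rfl | rfl
      · exact s1' h0
      · exact h0
      · exact s2 h0
  conn := by
    intro S hne hcl
    have h0 : none ∈ S := by
      obtain ⟨v, hv⟩ := hne
      rcases v with _ | i
      · exact hv
      · exact hcl (Sum.inl i) (some i) (by simp [mem_wv_inl]) hv none (by simp [mem_wv_inl])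
    ext v
    simp only [Set.mem_univ, iff_true]
    rcases v with _ | i
    · exact h0
    · exact hcl (Sum.inl i) none (by simp [mem_wv_inl]) h0 (some i) (by simp [mem_wv_inl])
  dual_conn := by
    intro S hne hcl
    obtain ⟨x, hx⟩ := hne
    ext y
    simp only [Set.mem_univ, iff_true]
    apply wz_closed_one n (fun y => y ∈ S) x hx
    intro z hz
    exact hcl (Sum.inr (z + 1)) z (by simp [mem_wf_inr]) hz (z + 1) (by simp [mem_wf_inr])

theorem wheel_euler (n : ℕ) : Fintype.card (Option (ZMod (2 * n + 3))) +
    Fintype.card (ZMod (2 * n + 3)) =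
      Fintype.card (ZMod (2 * n + 3) ⊕ ZMod (2 * n + 3)) + 1 := by
  rw [Fintype.card_option, Fintype.card_sum]
  omega

end Pool.Agent.H34.PM
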