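import Pool.Agent.H34.PM.Whl

set_option autoImplicit false

/-! # [H34 PM WNon] the wheel map is not orientable -/

namespace Pool.Agent.H34.PM

open Finset

/-- Let `x i = s none (inl i) i`. Corner at the hub in the face `i` and face change at the spoke
`i + 2`: `x (i + 2) = x i`, so `x` is constant (`2 n + 3` is odd). On the other hand
`s none (inl i) i = x`, `s i (inl i) i = !x`, `s i (inr i) i = x`, `s (i+1) (inr i) i = !x`,
`s (i+1) (inr (i+1)) i = x`, `s (i+1) (inr (i+1)) (i+1) = !x`, `s (i+1) (inl (i+1)) (i+1) = x`,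
`s none (inl (i+1)) (i+1) = !x`, so `x (i + 1) = !x i`. -/
theorem wheel_not_orientable (n : ℕ) : ¬ Orientable (wv n) (wf n) := by
  rintro ⟨s, h1, h2, h3⟩
  haveI : Fact (1 < 2 * n + 3) := ⟨by omega⟩
  have hne : ∀ i : ZMod (2 * n + 3), i ≠ i + 1 := fun i h => one_ne_zero (left_eq_add.1 h)
  have flip : ∀ a b : Bool, a ≠ b → b = !a := by decide
  have step : ∀ i : ZMod (2 * n + 3), s none (Sum.inl (i + 1)) (i + 1) = !(s none (Sum.inl i) i) := by
    intro i
    have a1 := flip _ _ (h1 (Sum.inl i) none (some i) i (by simp [wv]) (by simp [wv]) (by simp) (by simp [wf]))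
    have a2 := flip _ _ (h3 (Sum.inl i) (Sum.inr i) (some i) i (by simp [wv]) (by simp [wv]) (by simp [wf])
      (by simp [wf]) (by simp))
    have a3 := flip _ _ (h1 (Sum.inr i) (some i) (some (i + 1)) i (by simp [wv]) (by simp [wv])
      (fun h => hne i (Option.some.inj h)) (by simp [wf]))
    have a4 := flip _ _ (h3 (Sum.inr i) (Sum.inr (i + 1)) (some (i + 1)) i (by simp [wv]) (by simp [wv])
      (by simp [wf]) (by simp [wf]) (fun h => hne i (Sum.inr.inj h)))
    have a5 := flip _ _ (h2 (Sum.inr (i + 1)) (some (i + 1)) i (i + 1) (by simp [wv]) (by simp [wf])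
      (by simp [wf]) (hne i))
    have a6 := flip _ _ (h3 (Sum.inr (i + 1)) (Sum.inl (i + 1)) (some (i + 1)) (i + 1) (by simp [wv])
      (by simp [wv]) (by simp [wf]) (by simp [wf]) (by simp))
    have a7 := flip _ _ (h1 (Sum.inl (i + 1)) (some (i + 1)) none (i + 1) (by simp [wv]) (by simp [wv])
      (by simp) (by simp [wf]))
    rw [a7, a6, a5, a4, a3, a2, a1]
    simp
  obtain ⟨x, hx⟩ : ∃ x : ZMod (2 * n + 3) → Bool, x = fun i => s none (Sum.inl i) i := ⟨_, rfl⟩
  have hstep : ∀ i, x (i + 1) = !(x i) := by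
    intro i
    rw [hx]
    exact step i
  have hk : ∀ k : ℕ, x ((2 * k : ℕ) : ZMod (2 * n + 3)) = x 0 := by
    intro k
    induction k with
    | zero => simp
    | succ k ih =>
      have e : ((2 * (k + 1) : ℕ) : ZMod (2 * n + 3)) = ((2 * k : ℕ) : ZMod (2 * n + 3)) + 1 + 1 := by
        push_cast
        ring
      rw [e, hstep, hstep, ih]
      simp
  have h4 : ((2 * (n + 1) : ℕ) : ZMod (2 * n + 3)) + 1 = 0 := by
    have h5 : (((2 * n + 3 : ℕ)) : ZMod (2 * n + 3)) = 0 := ZMod.natCast_self _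
    rw [← h5]
    push_cast
    ring
  have h6 := hstep ((2 * (n + 1) : ℕ) : ZMod (2 * n + 3))
  rw [h4, hk] at h6
  revert h6
  cases x 0 <;> simp

end Pool.Agent.H34.PM
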