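import Pool.Agent.H34.PM.Def

set_option autoImplicit false

/-!
# [H34 PM Whl] Wheels with an odd number `m = 2 n + 3` of spokes in the projective plane

`none` is the hub, `inl i` the spoke at the rim vertex `i`, `inr i` the rim edge `i, i + 1`; the face
`i` has the vertices hub, `i`, `i + 1`, `i + 2`.
-/

namespace Pool.Agent.H34.PM

open Finset

/-- The ends of the edges of the wheel with `2 n + 3` spokes. -/
def wv (n : ℕ) : ZMod (2 * n + 3) ⊕ ZMod (2 * n + 3) → Finset (Option (ZMod (2 * n + 3)))
  | Sum.inl i => {none, some i}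
  | Sum.inr i => {some i, some (i + 1)}

/-- The faces at the edges. -/
def wf (n : ℕ) : ZMod (2 * n + 3) ⊕ ZMod (2 * n + 3) → Finset (ZMod (2 * n + 3))
  | Sum.inl i => {i, i - 2}
  | Sum.inr i => {i, i - 1}

end Pool.Agent.H34.PM
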